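import Pool.Agent.R986.CM.Defs

/-!
# The blocks of a Brownian motion are independent and identically distributed
-/

open MeasureTheory ProbabilityTheory Filter Topology Set
open scoped ENNReal NNReal

namespace Pool.Agent.R986.CM

open Pool.Agent.R974.Span

variable {Ω : Type*} [MeasurableSpace Ω] {P : Measure Ω} {B : ℝ≥0 → Ω → ℝ}

namespace Blk

/-- two Brownian motions have the same law on the product space -/
theorem law_path {B' : ℝ≥0 → Ω → ℝ} (hB : GBM B P) (hB' : GBM B' P) :
    P.map (fun ω t => B t ω) = P.map (fun ω t => B' t ω) := by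
  have := hB.prob
  have h : ∀ {C : ℝ≥0 → Ω → ℝ}, GBM C P →
      IsProjectiveLimit (P.map (fun ω t => C t ω)) ProbabilityTheory.BrownianReal.projectiveFamily := by
    intro C hC I
    rw [Measure.map_map (Finset.measurable_restrict I) (measurable_pi_lambda _ hC.meas)]
    exact (hC.pre.hasLaw I).map_eq
  exact (h hB).unique (h hB')

theorem meas_pth (hB : GBM B P) : Measurable (pth hB) :=
  Measurable.subtype_mk (measurable_pi_lambda _ hB.meas)

theorem law_pth {B' : ℝ≥0 → Ω → ℝ} (hB : GBM B P) (hB' : GBM B' P) :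
    P.map (pth hB) = P.map (pth hB') := by
  ext S hS
  rw [Measure.map_apply (meas_pth hB) hS, Measure.map_apply (meas_pth hB') hS]
  obtain ⟨A, hA, rfl⟩ := hS
  have h := congrArg (fun m => m A) (law_path hB hB')
  beta_reduce at h
  rw [Measure.map_apply (measurable_pi_lambda _ hB.meas) hA,
    Measure.map_apply (measurable_pi_lambda _ hB'.meas) hA] at h
  exact h

/-- the path stopped at time 2 -/
noncomputable def stp (w : CP) : CP := ⟨fun t => w.1 (min t 2), by
  have := w.2
  fun_prop⟩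

theorem meas_stp : Measurable stp :=
  Measurable.subtype_mk (f := fun w : CP => fun t : ℝ≥0 => w.1 (min t 2))
    (measurable_pi_lambda _ fun t => (measurable_pi_apply (min t 2)).comp measurable_subtype_coe)

theorem blk_eq (hB : GBM B P) (k : ℕ) (ω : Ω) :
    blkC (pth hB ω) k = stp (pth (hB.shift (2 * (k : ℝ≥0))) ω) := rfl

theorem meas_blk (hB : GBM B P) (k : ℕ) : Measurable (fun ω => blkC (pth hB ω) k) := by
  have : (fun ω => blkC (pth hB ω) k) = stp ∘ pth (hB.shift (2 * (k : ℝ≥0))) := by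
    funext ω
    exact blk_eq hB k ω
  rw [this]
  exact meas_stp.comp (meas_pth _)

theorem law_blk (hB : GBM B P) (k : ℕ) :
    P.map (fun ω => blkC (pth hB ω) k) = P.map (fun ω => blkC (pth hB ω) 0) := by
  have h : ∀ k : ℕ, P.map (fun ω => blkC (pth hB ω) k) =
      (P.map (pth (hB.shift (2 * (k : ℝ≥0))))).map stp := by
    intro k
    rw [Measure.map_map meas_stp (meas_pth _)]
    rfl
  rw [h k, h 0, law_pth (hB.shift _) (hB.shift _)]

/-- the block number `i` as a function of the past of `2k` -/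
noncomputable def pst (k i : ℕ) (g : Set.Iic (2 * (k : ℝ≥0)) → ℝ) : ℝ≥0 → ℝ := fun t =>
  g ⟨min (2 * (i : ℝ≥0) + min t 2) (2 * (k : ℝ≥0)), Set.mem_Iic.mpr (min_le_right _ _)⟩ -
    g ⟨min (2 * (i : ℝ≥0)) (2 * (k : ℝ≥0)), Set.mem_Iic.mpr (min_le_right _ _)⟩

theorem meas_pst (k i : ℕ) : Measurable (pst k i) := by
  unfold pst
  fun_prop

omit [MeasurableSpace Ω] in
theorem pst_eq {i k : ℕ} (h : i < k) (ω : Ω) :
    pst k i (fun t : Set.Iic (2 * (k : ℝ≥0)) => B t ω) = blk2 (fun t => B t ω) i := by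
  funext t
  have h1 : (i : ℝ≥0) + 1 ≤ k := by exact_mod_cast h
  have h2 : 2 * (i : ℝ≥0) + min t 2 ≤ 2 * (k : ℝ≥0) := by
    calc 2 * (i : ℝ≥0) + min t 2 ≤ 2 * (i : ℝ≥0) + 2 := by gcongr; exact min_le_right _ _
      _ = 2 * ((i : ℝ≥0) + 1) := by ring
      _ ≤ 2 * (k : ℝ≥0) := by gcongr
  have h3 : 2 * (i : ℝ≥0) ≤ 2 * (k : ℝ≥0) := le_trans le_self_add h2
  simp only [pst, blk2, min_eq_left h2, min_eq_left h3]

theorem indep (hB : GBM B P) : iIndepFun (fun (k : ℕ) ω => blkC (pth hB ω) k) P := by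
  have := hB.prob
  rw [iIndepFun_iff_measure_inter_preimage_eq_mul]
  intro S
  induction S using Finset.induction_on_max with
  | empty => intro sets _; simp
  | insert k S hk ih =>
    intro sets H
    have hkS : k ∉ S := fun h => lt_irrefl _ (hk k h)
    rw [Finset.prod_insert hkS, ← ih (fun i hi => H i (Finset.mem_insert_of_mem hi))]
    choose A hA1 hA2 using H
    have hind := hB.pre.indepFun_shift (2 * (k : ℝ≥0))
    set s : Set (ℝ≥0 → ℝ) := (fun (w : ℝ≥0 → ℝ) (t : ℝ≥0) => w (min t 2)) ⁻¹'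
      (A k (Finset.mem_insert_self _ _)) with hs
    have hsm : MeasurableSet s := by
      refine (measurable_pi_lambda _ fun t => measurable_pi_apply _) (hA1 k _)
    set T : Set (Set.Iic (2 * (k : ℝ≥0)) → ℝ) := ⋂ i, ⋂ (hi : i ∈ S),
      (pst k i) ⁻¹' (A i (Finset.mem_insert_of_mem hi)) with hT
    have hTm : MeasurableSet T :=
      MeasurableSet.iInter fun i => MeasurableSet.iInter fun hi => meas_pst k i (hA1 i _)
    have h1 := hind.measure_inter_preimage_eq_mul s T hsm hTm
    have e1 : (fun ω => blkC (pth hB ω) k) ⁻¹' sets k =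
        (fun ω t => B (2 * (k : ℝ≥0) + t) ω - B (2 * (k : ℝ≥0)) ω) ⁻¹' s := by
      rw [← hA2 k (Finset.mem_insert_self _ _)]
      rfl
    have e2 : (⋂ i ∈ S, (fun ω => blkC (pth hB ω) i) ⁻¹' sets i) =
        (fun ω (t : Set.Iic (2 * (k : ℝ≥0))) => B t ω) ⁻¹' T := by
      ext ω
      simp only [hT, mem_iInter, mem_preimage]
      refine forall_congr' fun i => forall_congr' fun hi => ?_
      rw [pst_eq (hk i hi), ← hA2 i (Finset.mem_insert_of_mem hi)]
      rfl
    rw [Finset.set_biInter_insert, e1, e2]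
    exact h1

end Blk

/-- BLK -/
theorem blkiid (hB : GBM B P) :
    iIndepFun (fun (k : ℕ) ω => blkC (pth hB ω) k) P ∧
    ∀ k : ℕ, Measurable (fun ω => blkC (pth hB ω) k) ∧
      P.map (fun ω => blkC (pth hB ω) k) = P.map (fun ω => blkC (pth hB ω) 0) :=
  ⟨Blk.indep hB, fun k => ⟨Blk.meas_blk hB k, Blk.law_blk hB k⟩⟩

end Pool.Agent.R986.CM
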