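import Pool.Agent.R974.Span.BM

/-!
# Windows of Brownian motion (MP_0f8574_pr): definitions
-/

open MeasureTheory ProbabilityTheory Filter Topology Set
open scoped ENNReal NNReal

namespace Pool.Agent.R986.CM

open Pool.Agent.R974.Span

/-- continuous paths, with the trace of the product sigma-algebra -/
abbrev CP := {w : ℝ≥0 → ℝ // Continuous w}

/-- the last time `≤ 1` at which `w ≤ y` -/
noncomputable def lst (w : ℝ≥0 → ℝ) (y : ℝ) : ℝ≥0 := sSup {t | t ≤ 1 ∧ w t ≤ y}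

/-- good levels: the path stays strictly above `y` for one unit of time after the last time
before `1` at level `y` -/
def Lv (w : ℝ≥0 → ℝ) : Set ℝ :=
  {y | y < w 1 ∧ (∃ t ≤ (1 : ℝ≥0), w t ≤ y) ∧ ∀ s, lst w y < s → s ≤ lst w y + 1 → y < w s}

/-- the window started at `lst w y` -/
noncomputable def win (w : ℝ≥0 → ℝ) (y : ℝ) (u : ℝ≥0) : ℝ := w (lst w y + u) - y

/-- the window as a function on `[0,1]` -/
noncomputable def win1 (w : ℝ≥0 → ℝ) (y : ℝ) : Set.Iic (1 : ℝ≥0) → ℝ := fun u => win w y u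

/-- the block number `k` of a path: `[2k, 2k+2]`, stopped -/
noncomputable def blk2 (w : ℝ≥0 → ℝ) (k : ℕ) (t : ℝ≥0) : ℝ :=
  w (2 * (k : ℝ≥0) + min t 2) - w (2 * (k : ℝ≥0))

/-- the block as a continuous path -/
noncomputable def blkC (w : CP) (k : ℕ) : CP := ⟨blk2 w.1 k, by
  have := w.2
  unfold blk2
  fun_prop⟩

/-- the path of a Brownian motion as a continuous path -/
def pth {Ω : Type*} [MeasurableSpace Ω] {P : Measure Ω} {B : ℝ≥0 → Ω → ℝ} (hB : GBM B P)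
    (ω : Ω) : CP := ⟨fun t => B t ω, hB.cont ω⟩

section
variable {Ω : Type*} [MeasurableSpace Ω]

/-- three independent Brownian motions -/
structure B3 (β : Fin 3 → ℝ≥0 → Ω → ℝ) (Q : Measure Ω) : Prop where
  gbm : ∀ i, GBM (β i) Q
  ind : iIndepFun (fun i ω t => β i t ω) Q

end

/-- norm of the three-dimensional Brownian motion started at `(x, 0, 0)` -/
noncomputable def nrm {Ω : Type*} (x : ℝ) (β : Fin 3 → ℝ≥0 → Ω → ℝ) (t : ℝ≥0) (ω : Ω) : ℝ :=
  √((x + β 0 t ω) ^ 2 + (β 1 t ω) ^ 2 + (β 2 t ω) ^ 2)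

/-- the same as a path on `[0,1]` -/
noncomputable def nrm1 {Ω : Type*} (x : ℝ) (β : Fin 3 → ℝ≥0 → Ω → ℝ) (ω : Ω) :
    Set.Iic (1 : ℝ≥0) → ℝ := fun u => nrm x β u ω

/-- `q(r) = min (r^(-1/2), r^(-2))` -/
noncomputable def qq (r : ℝ) : ℝ := min ((√r)⁻¹) ((r ^ 2)⁻¹)

/-- the `i`-th point of the dyadic grid of order `m` -/
noncomputable def gr (m i : ℕ) : ℝ≥0 := (i : ℝ≥0) / 2 ^ m

/-- an upcrossing of `[y, y + e]` along the grid is completed at index `i` -/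
def Dn (w : ℝ≥0 → ℝ) (y e : ℝ) (m i : ℕ) : Prop :=
  y + e ≤ w (gr m i) ∧ ∃ j < i, w (gr m j) ≤ y ∧ ∀ k, j < k → k < i → w (gr m k) < y + e

/-- the path stays above `y` during `[t, t+1]` -/
def St (w : ℝ≥0 → ℝ) (y : ℝ) (t : ℝ≥0) : Prop := ∀ s ≤ (1 : ℝ≥0), y < w (t + s)

end Pool.Agent.R986.CM
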