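import Pool.Agent.R986.CM.Defs

/-!
# Piece G1: the window after the completion of an upcrossing along a grid
-/

open MeasureTheory ProbabilityTheory Filter Topology Set
open scoped ENNReal NNReal

namespace Pool.Agent.R986.CM

open Pool.Agent.R974.Span

variable {Ω : Type*} [MeasurableSpace Ω] {P : Measure Ω} {B : ℝ≥0 → Ω → ℝ}

namespace G1

lemma stay_iff {w : ℝ≥0 → ℝ} (hw : Continuous w) (x : ℝ) :
    (∀ s ≤ (1 : ℝ≥0), 0 < x + w s) ↔ mx (fun s => -w s) 0 1 < x := by
  constructor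
  · intro h
    obtain ⟨s0, hs0, hmin⟩ := (isCompact_Icc (a := (0 : ℝ≥0)) (b := 1)).exists_isMinOn
      ⟨0, ⟨le_rfl, zero_le_one⟩⟩ hw.continuousOn
    have h1 : mx (fun s => -w s) 0 1 ≤ -w s0 := by
      refine mx_le zero_le_one fun s h1 h2 => ?_
      have h3 : w s0 ≤ w s := hmin ⟨h1, h2⟩
      linarith
    have h2 := h s0 hs0.2
    linarith
  · intro h s hs
    have h1 := le_mx (w := fun s => -w s) hw.neg (a := 0) (b := 1) (s := s) zero_le hs
    linarith

lemma gr_mono {m j i : ℕ} (h : j ≤ i) : gr m j ≤ gr m i := by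
  unfold gr
  have : (j : ℝ≥0) ≤ i := by exact_mod_cast h
  gcongr

lemma dn_congr {w w' : ℝ≥0 → ℝ} {y e : ℝ} {m i : ℕ} (h : ∀ j ≤ i, w (gr m j) = w' (gr m j)) :
    Dn w y e m i ↔ Dn w' y e m i := by
  unfold Dn
  rw [h i le_rfl]
  constructor
  · rintro ⟨h1, j, hj, h2, h3⟩
    exact ⟨h1, j, hj, by rw [← h j hj.le]; exact h2, fun k hk hk' => by
      rw [← h k hk'.le]; exact h3 k hk hk'⟩
  · rintro ⟨h1, j, hj, h2, h3⟩
    exact ⟨h1, j, hj, by rw [h j hj.le]; exact h2, fun k hk hk' => by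
      rw [h k hk'.le]; exact h3 k hk hk'⟩

lemma measurableSet_dn (y e : ℝ) (m i : ℕ) : MeasurableSet {w : ℝ≥0 → ℝ | Dn w y e m i} := by
  unfold Dn
  refine MeasurableSet.inter (measurableSet_le measurable_const (measurable_pi_apply _)) ?_
  have e1 : {w : ℝ≥0 → ℝ | ∃ j < i, w (gr m j) ≤ y ∧ ∀ k, j < k → k < i → w (gr m k) < y + e} =
      ⋃ j, ⋃ (_ : j < i), ({w : ℝ≥0 → ℝ | w (gr m j) ≤ y} ∩
        ⋂ k, ⋂ (_ : j < k), ⋂ (_ : k < i), {w : ℝ≥0 → ℝ | w (gr m k) < y + e}) := by
    ext w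
    simp only [Set.mem_ofPred_eq, Set.mem_iUnion, Set.mem_inter_iff, Set.mem_iInter, exists_prop]
  have e2 : MeasurableSet {w : ℝ≥0 → ℝ | ∃ j < i, w (gr m j) ≤ y ∧
      ∀ k, j < k → k < i → w (gr m k) < y + e} := by
    rw [e1]
    refine MeasurableSet.iUnion fun j => MeasurableSet.iUnion fun _ => MeasurableSet.inter ?_ ?_
    · exact measurableSet_le (measurable_pi_apply _) measurable_const
    · exact MeasurableSet.iInter fun k => MeasurableSet.iInter fun _ => MeasurableSet.iInter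
        fun _ => measurableSet_lt (measurable_pi_apply _) measurable_const
  exact e2

/-- two Brownian motions have the same law -/
lemma law_eq {B' : ℝ≥0 → Ω → ℝ} (hB : GBM B P) (hB' : GBM B' P) :
    P.map (fun ω => (B · ω)) = P.map (fun ω => (B' · ω)) := by
  have h1 : IsProjectiveLimit (P.map (fun ω => (B · ω)))
      (fun I : Finset ℝ≥0 => P.map (fun ω => I.restrict (B · ω))) :=
    isProjectiveLimit_map (measurable_pi_lambda _ fun t => hB.meas t).aemeasurable
  have h2 : IsProjectiveLimit (P.map (fun ω => (B' · ω)))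
      (fun I : Finset ℝ≥0 => P.map (fun ω => I.restrict (B' · ω))) :=
    isProjectiveLimit_map (measurable_pi_lambda _ fun t => hB'.meas t).aemeasurable
  have e : (fun I : Finset ℝ≥0 => P.map (fun ω => I.restrict (B · ω))) =
      (fun I : Finset ℝ≥0 => P.map (fun ω => I.restrict (B' · ω))) := by
    funext I
    rw [(hB.pre.hasLaw I).map_eq, (hB'.pre.hasLaw I).map_eq]
  have hfin : ∀ I : Finset ℝ≥0, IsFiniteMeasure (P.map (fun ω => I.restrict (B' · ω))) := by
    intro I
    rw [(hB'.pre.hasLaw I).map_eq]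
    infer_instance
  rw [e] at h1
  exact h1.unique h2

/-- the extension of a path on `[0,t]` -/
def xt (t : ℝ≥0) (g : Set.Iic t → ℝ) (s : ℝ≥0) : ℝ :=
  g ⟨min s t, Set.mem_Iic.mpr (min_le_right _ _)⟩

lemma measurable_xt (t : ℝ≥0) : Measurable (xt t) :=
  measurable_pi_lambda _ fun s => measurable_pi_apply _

/-- the paths that stay positive when started at `x` -/
def SS : Set (ℝ × (ℝ≥0 → ℝ)) := {p | mx (fun s => -p.2 s) 0 1 < p.1}

lemma measurableSet_SS : MeasurableSet SS := by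
  refine measurableSet_lt ?_ measurable_fst
  have h : Measurable (fun p : ℝ × (ℝ≥0 → ℝ) => fun s => -p.2 s) :=
    measurable_pi_lambda _ fun s => ((measurable_pi_apply s).comp measurable_snd).neg
  exact (measurable_mx 0 1).comp h

end G1

open G1

theorem grid (hB : GBM B P) {n : ℕ} (u : Fin n → ℝ≥0) (hu : ∀ i, u i ≤ 1)
    {φ : (Fin n → ℝ) → ℝ} (hφ : Continuous φ) {C : ℝ} (hC : ∀ v, |φ v| ≤ C)
    {r : ℝ → ℝ} (hr : Continuous r) (hrC : ∀ x, |r x| ≤ C)
    (hφr : ∀ x : ℝ, 0 < x → ∫ ω in {ω | ∀ s ≤ (1 : ℝ≥0), 0 < x + B s ω},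
      φ (fun i => x + B (u i) ω) ∂P = r x * P.real {ω | ∀ s ≤ (1 : ℝ≥0), 0 < x + B s ω})
    (y : ℝ) {e : ℝ} (he : 0 < e) (m i : ℕ) :
    ∫ ω in {ω | Dn (fun t => B t ω) y e m i ∧ St (fun t => B t ω) y (gr m i)},
        φ (fun l => B (gr m i + u l) ω - y) ∂P =
      ∫ ω in {ω | Dn (fun t => B t ω) y e m i ∧ St (fun t => B t ω) y (gr m i)},
        r (B (gr m i) ω - y) ∂P := by
  have hP := hB.prob
  set t := gr m i with ht
  have hW := hB.shift t
  set W : Ω → ℝ≥0 → ℝ := fun ω s => B (t + s) ω - B t ω with hWd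
  set g : Ω → Set.Iic t → ℝ := fun ω s => B s ω with hg
  have hgm : Measurable g := measurable_pi_lambda _ fun s => hB.meas s
  have hWm : Measurable W := measurable_pi_lambda _ fun s => hW.meas s
  have hind : IndepFun g W P := (hB.pre.indepFun_shift t).symm
  have hprod := (indepFun_iff_map_prod_eq_prod_map_map hgm.aemeasurable hWm.aemeasurable).mp hind
  have hlaw : P.map W = P.map (fun ω => (B · ω)) := law_eq hW hB
  have hBm : Measurable (fun ω => (B · ω)) := measurable_pi_lambda _ fun s => hB.meas s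
  -- the set of the good pasts
  set D : Set (Set.Iic t → ℝ) := {g | Dn (xt t g) y e m i} with hD
  have hDm : MeasurableSet D := (measurable_xt t) (measurableSet_dn y e m i)
  set X : (Set.Iic t → ℝ) → ℝ := fun g => g ⟨t, Set.mem_Iic.mpr le_rfl⟩ - y with hX
  have hXm : Measurable X := (measurable_pi_apply _).sub measurable_const
  have hXD : ∀ g ∈ D, 0 < X g := by
    intro g hg
    have h1 : y + e ≤ xt t g (gr m i) := hg.1
    have h2 : xt t g (gr m i) = g ⟨t, Set.mem_Iic.mpr le_rfl⟩ := by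
      unfold xt
      congr 1
      exact Subtype.ext (min_self t)
    rw [h2] at h1
    change 0 < g ⟨t, Set.mem_Iic.mpr le_rfl⟩ - y
    linarith
  set A : Set ((Set.Iic t → ℝ) × (ℝ≥0 → ℝ)) := {p | p.1 ∈ D ∧ (X p.1, p.2) ∈ SS} with hA
  have hpm : Measurable (fun p : (Set.Iic t → ℝ) × (ℝ≥0 → ℝ) => (X p.1, p.2)) :=
    (hXm.comp measurable_fst).prodMk measurable_snd
  have hAm : MeasurableSet A := (measurable_fst hDm).inter (hpm measurableSet_SS)
  have hset : {ω | Dn (fun t => B t ω) y e m i ∧ St (fun t => B t ω) y t} =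
      (fun ω => (g ω, W ω)) ⁻¹' A := by
    ext ω
    simp only [Set.mem_ofPred_eq, Set.mem_preimage, hA, hD]
    refine and_congr ?_ ?_
    · refine dn_congr fun j hj => ?_
      unfold xt
      simp only [hg]
      rw [min_eq_left (gr_mono hj)]
    · have h1 := stay_iff (hW.cont ω) (X (g ω))
      change _ ↔ mx (fun s => -W ω s) 0 1 < X (g ω)
      rw [← h1]
      unfold St
      refine forall₂_congr fun s _ => ?_
      change y < B (t + s) ω ↔ 0 < (B t ω - y) + (B (t + s) ω - B t ω)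
      constructor <;> intro h <;> linarith
  have hsetm : MeasurableSet ((fun ω => (g ω, W ω)) ⁻¹' A) := (hgm.prodMk hWm) hAm
  rw [hset]
  -- the two functions
  set F1 : (Set.Iic t → ℝ) × (ℝ≥0 → ℝ) → ℝ := fun p => φ (fun l => X p.1 + p.2 (u l)) with hF1
  set F2 : (Set.Iic t → ℝ) × (ℝ≥0 → ℝ) → ℝ := fun p => r (X p.1) with hF2
  have hF1m : Measurable F1 := hφ.measurable.comp (measurable_pi_lambda _ fun l =>
    (hXm.comp measurable_fst).add ((measurable_pi_apply (u l)).comp measurable_snd))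
  have hF2m : Measurable F2 := hr.measurable.comp (hXm.comp measurable_fst)
  have key : ∀ F : (Set.Iic t → ℝ) × (ℝ≥0 → ℝ) → ℝ, Measurable F → (∀ p, |F p| ≤ C) →
      ∫ ω in (fun ω => (g ω, W ω)) ⁻¹' A, F (g ω, W ω) ∂P =
        ∫ x, ∫ w, A.indicator F (x, w) ∂(P.map (fun ω => (B · ω))) ∂(P.map g) := by
    intro F hF hFC
    have hAF : Measurable (A.indicator F) := hF.indicator hAm
    have e1 : ∫ ω in (fun ω => (g ω, W ω)) ⁻¹' A, F (g ω, W ω) ∂P =
        ∫ ω, A.indicator F (g ω, W ω) ∂P := by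
      rw [← integral_indicator hsetm]
      rfl
    have hp1 : IsProbabilityMeasure (P.map g) := Measure.isProbabilityMeasure_map hgm.aemeasurable
    have hp2 : IsProbabilityMeasure (P.map W) := Measure.isProbabilityMeasure_map hWm.aemeasurable
    rw [e1, ← integral_map (φ := fun ω => (g ω, W ω)) (hgm.prodMk hWm).aemeasurable
      hAF.aestronglyMeasurable, hprod, integral_prod, hlaw]
    refine Integrable.of_bound hAF.aestronglyMeasurable C (Filter.Eventually.of_forall fun p => ?_)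
    rw [Real.norm_eq_abs]
    by_cases hp : p ∈ A
    · rw [Set.indicator_of_mem hp]
      exact hFC p
    · rw [Set.indicator_of_notMem hp, abs_zero]
      exact (abs_nonneg _).trans (hFC p)
  have k1 := key F1 hF1m fun p => hC _
  have k2 := key F2 hF2m fun p => hrC _
  have l1 : ∀ ω, φ (fun l => B (t + u l) ω - y) = F1 (g ω, W ω) := by
    intro ω
    simp only [hF1]
    congr 1
    funext l
    change B (t + u l) ω - y = (B t ω - y) + (B (t + u l) ω - B t ω)
    ring
  have l2 : ∀ ω, r (B t ω - y) = F2 (g ω, W ω) := fun ω => rfl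
  simp only [l1, l2]
  rw [k1, k2]
  congr 1
  funext x
  by_cases hx : x ∈ D
  · have hx0 := hXD x hx
    have hstm : MeasurableSet {ω | ∀ s ≤ (1 : ℝ≥0), 0 < X x + B s ω} := by
      have e2 : {ω | ∀ s ≤ (1 : ℝ≥0), 0 < X x + B s ω} =
          {ω | mx (fun s => -B s ω) 0 1 < X x} := by
        ext ω
        exact stay_iff (hB.cont ω) (X x)
      rw [e2]
      refine measurableSet_lt ?_ measurable_const
      exact (measurable_mx 0 1).comp (measurable_pi_lambda _ fun s => (hB.meas s).neg)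
    have e3 : ∀ F : (Set.Iic t → ℝ) × (ℝ≥0 → ℝ) → ℝ, Measurable F →
        ∫ w, A.indicator F (x, w) ∂(P.map (fun ω => (B · ω))) =
          ∫ ω in {ω | ∀ s ≤ (1 : ℝ≥0), 0 < X x + B s ω}, F (x, (B · ω)) ∂P := by
      intro F hF
      have hAF : Measurable (fun w => A.indicator F (x, w)) :=
        (hF.indicator hAm).comp measurable_prodMk_left
      rw [integral_map hBm.aemeasurable hAF.aestronglyMeasurable, ← integral_indicator hstm]
      congr 1
      funext ω
      by_cases h : ∀ s ≤ (1 : ℝ≥0), 0 < X x + B s ω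
      · have h1 : (x, (B · ω)) ∈ A := ⟨hx, (stay_iff (hB.cont ω) (X x)).1 h⟩
        rw [Set.indicator_of_mem h1, Set.indicator_of_mem (show ω ∈ {ω | ∀ s ≤ (1 : ℝ≥0),
          0 < X x + B s ω} from h)]
      · have h1 : (x, (B · ω)) ∉ A := fun h2 => h ((stay_iff (hB.cont ω) (X x)).2 h2.2)
        rw [Set.indicator_of_notMem h1, Set.indicator_of_notMem (show ω ∉ {ω | ∀ s ≤ (1 : ℝ≥0),
          0 < X x + B s ω} from h)]
    rw [e3 F1 hF1m, e3 F2 hF2m]
    have e4 := hφr (X x) hx0
    simp only [hF1, hF2]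
    rw [e4, setIntegral_const, smul_eq_mul, mul_comm]
  · have h0 : ∀ (F : (Set.Iic t → ℝ) × (ℝ≥0 → ℝ) → ℝ) w, A.indicator F (x, w) = 0 :=
      fun F w => Set.indicator_of_notMem (fun h => hx h.1) _
    simp only [h0]

end Pool.Agent.R986.CM
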