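import Mathlib
import Pool.Agent.R986.CM.Defs

/-!
# Project CM, NORM3: the Doob transform identity for the norm of a three dimensional Gaussian
-/

open MeasureTheory ProbabilityTheory Filter Topology Set
open scoped ENNReal NNReal
open Pool.Agent.R974.Span

namespace Pool.Agent.R986.CM

variable {Ω : Type*} [MeasurableSpace Ω] {P : Measure Ω} {B : ℝ≥0 → Ω → ℝ}
variable {Ω' : Type*} [MeasurableSpace Ω'] {Q : Measure Ω'} {β : Fin 3 → ℝ≥0 → Ω' → ℝ}

namespace Norm3Aux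


theorem cf (t : ℝ≥0) (s : EuclideanSpace ℝ (Fin 3)) :
    charFun ((Measure.pi fun _ : Fin 3 => gaussianReal 0 t).map (WithLp.toLp 2)) s
      = Complex.exp (-((t : ℝ) * ‖s‖ ^ 2 / 2 : ℝ)) := by
  rw [charFun_pi]
  simp_rw [charFun_gaussianReal]
  rw [← Complex.exp_sum, EuclideanSpace.real_norm_sq_eq]
  congr 1
  push_cast
  rw [Finset.mul_sum, Finset.sum_div, ← Finset.sum_neg_distrib]
  refine Finset.sum_congr rfl fun i _ => ?_
  simp

theorem rotinv (t : ℝ≥0) (f : EuclideanSpace ℝ (Fin 3) ≃ₗᵢ[ℝ] EuclideanSpace ℝ (Fin 3)) :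
    ((Measure.pi fun _ : Fin 3 => gaussianReal 0 t).map (WithLp.toLp 2)).map f =
      ((Measure.pi fun _ : Fin 3 => gaussianReal 0 t).map (WithLp.toLp 2)) := by
  set μ := (Measure.pi fun _ : Fin 3 => gaussianReal 0 t).map
    (WithLp.toLp 2 : (Fin 3 → ℝ) → EuclideanSpace ℝ (Fin 3)) with hμ
  have : IsProbabilityMeasure μ := by
    rw [hμ]
    exact Measure.isProbabilityMeasure_map (by fun_prop)
  have : IsProbabilityMeasure (μ.map f) :=
    Measure.isProbabilityMeasure_map (by fun_prop)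
  apply Measure.ext_of_charFun
  ext s
  have h1 : charFun (μ.map f) s = charFun μ (f.symm s) := by
    rw [charFun_apply, charFun_apply, integral_map (by fun_prop) (by fun_prop)]
    refine integral_congr_ae (Eventually.of_forall fun y => ?_)
    have h2 : inner ℝ (f y) s = inner ℝ y (f.symm s) := by
      have := f.inner_map_map y (f.symm s)
      rw [f.apply_symm_apply] at this
      exact this
    simp only [h2]
  rw [h1, hμ, cf, cf, LinearIsometryEquiv.norm_map]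

theorem rotate {t : ℝ≥0} (z : Fin 3 → ℝ) {x : ℝ}
    (hz : z 0 ^ 2 + z 1 ^ 2 + z 2 ^ 2 = x ^ 2) {ψ : ℝ → ℝ≥0∞} (hψ : Measurable ψ) :
    ∫⁻ g, ψ (√((z 0 + g 0) ^ 2 + (z 1 + g 1) ^ 2 + (z 2 + g 2) ^ 2))
        ∂(Measure.pi fun _ : Fin 3 => gaussianReal 0 t) =
    ∫⁻ g, ψ (√((x + g 0) ^ 2 + ((g 1) ^ 2 + (g 2) ^ 2)))
        ∂(Measure.pi fun _ : Fin 3 => gaussianReal 0 t) := by
  set P := (Measure.pi fun _ : Fin 3 => gaussianReal 0 t) with hP
  set Z : EuclideanSpace ℝ (Fin 3) := WithLp.toLp 2 z with hZ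
  set X : EuclideanSpace ℝ (Fin 3) := WithLp.toLp 2 ![x, 0, 0] with hX
  have hn : ‖Z‖ = ‖X‖ := by
    rw [← sq_eq_sq₀ (norm_nonneg _) (norm_nonneg _), EuclideanSpace.real_norm_sq_eq,
      EuclideanSpace.real_norm_sq_eq, Fin.sum_univ_three, Fin.sum_univ_three]
    simp [hZ, hX, hz]
  set R := (ℝ ∙ (Z - X))ᗮ.reflection with hR
  have hRZ : R Z = X := Submodule.reflection_sub hn
  have e1 : ∫⁻ g, ψ (√((z 0 + g 0) ^ 2 + (z 1 + g 1) ^ 2 + (z 2 + g 2) ^ 2)) ∂P =
      ∫⁻ y, ψ ‖Z + y‖ ∂(P.map (WithLp.toLp 2)) := by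
    rw [lintegral_map (by fun_prop) (by fun_prop)]
    refine lintegral_congr fun g => ?_
    rw [EuclideanSpace.norm_eq, Fin.sum_univ_three]
    simp [hZ]
  have e2 : ∫⁻ g, ψ (√((x + g 0) ^ 2 + ((g 1) ^ 2 + (g 2) ^ 2))) ∂P =
      ∫⁻ y, ψ ‖X + y‖ ∂(P.map (WithLp.toLp 2)) := by
    rw [lintegral_map (by fun_prop) (by fun_prop)]
    refine lintegral_congr fun g => ?_
    rw [EuclideanSpace.norm_eq, Fin.sum_univ_three]
    simp [hX, add_assoc]
  have e3 : ∫⁻ y, ψ ‖X + y‖ ∂((P.map (WithLp.toLp 2)).map R) =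
      ∫⁻ y, ψ ‖X + R y‖ ∂(P.map (WithLp.toLp 2)) := lintegral_map (by fun_prop) (by fun_prop)
  rw [hP, rotinv, ← hP] at e3
  rw [e1, e2, e3]
  refine lintegral_congr fun y => ?_
  rw [← hRZ, ← map_add, LinearIsometryEquiv.norm_map]



theorem split3 {t : ℝ≥0} {F : ℝ → ℝ → ℝ → ℝ≥0∞} (hF : Measurable fun p : ℝ × ℝ × ℝ => F p.1 p.2.1 p.2.2) :
    ∫⁻ g, F (g 0) (g 1) (g 2) ∂(Measure.pi fun _ : Fin 3 => gaussianReal 0 t) =
    ∫⁻ a, ∫⁻ p : ℝ × ℝ, F a p.1 p.2 ∂((gaussianReal 0 t).prod (gaussianReal 0 t))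
      ∂(gaussianReal 0 t) := by
  have h1 := measurePreserving_piFinSuccAbove (fun _ : Fin 3 => gaussianReal 0 t) 0
  have h2 := measurePreserving_finTwoArrow (gaussianReal 0 t)
  have h3 : ∫⁻ g, F (g 0) (g 1) (g 2) ∂(Measure.pi fun _ : Fin 3 => gaussianReal 0 t) =
      ∫⁻ q : ℝ × (Fin 2 → ℝ), F q.1 (q.2 0) (q.2 1)
        ∂((gaussianReal 0 t).prod (Measure.pi fun _ : Fin 2 => gaussianReal 0 t)) := by
    have := h1.lintegral_comp (f := fun q : ℝ × (Fin 2 → ℝ) => F q.1 (q.2 0) (q.2 1)) (by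
      have e : (fun q : ℝ × (Fin 2 → ℝ) => F q.1 (q.2 0) (q.2 1)) =
        (fun p : ℝ × ℝ × ℝ => F p.1 p.2.1 p.2.2) ∘ (fun q : ℝ × (Fin 2 → ℝ) =>
          (q.1, (q.2 0, q.2 1))) := rfl
      rw [e]
      exact hF.comp (by fun_prop))
    rw [← this]
    rfl
  rw [h3, lintegral_prod _ (by
      have e : (fun q : ℝ × (Fin 2 → ℝ) => F q.1 (q.2 0) (q.2 1)) =
        (fun p : ℝ × ℝ × ℝ => F p.1 p.2.1 p.2.2) ∘ (fun q : ℝ × (Fin 2 → ℝ) =>
          (q.1, (q.2 0, q.2 1))) := rfl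
      rw [e]
      exact (hF.comp (by fun_prop)).aemeasurable)]
  refine lintegral_congr fun a => ?_
  have h4 := h2.lintegral_comp (f := fun p : ℝ × ℝ => F a p.1 p.2) (by
      have e : (fun p : ℝ × ℝ => F a p.1 p.2) =
        (fun p : ℝ × ℝ × ℝ => F p.1 p.2.1 p.2.2) ∘ (fun p : ℝ × ℝ => (a, p)) := rfl
      rw [e]
      exact hF.comp (by fun_prop))
  rw [← h4]
  rfl

theorem polar {t : ℝ≥0} (ht : 0 < t) {G : ℝ → ℝ≥0∞} (hG : Measurable G) :
    ∫⁻ p : ℝ × ℝ, G (p.1 ^ 2 + p.2 ^ 2) ∂((gaussianReal 0 t).prod (gaussianReal 0 t)) =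
      ∫⁻ r in Ioi (0 : ℝ), ENNReal.ofReal (r / t * Real.exp (-r ^ 2 / (2 * t))) * G (r ^ 2) := by
  have htR : (0 : ℝ) < t := by exact_mod_cast ht
  rw [gaussianReal_of_var_ne_zero _ ht.ne', prod_withDensity (measurable_gaussianPDF _ _)
    (measurable_gaussianPDF _ _), lintegral_withDensity_eq_lintegral_mul _ (by
      exact ((measurable_gaussianPDF _ _).comp measurable_fst).mul
        ((measurable_gaussianPDF _ _).comp measurable_snd)) (by fun_prop)]
  have h1 := lintegral_comp_polarCoord_symm (fun p : ℝ × ℝ =>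
    ENNReal.ofReal (1 / (2 * Real.pi * t) * Real.exp (-(p.1 ^ 2 + p.2 ^ 2) / (2 * t)))
      * G (p.1 ^ 2 + p.2 ^ 2))
  have h2 : ∫⁻ p : ℝ × ℝ, ((fun z : ℝ × ℝ => gaussianPDF 0 t z.1 * gaussianPDF 0 t z.2) *
      fun p : ℝ × ℝ => G (p.1 ^ 2 + p.2 ^ 2)) p ∂(volume.prod volume) =
      ∫⁻ p : ℝ × ℝ, ENNReal.ofReal (1 / (2 * Real.pi * t) *
        Real.exp (-(p.1 ^ 2 + p.2 ^ 2) / (2 * t))) * G (p.1 ^ 2 + p.2 ^ 2) := by
    refine lintegral_congr fun p => ?_
    simp only [Pi.mul_apply]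
    congr 1
    rw [gaussianPDF, gaussianPDF, ← ENNReal.ofReal_mul (gaussianPDFReal_nonneg _ _ _)]
    congr 1
    rw [gaussianPDFReal, gaussianPDFReal]
    have e1 : (√(2 * Real.pi * t))⁻¹ * (√(2 * Real.pi * t))⁻¹ = 1 / (2 * Real.pi * t) := by
      rw [← mul_inv, Real.mul_self_sqrt (by positivity), one_div]
    have e2 : Real.exp (-(p.1 - 0) ^ 2 / (2 * t)) * Real.exp (-(p.2 - 0) ^ 2 / (2 * t)) =
        Real.exp (-(p.1 ^ 2 + p.2 ^ 2) / (2 * t)) := by
      rw [← Real.exp_add]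
      congr 1
      ring
    rw [← e1, ← e2]
    ring
  rw [h2, ← h1]
  have h3 : polarCoord.target = Ioi (0 : ℝ) ×ˢ Ioo (-Real.pi) Real.pi := rfl
  rw [h3, Measure.volume_eq_prod, ← Measure.prod_restrict, lintegral_prod]
  · refine lintegral_congr fun r => ?_
    have h4 : ∀ θ : ℝ, ENNReal.ofReal (r, θ).1 •
        (ENNReal.ofReal (1 / (2 * Real.pi * t) * Real.exp (-((polarCoord.symm (r, θ)).1 ^ 2 +
          (polarCoord.symm (r, θ)).2 ^ 2) / (2 * t))) *
          G ((polarCoord.symm (r, θ)).1 ^ 2 + (polarCoord.symm (r, θ)).2 ^ 2)) =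
        ENNReal.ofReal r * (ENNReal.ofReal (1 / (2 * Real.pi * t) *
          Real.exp (-(r ^ 2) / (2 * t))) * G (r ^ 2)) := by
      intro θ
      have : (polarCoord.symm (r, θ)).1 ^ 2 + (polarCoord.symm (r, θ)).2 ^ 2 = r ^ 2 := by
        rw [polarCoord_symm_apply]
        simp only
        have := Real.sin_sq_add_cos_sq θ
        calc (r * Real.cos θ) ^ 2 + (r * Real.sin θ) ^ 2
            = r ^ 2 * (Real.sin θ ^ 2 + Real.cos θ ^ 2) := by ring
          _ = r ^ 2 := by rw [this, mul_one]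
      rw [this, smul_eq_mul]
    simp_rw [h4]
    rw [lintegral_const, Measure.restrict_apply MeasurableSet.univ, univ_inter, Real.volume_Ioo]
    rcases le_or_gt r 0 with hr | hr
    · rw [ENNReal.ofReal_of_nonpos hr, zero_mul, zero_mul]
      rw [ENNReal.ofReal_of_nonpos, zero_mul]
      exact mul_nonpos_of_nonpos_of_nonneg (div_nonpos_of_nonpos_of_nonneg hr htR.le)
        (Real.exp_pos _).le
    · rw [← mul_assoc, ← ENNReal.ofReal_mul hr.le, mul_right_comm, ← ENNReal.ofReal_mul (by positivity)]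
      congr 2
      have := Real.pi_pos
      field_simp
      ring
  · apply Measurable.aemeasurable
    have : Measurable fun a : ℝ × ℝ => polarCoord.symm a := by
      have : (fun a : ℝ × ℝ => polarCoord.symm a) = fun a : ℝ × ℝ =>
        (a.1 * Real.cos a.2, a.1 * Real.sin a.2) := by
        ext a <;> simp [polarCoord_symm_apply]
      rw [this]
      fun_prop
    fun_prop



theorem subst {t : ℝ≥0} (ht : 0 < t) (u : ℝ) (ψ : ℝ → ℝ≥0∞) :
    ∫⁻ r in Ioi (0 : ℝ), ENNReal.ofReal (r / t * Real.exp (-r ^ 2 / (2 * t))) *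
        ψ (√(u ^ 2 + r ^ 2)) =
      ∫⁻ r in Ioi |u|, ENNReal.ofReal (r / t * Real.exp (-(r ^ 2 - u ^ 2) / (2 * t))) * ψ r := by
  have htR : (0 : ℝ) < t := by exact_mod_cast ht
  have himg : (fun r : ℝ => √(u ^ 2 + r ^ 2)) '' Ioi 0 = Ioi |u| := by
    ext y
    simp only [mem_image, mem_Ioi]
    constructor
    · rintro ⟨r, hr, rfl⟩
      rw [← Real.sqrt_sq_eq_abs]
      exact Real.sqrt_lt_sqrt (sq_nonneg _) (by nlinarith [sq_nonneg u, mul_pos hr hr])
    · intro hy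
      have hy0 : 0 < y := (abs_nonneg u).trans_lt hy
      have h1 : u ^ 2 < y ^ 2 := by
        rw [← sq_abs u]
        exact pow_lt_pow_left₀ hy (abs_nonneg _) two_ne_zero
      refine ⟨√(y ^ 2 - u ^ 2), Real.sqrt_pos.mpr (by linarith), ?_⟩
      rw [Real.sq_sqrt (by linarith)]
      rw [show u ^ 2 + (y ^ 2 - u ^ 2) = y ^ 2 by ring, Real.sqrt_sq hy0.le]
  have hd : ∀ r ∈ Ioi (0 : ℝ), HasDerivWithinAt (fun r : ℝ => √(u ^ 2 + r ^ 2))
      (r / √(u ^ 2 + r ^ 2)) (Ioi 0) r := by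
    intro r hr
    have hr' : 0 < r := hr
    have hp : 0 < u ^ 2 + r ^ 2 := by nlinarith [sq_nonneg u, mul_pos hr' hr']
    have h1 : HasDerivAt (fun r : ℝ => u ^ 2 + r ^ 2) (2 * r) r := by
      have := (hasDerivAt_pow 2 r).const_add (u ^ 2)
      simpa using this
    have h2 := h1.sqrt hp.ne'
    have h3 : 2 * r / (2 * √(u ^ 2 + r ^ 2)) = r / √(u ^ 2 + r ^ 2) := by
      rw [mul_div_mul_left _ _ two_ne_zero]
    rw [h3] at h2
    exact h2.hasDerivWithinAt
  have hinj : InjOn (fun r : ℝ => √(u ^ 2 + r ^ 2)) (Ioi 0) := by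
    intro a ha b hb hab
    have ha' : 0 < a := ha
    have hb' : 0 < b := hb
    simp only at hab
    rw [Real.sqrt_inj (by positivity) (by positivity)] at hab
    have : a ^ 2 = b ^ 2 := by linarith
    exact (pow_left_inj₀ ha'.le hb'.le two_ne_zero).mp this
  have h := lintegral_image_eq_lintegral_abs_deriv_mul measurableSet_Ioi hd hinj
    (fun r => ENNReal.ofReal (r / t * Real.exp (-(r ^ 2 - u ^ 2) / (2 * t))) * ψ r)
  rw [himg] at h
  rw [h]
  refine setLIntegral_congr_fun measurableSet_Ioi fun r hr => ?_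
  have hr' : 0 < r := hr
  have hp : 0 < u ^ 2 + r ^ 2 := by nlinarith [sq_nonneg u, mul_pos hr' hr']
  have hsq : 0 < √(u ^ 2 + r ^ 2) := Real.sqrt_pos.mpr hp
  rw [← mul_assoc, ← ENNReal.ofReal_mul (abs_nonneg _), abs_of_pos (div_pos hr' hsq),
    Real.sq_sqrt hp.le]
  congr 2
  rw [show -(u ^ 2 + r ^ 2 - u ^ 2) / (2 * (t : ℝ)) = -r ^ 2 / (2 * t) by ring]
  field_simp

/-- inner integral -/
theorem inner {t : ℝ≥0} (ht : 0 < t) {x r : ℝ} (hx : 0 < x) (hr : 0 < r) :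
    ∫⁻ u in Ioo (-r) r, gaussianPDF x t u *
      ENNReal.ofReal (r / t * Real.exp (-(r ^ 2 - u ^ 2) / (2 * t))) =
    ENNReal.ofReal (r / x * (gaussianPDFReal x t r - gaussianPDFReal x t (-r))) := by
  have htR : (0 : ℝ) < t := by exact_mod_cast ht
  set K : ℝ := (√(2 * Real.pi * t))⁻¹ * Real.exp (-(x ^ 2) / (2 * t)) * (r / t) *
    Real.exp (-(r ^ 2) / (2 * t)) with hK
  have hK0 : 0 ≤ K := by positivity
  have h1 : ∀ u : ℝ, gaussianPDF x t u *
      ENNReal.ofReal (r / t * Real.exp (-(r ^ 2 - u ^ 2) / (2 * t))) =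
      ENNReal.ofReal (K * Real.exp (x / t * u)) := by
    intro u
    rw [gaussianPDF, ← ENNReal.ofReal_mul (gaussianPDFReal_nonneg _ _ _)]
    congr 1
    rw [gaussianPDFReal, hK]
    have e1 : Real.exp (-(u - x) ^ 2 / (2 * t)) * Real.exp (-(r ^ 2 - u ^ 2) / (2 * t)) =
        Real.exp (-(x ^ 2) / (2 * t)) * Real.exp (-(r ^ 2) / (2 * t)) * Real.exp (x / t * u) := by
      rw [← Real.exp_add, ← Real.exp_add, ← Real.exp_add]
      congr 1
      field_simp
      ring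
    calc (√(2 * Real.pi * t))⁻¹ * Real.exp (-(u - x) ^ 2 / (2 * t)) *
          (r / t * Real.exp (-(r ^ 2 - u ^ 2) / (2 * t)))
        = (√(2 * Real.pi * t))⁻¹ * (r / t) * (Real.exp (-(u - x) ^ 2 / (2 * t)) *
            Real.exp (-(r ^ 2 - u ^ 2) / (2 * t))) := by ring
      _ = _ := by rw [e1]; ring
  simp_rw [h1]
  have hcont : Continuous fun u : ℝ => K * Real.exp (x / t * u) := by fun_prop
  rw [← ofReal_integral_eq_lintegral_ofReal]
  rotate_left
  · exact (hcont.integrableOn_Icc (a := -r) (b := r)).mono_set Ioo_subset_Icc_self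
  · exact Eventually.of_forall fun u => mul_nonneg hK0 (Real.exp_pos _).le
  congr 1
  rw [← integral_Ioc_eq_integral_Ioo, ← intervalIntegral.integral_of_le (by linarith)]
  have hder : ∀ u ∈ uIcc (-r) r, HasDerivAt (fun u : ℝ => K * (t / x) * Real.exp (x / t * u))
      (K * Real.exp (x / t * u)) u := by
    intro u _
    have h2 : HasDerivAt (fun u : ℝ => x / t * u) (x / t) u := by
      simpa using (hasDerivAt_id u).const_mul (x / (t : ℝ))
    have h3 := (h2.exp).const_mul (K * (t / x))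
    have h4 : K * (t / x) * (Real.exp (x / t * u) * (x / t)) = K * Real.exp (x / t * u) := by
      field_simp
    rw [h4] at h3
    exact h3
  rw [intervalIntegral.integral_eq_sub_of_hasDerivAt hder (hcont.intervalIntegrable _ _)]
  rw [gaussianPDFReal, gaussianPDFReal, hK]
  have e1 : Real.exp (-(r - x) ^ 2 / (2 * t)) =
      Real.exp (-(x ^ 2) / (2 * t)) * Real.exp (-(r ^ 2) / (2 * t)) * Real.exp (x / t * r) := by
    rw [← Real.exp_add, ← Real.exp_add]
    congr 1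
    field_simp
    ring
  have e2 : Real.exp (-(-r - x) ^ 2 / (2 * t)) =
      Real.exp (-(x ^ 2) / (2 * t)) * Real.exp (-(r ^ 2) / (2 * t)) *
        Real.exp (x / t * -r) := by
    rw [← Real.exp_add, ← Real.exp_add]
    congr 1
    field_simp
    ring
  rw [e1, e2]
  field_simp



theorem tonelli {t : ℝ≥0} (ht : 0 < t) {x : ℝ} (hx : 0 < x) {ψ : ℝ → ℝ≥0∞}
    (hψ : Measurable ψ) :
    ∫⁻ u, (∫⁻ r in Ioi |u|, ENNReal.ofReal (r / t * Real.exp (-(r ^ 2 - u ^ 2) / (2 * t))) * ψ r)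
      ∂(gaussianReal x t) =
    ∫⁻ r in Ioi (0 : ℝ), ENNReal.ofReal (r / x * (gaussianPDFReal x t r -
      gaussianPDFReal x t (-r))) * ψ r := by
  set k : ℝ → ℝ → ℝ≥0∞ := fun u r =>
    ENNReal.ofReal (r / t * Real.exp (-(r ^ 2 - u ^ 2) / (2 * t))) * ψ r with hk
  have hkm : Measurable fun p : ℝ × ℝ => k p.1 p.2 := by
    simp only [hk]
    fun_prop
  have hset : MeasurableSet {p : ℝ × ℝ | |p.1| < p.2} :=
    measurableSet_lt (by fun_prop) (by fun_prop)
  have h1 : ∀ u : ℝ, ∫⁻ r in Ioi |u|, k u r =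
      ∫⁻ r, {p : ℝ × ℝ | |p.1| < p.2}.indicator (fun p => k p.1 p.2) (u, r) := by
    intro u
    rw [← lintegral_indicator measurableSet_Ioi]
    refine lintegral_congr fun r => ?_
    by_cases h : |u| < r
    · rw [indicator_of_mem (show r ∈ Ioi |u| from h), indicator_of_mem (show (u, r) ∈ {p : ℝ × ℝ | |p.1| < p.2} from h)]
    · rw [indicator_of_notMem (show r ∉ Ioi |u| from h), indicator_of_notMem (show (u, r) ∉ {p : ℝ × ℝ | |p.1| < p.2} from h)]
  have hIm : Measurable ({p : ℝ × ℝ | |p.1| < p.2}.indicator (fun p => k p.1 p.2)) :=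
    hkm.indicator hset
  refine (lintegral_congr h1).trans ?_
  rw [gaussianReal_of_var_ne_zero _ ht.ne', lintegral_withDensity_eq_lintegral_mul _
    (measurable_gaussianPDF _ _) (by
      exact Measurable.lintegral_prod_right' hIm)]
  have h2 : ∀ u : ℝ, (gaussianPDF x t * fun u => ∫⁻ r, {p : ℝ × ℝ | |p.1| < p.2}.indicator
      (fun p => k p.1 p.2) (u, r)) u = ∫⁻ r, gaussianPDF x t u *
        {p : ℝ × ℝ | |p.1| < p.2}.indicator (fun p => k p.1 p.2) (u, r) := by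
    intro u
    rw [Pi.mul_apply, lintegral_const_mul]
    exact hIm.comp measurable_prodMk_left
  simp_rw [h2]
  rw [lintegral_lintegral_swap]
  swap
  · exact (((measurable_gaussianPDF x t).comp measurable_fst).mul hIm).aemeasurable
  rw [← lintegral_indicator measurableSet_Ioi]
  refine lintegral_congr fun r => ?_
  by_cases hr : 0 < r
  · rw [indicator_of_mem (show r ∈ Ioi (0 : ℝ) from hr), ← inner ht hx hr,
      ← lintegral_mul_const _ (by
        have := measurable_gaussianPDF x t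
        fun_prop), ← lintegral_indicator measurableSet_Ioo]
    refine lintegral_congr fun u => ?_
    by_cases h : |u| < r
    · rw [indicator_of_mem (show u ∈ Ioo (-r) r from abs_lt.mp h),
        indicator_of_mem (show (u, r) ∈ {p : ℝ × ℝ | |p.1| < p.2} from h)]
      simp only [hk]
      rw [mul_assoc]
    · rw [indicator_of_notMem (show u ∉ Ioo (-r) r from fun h' => h (abs_lt.mpr h')),
        indicator_of_notMem (show (u, r) ∉ {p : ℝ × ℝ | |p.1| < p.2} from h), mul_zero]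
  · rw [indicator_of_notMem (show r ∉ Ioi (0 : ℝ) from hr)]
    rw [lintegral_eq_zero_iff']
    · refine Eventually.of_forall fun u => ?_
      beta_reduce
      rw [indicator_of_notMem (show (u, r) ∉ {p : ℝ × ℝ | |p.1| < p.2} from fun h' =>
        hr ((abs_nonneg u).trans_lt h')), mul_zero]
      rfl
    · exact ((measurable_gaussianPDF x t).mul (hIm.comp measurable_prodMk_right)).aemeasurable

/-- the positive half -/
theorem pos {t : ℝ≥0} (ht : 0 < t) (x : ℝ) {ψ : ℝ → ℝ≥0∞}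
    (hψ : Measurable ψ) :
    ∫⁻ y in Set.Ioi 0, ENNReal.ofReal y * ψ y ∂(gaussianReal x t) =
    ∫⁻ r in Ioi (0 : ℝ), ENNReal.ofReal (r * gaussianPDFReal x t r) * ψ r := by
  rw [gaussianReal_of_var_ne_zero _ ht.ne', restrict_withDensity measurableSet_Ioi,
    lintegral_withDensity_eq_lintegral_mul _ (measurable_gaussianPDF _ _) (by fun_prop)]
  refine setLIntegral_congr_fun measurableSet_Ioi fun r hr => ?_
  have hr' : 0 < r := hr
  simp only [Pi.mul_apply]
  rw [gaussianPDF, ENNReal.ofReal_mul hr'.le]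
  ring

/-- the negative half -/
theorem neg {t : ℝ≥0} (ht : 0 < t) (x : ℝ) {ψ : ℝ → ℝ≥0∞}
    (hψ : Measurable ψ) :
    ∫⁻ y in Set.Iio 0, ENNReal.ofReal (-y) * ψ (-y) ∂(gaussianReal x t) =
    ∫⁻ r in Ioi (0 : ℝ), ENNReal.ofReal (r * gaussianPDFReal x t (-r)) * ψ r := by
  rw [gaussianReal_of_var_ne_zero _ ht.ne', restrict_withDensity measurableSet_Iio,
    lintegral_withDensity_eq_lintegral_mul _ (measurable_gaussianPDF _ _) (by fun_prop)]
  have h := (Measure.measurePreserving_neg (volume : Measure ℝ)).setLIntegral_comp_preimage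
    (measurableSet_Iio (a := (0 : ℝ)))
    (f := gaussianPDF x t * fun y => ENNReal.ofReal (-y) * ψ (-y))
    ((measurable_gaussianPDF _ _).mul (by fun_prop))
  rw [← h]
  have hpre : (fun a : ℝ => -a) ⁻¹' Iio 0 = Ioi 0 := by
    ext a
    simp
  rw [hpre]
  refine setLIntegral_congr_fun measurableSet_Ioi fun r hr => ?_
  have hr' : 0 < r := hr
  simp only [Pi.mul_apply, neg_neg]
  rw [gaussianPDF, ENNReal.ofReal_mul hr'.le]
  ring

theorem final {t : ℝ≥0} (ht : 0 < t) {x : ℝ} (hx : 0 < x) {ψ : ℝ → ℝ≥0∞}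
    (hψ : Measurable ψ) :
    ENNReal.ofReal x * (∫⁻ r in Ioi (0 : ℝ), ENNReal.ofReal (r / x * (gaussianPDFReal x t r -
      gaussianPDFReal x t (-r))) * ψ r) +
      ∫⁻ r in Ioi (0 : ℝ), ENNReal.ofReal (r * gaussianPDFReal x t (-r)) * ψ r =
    ∫⁻ r in Ioi (0 : ℝ), ENNReal.ofReal (r * gaussianPDFReal x t r) * ψ r := by
  have htR : (0 : ℝ) < t := by exact_mod_cast ht
  have hm := measurable_gaussianPDFReal x t
  rw [← lintegral_const_mul _ (by fun_prop), ← lintegral_add_left (by fun_prop)]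
  refine setLIntegral_congr_fun measurableSet_Ioi fun r hr => ?_
  have hr' : 0 < r := hr
  have hle : gaussianPDFReal x t (-r) ≤ gaussianPDFReal x t r := by
    rw [gaussianPDFReal, gaussianPDFReal]
    apply mul_le_mul_of_nonneg_left _ (by positivity)
    rw [Real.exp_le_exp, div_le_div_iff_of_pos_right (by positivity)]
    nlinarith [mul_pos hr' hx]
  rw [← mul_assoc, ← ENNReal.ofReal_mul hx.le, ← add_mul, ← ENNReal.ofReal_add]
  · congr 2
    field_simp
    ring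
  · apply mul_nonneg hx.le
    exact mul_nonneg (by positivity) (sub_nonneg.mpr hle)
  · exact mul_nonneg hr'.le (gaussianPDFReal_nonneg _ _ _)


end Norm3Aux

/-- NORM3 -/
theorem norm3 {t : ℝ≥0} (ht : 0 < t) (z : Fin 3 → ℝ) {x : ℝ} (hx : 0 < x)
    (hz : z 0 ^ 2 + z 1 ^ 2 + z 2 ^ 2 = x ^ 2) {ψ : ℝ → ℝ≥0∞} (hψ : Measurable ψ) :
    ENNReal.ofReal x * ∫⁻ g, ψ (√((z 0 + g 0) ^ 2 + (z 1 + g 1) ^ 2 + (z 2 + g 2) ^ 2))
        ∂(Measure.pi fun _ : Fin 3 => gaussianReal 0 t) +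
      ∫⁻ y in Set.Iio 0, ENNReal.ofReal (-y) * ψ (-y) ∂(gaussianReal x t) =
      ∫⁻ y in Set.Ioi 0, ENNReal.ofReal y * ψ y ∂(gaussianReal x t) := by
  have h1 := Norm3Aux.rotate (t := t) z hz hψ
  have h2 := Norm3Aux.split3 (t := t)
    (F := fun a b c => ψ (√((x + a) ^ 2 + (b ^ 2 + c ^ 2)))) (by fun_prop)
  have h3 : ∀ a : ℝ, ∫⁻ p : ℝ × ℝ, ψ (√((x + a) ^ 2 + (p.1 ^ 2 + p.2 ^ 2)))
      ∂((gaussianReal 0 t).prod (gaussianReal 0 t)) =
      ∫⁻ r in Ioi |x + a|, ENNReal.ofReal (r / t *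
        Real.exp (-(r ^ 2 - (x + a) ^ 2) / (2 * t))) * ψ r := fun a => by
    rw [Norm3Aux.polar ht (G := fun v => ψ (√((x + a) ^ 2 + v))) (by fun_prop),
      Norm3Aux.subst ht (x + a) ψ]
  have hmap : gaussianReal x t = (gaussianReal 0 t).map (fun a => x + a) := by
    rw [gaussianReal_map_const_add, zero_add]
  have h4 : ∫⁻ a, (∫⁻ r in Ioi |x + a|, ENNReal.ofReal (r / t *
        Real.exp (-(r ^ 2 - (x + a) ^ 2) / (2 * t))) * ψ r) ∂(gaussianReal 0 t) =
      ∫⁻ u, (∫⁻ r in Ioi |u|, ENNReal.ofReal (r / t *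
        Real.exp (-(r ^ 2 - u ^ 2) / (2 * t))) * ψ r) ∂(gaussianReal x t) := by
    rw [hmap]
    exact ((MeasurableEquiv.addLeft x).measurableEmbedding.lintegral_map
      (μ := gaussianReal 0 t) (f := fun u => ∫⁻ r in Ioi |u|, ENNReal.ofReal (r / t *
        Real.exp (-(r ^ 2 - u ^ 2) / (2 * t))) * ψ r)).symm
  rw [h1, h2]
  simp_rw [h3]
  rw [h4, Norm3Aux.tonelli ht hx hψ, Norm3Aux.neg ht x hψ, Norm3Aux.pos ht x hψ]
  exact Norm3Aux.final ht hx hψ

end Pool.Agent.R986.CM
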