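import Pool.Agent.R986.CM.Defs

/-!
# CM-REFL (helper718): the reflection principle
-/

open MeasureTheory ProbabilityTheory Filter Topology Set
open scoped ENNReal NNReal

namespace Pool.Agent.R986.CM

open Pool.Agent.R974.Span

variable {Ω : Type*} [MeasurableSpace Ω] {P : Measure Ω} {B : ℝ≥0 → Ω → ℝ}

namespace ReflP

theorem swap (hB : GBM B P) {c t : ℝ≥0} (hct : c ≤ t) {C : Set ((Set.Iic c → ℝ) × ℝ)}
    (hC : MeasurableSet C) :
    P {ω | ((fun s : Set.Iic c => B s ω), B t ω - B c ω) ∈ C} =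
      P {ω | ((fun s : Set.Iic c => B s ω), -(B t ω - B c ω)) ∈ C} := by
  have := hB.prob
  set Z : Ω → (Set.Iic c → ℝ) := fun ω s => B s ω with hZ
  set D : Ω → ℝ := fun ω => B t ω - B c ω with hD
  have hZm : Measurable Z := measurable_pi_lambda _ fun s => hB.meas s
  have hDm : Measurable D := (hB.meas t).sub (hB.meas c)
  have hDm' : Measurable (fun ω => - D ω) := hDm.neg
  have hind : IndepFun Z D P := by
    have h1 := (hB.pre.indepFun_shift c).symm
    have hφ : Measurable (fun g : (ℝ≥0 → ℝ) => g (t - c)) := measurable_pi_apply _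
    have h2 := h1.comp measurable_id hφ
    have h3 : ((fun g : (ℝ≥0 → ℝ) => g (t - c)) ∘ fun ω s => B (c + s) ω - B c ω) = D := by
      funext ω
      show B (c + (t - c)) ω - B c ω = _
      rw [add_tsub_cancel_of_le hct]
    rw [h3] at h2
    exact h2
  have hDlaw : P.map D = gaussianReal 0 (t - c) := by
    have h : P.map (fun ω => B (c + (t - c)) ω - B c ω) = gaussianReal 0 (t - c) :=
      ((hB.shift c).pre.hasLaw_eval (t - c)).map_eq
    have h3 : (fun ω => B (c + (t - c)) ω - B c ω) = D := by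
      funext ω
      rw [add_tsub_cancel_of_le hct]
    rwa [h3] at h
  have hneg : P.map (fun ω => - D ω) = P.map D := by
    have h4 : P.map (fun ω => - D ω) = (P.map D).map (fun y => -y) := by
      rw [Measure.map_map measurable_neg hDm]
      rfl
    rw [h4, hDlaw, gaussianReal_map_neg, neg_zero]
  have h1 := (indepFun_iff_map_prod_eq_prod_map_map hZm.aemeasurable hDm.aemeasurable).1 hind
  have hind2 : IndepFun Z (fun ω => - D ω) P := hind.comp measurable_id measurable_neg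
  have h2 := (indepFun_iff_map_prod_eq_prod_map_map hZm.aemeasurable hDm'.aemeasurable).1 hind2
  have e1 : P {ω | (Z ω, D ω) ∈ C} = P.map (fun ω => (Z ω, D ω)) C :=
    (Measure.map_apply (hZm.prodMk hDm) hC).symm
  have e2 : P {ω | (Z ω, - D ω) ∈ C} = P.map (fun ω => (Z ω, - D ω)) C :=
    (Measure.map_apply (hZm.prodMk hDm') hC).symm
  rw [e1, e2, h1, h2, hneg]

/-- first passage at the index `k` -/
def T (B : ℝ≥0 → Ω → ℝ) (x : ℝ) (r : ℕ → ℝ≥0) (k : ℕ) : Set Ω :=
  {ω | (∀ j < k, 0 < x + B (r j) ω) ∧ x + B (r k) ω ≤ 0}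

theorem T_meas (hB : GBM B P) (x : ℝ) (r : ℕ → ℝ≥0) (k : ℕ) : MeasurableSet (T B x r k) := by
  have h1 : MeasurableSet {ω | ∀ j < k, 0 < x + B (r j) ω} := by
    have : {ω | ∀ j < k, 0 < x + B (r j) ω} = ⋂ j, ⋂ (_ : j < k), {ω | 0 < x + B (r j) ω} := by
      ext ω
      simp
    rw [this]
    exact MeasurableSet.iInter fun j => MeasurableSet.iInter fun _ =>
      measurableSet_lt measurable_const ((hB.meas _).const_add x)
  exact h1.inter (measurableSet_le ((hB.meas _).const_add x) measurable_const)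

omit [MeasurableSpace Ω] in
theorem T_disj (x : ℝ) (r : ℕ → ℝ≥0) (s : Set ℕ) : s.PairwiseDisjoint (T B x r) := by
  intro k _ l _ hkl
  rw [Function.onFun, Set.disjoint_left]
  intro ω h1 h2
  rcases lt_trichotomy k l with h | h | h
  · have := h2.1 k h
    linarith [h1.2]
  · exact hkl h
  · have := h1.1 l h
    linarith [h2.2]

omit [MeasurableSpace Ω] in
theorem T_exists {x : ℝ} {r : ℕ → ℝ≥0} {N : ℕ} {ω : Ω} (h : ∃ k ≤ N, x + B (r k) ω ≤ 0) :
    ∃ k ≤ N, ω ∈ T B x r k := by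
  classical
  obtain ⟨k, hk, hk2⟩ := h
  have hex : ∃ k, x + B (r k) ω ≤ 0 := ⟨k, hk2⟩
  exact ⟨Nat.find hex, (Nat.find_min' hex hk2).trans hk,
    fun j hj => not_le.1 (Nat.find_min hex hj), Nat.find_spec hex⟩

theorem grid (hB : GBM B P) {x : ℝ} {t : ℝ≥0} {N : ℕ} {r : ℕ → ℝ≥0} (hr : Monotone r)
    (hrN : r N = t) (a : ℝ) :
    P {ω | (∃ k ≤ N, x + B (r k) ω ≤ 0) ∧ a < x + B t ω} =
      P {ω | ∃ k ≤ N, ω ∈ T B x r k ∧ x + B t ω < 2 * (x + B (r k) ω) - a} := by
  have hX : Measurable (fun ω => x + B t ω) := (hB.meas t).const_add x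
  have e1 : {ω | (∃ k ≤ N, x + B (r k) ω ≤ 0) ∧ a < x + B t ω} =
      ⋃ k ∈ Finset.range (N + 1), (T B x r k ∩ {ω | a < x + B t ω}) := by
    ext ω
    simp only [Set.mem_ofPred_eq, Set.mem_iUnion, Finset.mem_range, exists_prop]
    constructor
    · rintro ⟨h1, h2⟩
      obtain ⟨k, hk, hkT⟩ := T_exists h1
      exact ⟨k, by omega, hkT, h2⟩
    · rintro ⟨k, hk, h1, h2⟩
      exact ⟨⟨k, by omega, h1.2⟩, h2⟩
  have e2 : {ω | ∃ k ≤ N, ω ∈ T B x r k ∧ x + B t ω < 2 * (x + B (r k) ω) - a} =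
      ⋃ k ∈ Finset.range (N + 1), (T B x r k ∩ {ω | x + B t ω < 2 * (x + B (r k) ω) - a}) := by
    ext ω
    simp only [Set.mem_ofPred_eq, Set.mem_iUnion, Finset.mem_range, exists_prop]
    constructor
    · rintro ⟨k, hk, h1, h2⟩
      exact ⟨k, by omega, h1, h2⟩
    · rintro ⟨k, hk, h1, h2⟩
      exact ⟨k, by omega, h1, h2⟩
  rw [e1, e2, measure_biUnion_finset, measure_biUnion_finset]
  · refine Finset.sum_congr rfl fun k hk => ?_
    have hk' : k ≤ N := by
      have := Finset.mem_range.1 hk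
      omega
    have hrk : r k ≤ t := hrN ▸ hr hk'
    set C : Set ((Set.Iic (r k) → ℝ) × ℝ) := {p | (∀ j, ∀ hj : j < k,
      0 < x + p.1 ⟨r j, Set.mem_Iic.2 (hr hj.le)⟩) ∧ x + p.1 ⟨r k, Set.mem_Iic.2 le_rfl⟩ ≤ 0 ∧
        a < x + p.1 ⟨r k, Set.mem_Iic.2 le_rfl⟩ + p.2} with hC
    have hev : ∀ u : Set.Iic (r k), Measurable (fun p : (Set.Iic (r k) → ℝ) × ℝ => x + p.1 u) :=
      fun u => by
        have h : Measurable (fun p : (Set.Iic (r k) → ℝ) × ℝ => p.1 u) := by fun_prop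
        exact h.const_add x
    have hCm : MeasurableSet C := by
      have h1 : MeasurableSet {p : (Set.Iic (r k) → ℝ) × ℝ | ∀ j, ∀ hj : j < k,
          0 < x + p.1 ⟨r j, Set.mem_Iic.2 (hr hj.le)⟩} := by
        have : {p : (Set.Iic (r k) → ℝ) × ℝ | ∀ j, ∀ hj : j < k,
            0 < x + p.1 ⟨r j, Set.mem_Iic.2 (hr hj.le)⟩} = ⋂ j, ⋂ (hj : j < k),
              {p : (Set.Iic (r k) → ℝ) × ℝ | 0 < x + p.1 ⟨r j, Set.mem_Iic.2 (hr hj.le)⟩} := by
          ext p
          simp
        rw [this]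
        exact MeasurableSet.iInter fun j => MeasurableSet.iInter fun hj =>
          measurableSet_lt measurable_const (hev _)
      have h2 : MeasurableSet {p : (Set.Iic (r k) → ℝ) × ℝ | x + p.1 ⟨r k, Set.mem_Iic.2 le_rfl⟩ ≤ 0} :=
        measurableSet_le (hev _) measurable_const
      have h3 : MeasurableSet {p : (Set.Iic (r k) → ℝ) × ℝ |
          a < x + p.1 ⟨r k, Set.mem_Iic.2 le_rfl⟩ + p.2} :=
        measurableSet_lt measurable_const ((hev _).add measurable_snd)
      exact h1.inter (h2.inter h3)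
    have hsw := swap hB hrk hCm
    have f1 : {ω | ((fun s : Set.Iic (r k) => B s ω), B t ω - B (r k) ω) ∈ C} =
        T B x r k ∩ {ω | a < x + B t ω} := by
      ext ω
      constructor
      · rintro ⟨h1, h2, h3⟩
        refine ⟨⟨h1, h2⟩, ?_⟩
        have h3' : a < x + B (r k) ω + (B t ω - B (r k) ω) := h3
        show a < x + B t ω
        linarith
      · rintro ⟨⟨h1, h2⟩, h3⟩
        refine ⟨h1, h2, ?_⟩
        have h3' : a < x + B t ω := h3
        show a < x + B (r k) ω + (B t ω - B (r k) ω)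
        linarith
    have f2 : {ω | ((fun s : Set.Iic (r k) => B s ω), -(B t ω - B (r k) ω)) ∈ C} =
        T B x r k ∩ {ω | x + B t ω < 2 * (x + B (r k) ω) - a} := by
      ext ω
      constructor
      · rintro ⟨h1, h2, h3⟩
        refine ⟨⟨h1, h2⟩, ?_⟩
        have h3' : a < x + B (r k) ω + -(B t ω - B (r k) ω) := h3
        show x + B t ω < 2 * (x + B (r k) ω) - a
        linarith
      · rintro ⟨⟨h1, h2⟩, h3⟩
        refine ⟨h1, h2, ?_⟩
        have h3' : x + B t ω < 2 * (x + B (r k) ω) - a := h3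
        show a < x + B (r k) ω + -(B t ω - B (r k) ω)
        linarith
    rw [f1, f2] at hsw
    exact hsw
  · intro k hk l hl hkl
    exact (T_disj x r (Set.univ) (mem_univ k) (mem_univ l) hkl).mono inter_subset_left
      inter_subset_left
  · intro k _
    exact (T_meas hB x r k).inter (measurableSet_lt hX
      ((((hB.meas _).const_add x).const_mul 2).sub_const a))
  · intro k hk l hl hkl
    exact (T_disj x r (Set.univ) (mem_univ k) (mem_univ l) hkl).mono inter_subset_left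
      inter_subset_left
  · intro k _
    exact (T_meas hB x r k).inter (measurableSet_lt measurable_const hX)

/-- the grid -/
noncomputable def rr (t : ℝ≥0) (n k : ℕ) : ℝ≥0 := (k : ℝ≥0) / (n + 1 : ℕ) * t

theorem rr_mono (t : ℝ≥0) (n : ℕ) : Monotone (rr t n) := by
  intro a b hab
  unfold rr
  have : (a : ℝ≥0) ≤ b := by exact_mod_cast hab
  gcongr

theorem rr_last (t : ℝ≥0) (n : ℕ) : rr t n (n + 1) = t := by
  unfold rr
  rw [div_self (by positivity), one_mul]

theorem rr_zero (t : ℝ≥0) (n : ℕ) : rr t n 0 = 0 := by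
  unfold rr
  simp

theorem rr_coe (t : ℝ≥0) (n k : ℕ) : ((rr t n k : ℝ≥0) : ℝ) = (k : ℝ) / ((n : ℝ) + 1) * t := by
  unfold rr
  push_cast
  rfl

theorem small (t : ℝ≥0) {δ : ℝ} (hδ : 0 < δ) : ∀ᶠ n : ℕ in atTop, (t : ℝ) / ((n : ℝ) + 1) < δ := by
  obtain ⟨m, hm⟩ := exists_nat_gt ((t : ℝ) / δ)
  filter_upwards [eventually_ge_atTop m] with n hn
  have h1 : (m : ℝ) ≤ n := by exact_mod_cast hn
  have h2 : (0 : ℝ) < (n : ℝ) + 1 := by positivity
  rw [div_lt_iff₀ h2]
  rw [div_lt_iff₀ hδ] at hm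
  nlinarith

theorem near {t : ℝ≥0} (ht : 0 < t) {s : ℝ≥0} (hs : s ≤ t) (n : ℕ) :
    ∃ k ≤ n + 1, |((rr t n k : ℝ≥0) : ℝ) - s| ≤ (t : ℝ) / ((n : ℝ) + 1) := by
  have ht' : (0 : ℝ) < t := by exact_mod_cast ht
  have hs' : (s : ℝ) ≤ t := by exact_mod_cast hs
  have hs0 : (0 : ℝ) ≤ s := s.2
  have hn : (0 : ℝ) < (n : ℝ) + 1 := by positivity
  set y : ℝ := (s : ℝ) / t * (n + 1) with hy
  have hy0 : 0 ≤ y := by positivity
  have hyn : y ≤ n + 1 := by
    have : (s : ℝ) / t ≤ 1 := by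
      rw [div_le_one ht']
      exact hs'
    calc y ≤ 1 * (n + 1) := mul_le_mul_of_nonneg_right this hn.le
      _ = n + 1 := one_mul _
  have h1 := Nat.floor_le hy0
  have h2 := Nat.lt_floor_add_one y
  refine ⟨⌊y⌋₊, ?_, ?_⟩
  · have : ((⌊y⌋₊ : ℕ) : ℝ) ≤ ((n + 1 : ℕ) : ℝ) := by
      push_cast
      linarith
    exact_mod_cast this
  · rw [rr_coe]
    have hsy : (s : ℝ) = y / (n + 1) * t := by
      rw [hy]
      field_simp
    have e : ((⌊y⌋₊ : ℕ) : ℝ) / ((n : ℝ) + 1) * t - s = -((y - ⌊y⌋₊) * (t / ((n : ℝ) + 1))) := by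
      rw [hsy]
      field_simp
      ring
    rw [e, abs_neg, abs_of_nonneg (by
      apply mul_nonneg
      · linarith
      · positivity)]
    have h3 : 0 ≤ (t : ℝ) / ((n : ℝ) + 1) := by positivity
    nlinarith

theorem stay_iff (hB : GBM B P) {x : ℝ} {t : ℝ≥0} (ω : Ω) :
    (∀ s ≤ t, 0 < x + B s ω) ↔ mx (fun s => -B s ω) 0 t < x := by
  have hc : Continuous (fun s => -B s ω) := (hB.cont ω).neg
  constructor
  · intro h
    obtain ⟨s0, hs0, hmax⟩ := (isCompact_Icc (a := (0 : ℝ≥0)) (b := t)).exists_isMaxOn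
      ⟨0, le_refl _, zero_le⟩ hc.continuousOn
    have h1 : mx (fun s => -B s ω) 0 t ≤ -B s0 ω :=
      mx_le zero_le fun s h1 h2 => hmax (show s ∈ Icc 0 t from ⟨h1, h2⟩)
    have h2 := h s0 hs0.2
    linarith
  · intro h s hs
    have h1 : -B s ω ≤ mx (fun s => -B s ω) 0 t :=
      le_mx hc (a := 0) (b := t) (s := s) zero_le hs
    linarith

theorem stay_meas (hB : GBM B P) (x : ℝ) (t : ℝ≥0) :
    MeasurableSet {ω | ∀ s ≤ t, 0 < x + B s ω} := by
  have e : {ω | ∀ s ≤ t, 0 < x + B s ω} = {ω | mx (fun s => -B s ω) 0 t < x} := by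
    ext ω
    exact stay_iff hB ω
  rw [e]
  have hm : Measurable (fun ω => mx (fun s => -B s ω) 0 t) :=
    (measurable_mx 0 t).comp (measurable_pi_lambda _ fun s => (hB.meas s).neg)
  exact measurableSet_lt hm measurable_const

/-- almost surely, if the path reaches `≤ 0` then it becomes negative -/
theorem ae_neg (hB : GBM B P) {x : ℝ} (hx : 0 < x) {t : ℝ≥0} :
    ∀ᵐ ω ∂P, (∃ s ≤ t, x + B s ω ≤ 0) → ∃ s ≤ t, x + B s ω < 0 := by
  have h0 : ∀ n : ℕ, ∀ᵐ ω ∂P, mx (fun s => -B s ω) (min (1 / ((n : ℝ≥0) + 1)) t) t = x → t = 0 := by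
    intro n
    by_cases ht : t = 0
    · exact Eventually.of_forall fun ω _ => ht
    · have ht' : 0 < t := pos_iff_ne_zero.2 ht
      have h1 := mx_noatom hB.neg (c := min (1 / ((n : ℝ≥0) + 1)) t) (e := t)
        (lt_min (by positivity) ht') (min_le_right _ _) x
      rw [ae_iff]
      refine measure_mono_null ?_ h1
      intro ω hω
      have hω' : ¬ (mx (fun s => -B s ω) (min (1 / ((n : ℝ≥0) + 1)) t) t = x → t = 0) := hω
      push Not at hω'
      exact hω'.1
  have h1 := ae_all_iff.2 h0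
  filter_upwards [h1] with ω hω
  rintro ⟨s, hs, hs2⟩
  by_contra hcon
  push Not at hcon
  have hs0 : 0 < s := by
    rcases eq_or_ne s 0 with h | h
    · exfalso
      rw [h, hB.zero] at hs2
      linarith
    · exact pos_iff_ne_zero.2 h
  have hs0' : (0 : ℝ) < s := by exact_mod_cast hs0
  obtain ⟨n, hn⟩ := exists_nat_one_div_lt hs0'
  have hcs : min (1 / ((n : ℝ≥0) + 1)) t ≤ s := by
    refine (min_le_left _ _).trans ?_
    rw [← NNReal.coe_le_coe]
    push_cast
    exact hn.le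
  have hc : Continuous (fun s => -B s ω) := (hB.cont ω).neg
  have hmx : mx (fun s => -B s ω) (min (1 / ((n : ℝ≥0) + 1)) t) t = x := by
    apply le_antisymm
    · refine mx_le (min_le_right _ _) fun u _ hu => ?_
      have := hcon u hu
      linarith
    · have := le_mx hc hcs hs
      have h2 : x ≤ -B s ω := by linarith
      exact h2.trans this
  have ht0 := hω n hmx
  rw [ht0] at hs
  exact absurd (lt_of_lt_of_le hs0 hs) (lt_irrefl _)

theorem event (hB : GBM B P) {x : ℝ} (hx : 0 < x) {t : ℝ≥0} (ht : 0 < t) {a : ℝ} (ha : 0 ≤ a) :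
    P ({ω | a < x + B t ω} \ {ω | ∀ s ≤ t, 0 < x + B s ω}) = P {ω | x + B t ω < -a} := by
  have := hB.prob
  have hX : Measurable (fun ω => x + B t ω) := (hB.meas t).const_add x
  set E : ℕ → Set Ω := fun n => {ω | (∃ k ≤ n + 1, x + B (rr t n k) ω ≤ 0) ∧ a < x + B t ω} with hE
  set F : ℕ → Set Ω := fun n => {ω | ∃ k ≤ n + 1, ω ∈ T B x (rr t n) k ∧
    x + B t ω < 2 * (x + B (rr t n k) ω) - a} with hF
  have hEF : ∀ n, P (E n) = P (F n) := fun n => grid hB (rr_mono t n) (rr_last t n) a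
  have hEm : ∀ n, MeasurableSet (E n) := by
    intro n
    have e : E n = (⋃ k, ⋃ (_ : k ≤ n + 1), {ω | x + B (rr t n k) ω ≤ 0}) ∩
        {ω | a < x + B t ω} := by
      ext ω
      simp [hE]
    rw [e]
    exact (MeasurableSet.iUnion fun k => MeasurableSet.iUnion fun _ =>
      measurableSet_le ((hB.meas _).const_add x) measurable_const).inter
        (measurableSet_lt measurable_const hX)
  have hFm : ∀ n, MeasurableSet (F n) := by
    intro n
    have e : F n = ⋃ k, ⋃ (_ : k ≤ n + 1), (T B x (rr t n) k ∩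
        {ω | x + B t ω < 2 * (x + B (rr t n k) ω) - a}) := by
      ext ω
      simp only [hF, Set.mem_ofPred_eq, Set.mem_iUnion, exists_prop, Set.mem_inter_iff]
    rw [e]
    exact MeasurableSet.iUnion fun k => MeasurableSet.iUnion fun _ =>
      (T_meas hB x _ k).inter (measurableSet_lt hX
        ((((hB.meas _).const_add x).const_mul 2).sub_const a))
  have hrt : ∀ n k, k ≤ n + 1 → rr t n k ≤ t := fun n k hk =>
    (rr_mono t n hk).trans (rr_last t n).le
  -- the limit of `E`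
  have hlimE : Tendsto (fun n => P (E n)) atTop
      (𝓝 (P ({ω | a < x + B t ω} \ {ω | ∀ s ≤ t, 0 < x + B s ω}))) := by
    refine tendsto_measure_of_ae_tendsto_indicator_of_isFiniteMeasure atTop
      ((measurableSet_lt measurable_const hX).diff (stay_meas hB x t)) hEm ?_
    filter_upwards [ae_neg hB hx (t := t)] with ω hω
    by_cases hst : ∃ s ≤ t, x + B s ω ≤ 0
    · obtain ⟨s, hs, hneg⟩ := hω hst
      have hc : ContinuousAt (fun s => x + B s ω) s := ((hB.cont ω).const_add x).continuousAt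
      obtain ⟨δ, hδ, hball⟩ := Metric.eventually_nhds_iff.1 (hc.eventually_lt_const hneg)
      filter_upwards [small t hδ] with n hn
      obtain ⟨k, hk, hkd⟩ := near ht hs n
      have h1 : x + B (rr t n k) ω < 0 := by
        apply hball
        rw [NNReal.dist_eq]
        exact lt_of_le_of_lt hkd hn
      constructor
      · rintro ⟨_, h3⟩
        refine ⟨h3, fun h4 => ?_⟩
        have := h4 s hs
        linarith
      · rintro ⟨h3, _⟩
        exact ⟨⟨k, hk, h1.le⟩, h3⟩
    · push Not at hst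
      refine Eventually.of_forall fun n => ?_
      constructor
      · rintro ⟨⟨k, hk, h2⟩, _⟩
        have := hst _ (hrt n k hk)
        linarith
      · rintro ⟨_, h3⟩
        exact absurd hst h3
  -- the limit of `F`
  have hlimF : Tendsto (fun n => P (F n)) atTop (𝓝 (P {ω | x + B t ω < -a})) := by
    refine tendsto_measure_of_ae_tendsto_indicator_of_isFiniteMeasure atTop
      (measurableSet_lt hX measurable_const) hFm (Eventually.of_forall fun ω => ?_)
    by_cases hlt : x + B t ω < -a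
    · set ε : ℝ := (-a - (x + B t ω)) / 2 with hε
      have hε0 : 0 < ε := by
        rw [hε]
        linarith
      have huc := (isCompact_Icc (a := (0 : ℝ≥0)) (b := t)).uniformContinuousOn_of_continuous
        (hB.cont ω).continuousOn
      obtain ⟨δ, hδ, hu⟩ := Metric.uniformContinuousOn_iff.1 huc ε hε0
      filter_upwards [small t hδ] with n hn
      refine ⟨fun _ => hlt, fun _ => ?_⟩
      obtain ⟨k, hk, hkT⟩ := T_exists (B := B) (x := x) (r := rr t n) (N := n + 1) (ω := ω)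
        ⟨n + 1, le_refl _, by rw [rr_last]; linarith⟩
      refine ⟨k, hk, hkT, ?_⟩
      obtain ⟨hk1, hk2⟩ := hkT
      have hk0 : k ≠ 0 := by
        intro h
        rw [h, rr_zero, hB.zero] at hk2
        linarith
      obtain ⟨j, rfl⟩ := Nat.exists_eq_succ_of_ne_zero hk0
      have h1 := hk1 j (by omega)
      have h2 : dist (rr t n j) (rr t n (j + 1)) < δ := by
        rw [NNReal.dist_eq, rr_coe, rr_coe]
        push_cast
        have e : (j : ℝ) / ((n : ℝ) + 1) * t - ((j : ℝ) + 1) / ((n : ℝ) + 1) * t =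
            -((t : ℝ) / ((n : ℝ) + 1)) := by
          field_simp
          ring
        rw [e, abs_neg, abs_of_nonneg (by positivity)]
        exact hn
      have h3 := hu _ ⟨zero_le, hrt n j (by omega)⟩ _ ⟨zero_le, hrt n (j + 1) hk⟩ h2
      rw [Real.dist_eq] at h3
      have h4 := (abs_lt.1 h3).2
      show x + B t ω < 2 * (x + B (rr t n (j + 1)) ω) - a
      rw [hε] at h4
      linarith
    · refine Eventually.of_forall fun n => ?_
      constructor
      · rintro ⟨k, hk, hkT, h2⟩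
        have := hkT.2
        exact absurd (show x + B t ω < -a by linarith) hlt
      · intro h
        exact absurd h hlt
  have hlimE' : Tendsto (fun n => P (F n)) atTop
      (𝓝 (P ({ω | a < x + B t ω} \ {ω | ∀ s ≤ t, 0 < x + B s ω}))) := by
    refine hlimE.congr fun n => hEF n
  exact tendsto_nhds_unique hlimE' hlimF

end ReflP

open ReflP in
/-- REFL -/
theorem refl (hB : GBM B P) {x : ℝ} (hx : 0 < x) {t : ℝ≥0} (ht : 0 < t) {φ : ℝ → ℝ≥0∞}
    (hφ : Measurable φ) :
    ∫⁻ ω in {ω | ∀ s ≤ t, 0 < x + B s ω}, φ (x + B t ω) ∂P +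
      ∫⁻ ω in {ω | x + B t ω < 0}, φ (-(x + B t ω)) ∂P =
      ∫⁻ ω in {ω | 0 < x + B t ω}, φ (x + B t ω) ∂P := by
  have := hB.prob
  set X : Ω → ℝ := fun ω => x + B t ω with hXd
  have hX : Measurable X := (hB.meas t).const_add x
  have hXn : Measurable (fun ω => - X ω) := hX.neg
  set St : Set Ω := {ω | ∀ s ≤ t, 0 < x + B s ω} with hSt
  have hStm : MeasurableSet St := stay_meas hB x t
  have hStX : St ⊆ {ω | 0 < X ω} := fun ω hω => hω t (le_refl _)
  set m1 : Measure ℝ := (P.restrict St).map X with hm1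
  set m2 : Measure ℝ := (P.restrict {ω | X ω < 0}).map (fun ω => - X ω) with hm2
  set m3 : Measure ℝ := (P.restrict {ω | 0 < X ω}).map X with hm3
  have a1 : ∀ s : Set ℝ, MeasurableSet s → m1 s = P (X ⁻¹' s ∩ St) := fun s hs => by
    rw [hm1, Measure.map_apply hX hs, Measure.restrict_apply (hX hs)]
  have a2 : ∀ s : Set ℝ, MeasurableSet s → m2 s = P ((fun ω => - X ω) ⁻¹' s ∩ {ω | X ω < 0}) :=
    fun s hs => by
    rw [hm2, Measure.map_apply hXn hs, Measure.restrict_apply (hXn hs)]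
  have a3 : ∀ s : Set ℝ, MeasurableSet s → m3 s = P (X ⁻¹' s ∩ {ω | 0 < X ω}) := fun s hs => by
    rw [hm3, Measure.map_apply hX hs, Measure.restrict_apply (hX hs)]
  -- half lines
  have key : ∀ a : ℝ, 0 ≤ a → (m1 + m2) (Ioi a) = m3 (Ioi a) := by
    intro a ha
    rw [Measure.add_apply, a1 _ measurableSet_Ioi, a2 _ measurableSet_Ioi, a3 _ measurableSet_Ioi]
    have e1 : (fun ω => - X ω) ⁻¹' Ioi a ∩ {ω | X ω < 0} = {ω | X ω < -a} := by
      ext ω
      constructor
      · rintro ⟨h1, _⟩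
        have h1' : a < - X ω := h1
        show X ω < -a
        linarith
      · intro h1
        have h1' : X ω < -a := h1
        refine ⟨?_, ?_⟩
        · show a < - X ω
          linarith
        · show X ω < 0
          linarith
    have e3 : X ⁻¹' Ioi a ∩ {ω | 0 < X ω} = X ⁻¹' Ioi a := by
      refine inter_eq_left.2 fun ω h => ?_
      have h' : a < X ω := h
      show 0 < X ω
      linarith
    rw [e1, e3, ← measure_inter_add_sdiff (X ⁻¹' Ioi a) hStm]
    congr 1
    exact (event hB hx ht ha).symm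
  -- only the positive half line matters
  have b1 : ∀ s : Set ℝ, MeasurableSet s → Ioi (0 : ℝ) ⊆ s → (m1 + m2) s = m3 s := by
    intro s hs h0
    have k := key 0 le_rfl
    rw [Measure.add_apply, a1 _ measurableSet_Ioi, a2 _ measurableSet_Ioi,
      a3 _ measurableSet_Ioi] at k
    rw [Measure.add_apply, a1 _ hs, a2 _ hs, a3 _ hs]
    have c1 : X ⁻¹' s ∩ St = X ⁻¹' Ioi 0 ∩ St := by
      ext ω
      exact ⟨fun h => ⟨hStX h.2, h.2⟩, fun h => ⟨h0 h.1, h.2⟩⟩
    have c2 : (fun ω => - X ω) ⁻¹' s ∩ {ω | X ω < 0} =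
        (fun ω => - X ω) ⁻¹' Ioi 0 ∩ {ω | X ω < 0} := by
      ext ω
      exact ⟨fun h => ⟨show 0 < - X ω from neg_pos.2 h.2, h.2⟩, fun h => ⟨h0 h.1, h.2⟩⟩
    have c3 : X ⁻¹' s ∩ {ω | 0 < X ω} = X ⁻¹' Ioi 0 ∩ {ω | 0 < X ω} := by
      ext ω
      exact ⟨fun h => ⟨h.2, h.2⟩, fun h => ⟨h0 h.1, h.2⟩⟩
    rw [c1, c2, c3]
    exact k
  have hm : m1 + m2 = m3 := by
    refine ext_of_generate_finite (range Ioi)
      ((BorelSpace.measurable_eq (α := ℝ)).trans (borel_eq_generateFrom_Ioi ℝ)) isPiSystem_Ioi ?_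
      (b1 _ MeasurableSet.univ (subset_univ _))
    rintro _ ⟨a, rfl⟩
    rcases le_or_gt 0 a with ha | ha
    · exact key a ha
    · exact b1 _ measurableSet_Ioi (Ioi_subset_Ioi ha.le)
  have l1 : ∫⁻ ω in St, φ (X ω) ∂P = ∫⁻ y, φ y ∂m1 := by
    rw [hm1, lintegral_map hφ hX]
  have l2 : ∫⁻ ω in {ω | X ω < 0}, φ (- X ω) ∂P = ∫⁻ y, φ y ∂m2 := by
    rw [hm2, lintegral_map hφ hXn]
  have l3 : ∫⁻ ω in {ω | 0 < X ω}, φ (X ω) ∂P = ∫⁻ y, φ y ∂m3 := by
    rw [hm3, lintegral_map hφ hX]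
  show ∫⁻ ω in St, φ (X ω) ∂P + ∫⁻ ω in {ω | X ω < 0}, φ (- X ω) ∂P =
    ∫⁻ ω in {ω | 0 < X ω}, φ (X ω) ∂P
  rw [l1, l2, l3, ← hm, lintegral_add_measure]

end Pool.Agent.R986.CM
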