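import Pool.Agent.R986.CM.Defs
import Pool.Agent.R986.CM.Refl
import Pool.Agent.R986.CM.Norm3

/-!
# The h-transform: Brownian motion killed at zero and the three-dimensional Bessel process
(helper586)
-/

set_option autoImplicit false

open MeasureTheory ProbabilityTheory Filter Topology Set
open scoped ENNReal NNReal

namespace Pool.Agent.R986.CM

open Pool.Agent.R974.Span

namespace HtrAux

/-- Euclidean norm -/
noncomputable def nm (z : Fin 3 → ℝ) : ℝ := √(z 0 ^ 2 + z 1 ^ 2 + z 2 ^ 2)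

/-- the Gaussian law -/
noncomputable def g3 (d : ℝ≥0) : Measure (Fin 3 → ℝ) := Measure.pi fun _ : Fin 3 => gaussianReal 0 d

instance (d : ℝ≥0) : IsProbabilityMeasure (g3 d) := by unfold g3; infer_instance

/-- the Gaussian operator -/
noncomputable def Rg (d : ℝ≥0) (ψ : ℝ → ℝ≥0∞) (z : Fin 3 → ℝ) : ℝ≥0∞ :=
  ∫⁻ g, ψ (nm (z + g)) ∂(g3 d)

theorem measurable_nm : Measurable nm := by unfold nm; fun_prop

theorem measurable_Rg (d : ℝ≥0) {ψ : ℝ → ℝ≥0∞} (hψ : Measurable ψ) : Measurable (Rg d ψ) := by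
  unfold Rg
  exact Measurable.lintegral_prod_right'
    (f := fun p : (Fin 3 → ℝ) × (Fin 3 → ℝ) => ψ (nm (p.1 + p.2)))
    (hψ.comp (measurable_nm.comp (measurable_fst.add measurable_snd)))

theorem Rg_le (d : ℝ≥0) {ψ : ℝ → ℝ≥0∞} (h : ∀ v, ψ v ≤ 1) (z : Fin 3 → ℝ) : Rg d ψ z ≤ 1 := by
  unfold Rg
  calc ∫⁻ g, ψ (nm (z + g)) ∂(g3 d) ≤ ∫⁻ _, 1 ∂(g3 d) := lintegral_mono fun g => h _
    _ = 1 := by simp

theorem neg_fin (x : ℝ) (t : ℝ≥0) {ψ : ℝ → ℝ≥0∞} (h : ∀ v, ψ v ≤ 1) :
    ∫⁻ y in Set.Iio 0, ENNReal.ofReal (-y) * ψ (-y) ∂(gaussianReal x t) ≠ ∞ := by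
  have h1 : Integrable (fun y : ℝ => y) (gaussianReal x t) :=
    (memLp_id_gaussianReal (μ := x) (v := t) 1).integrable le_rfl
  refine ne_of_lt (lt_of_le_of_lt ?_ h1.hasFiniteIntegral)
  refine (setLIntegral_le_lintegral _ _).trans (lintegral_mono fun y => ?_)
  calc ENNReal.ofReal (-y) * ψ (-y) ≤ ENNReal.ofReal (-y) * 1 := by gcongr; exact h _
    _ ≤ ‖y‖ₑ := by
      rw [mul_one, Real.enorm_eq_ofReal_abs]
      exact ENNReal.ofReal_le_ofReal (neg_le_abs y)

theorem norm3' {d : ℝ≥0} (hd : 0 < d) {ψ : ℝ → ℝ≥0∞} (hψ : Measurable ψ) (z : Fin 3 → ℝ) {x : ℝ}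
    (hx : 0 < x) (hz : z 0 ^ 2 + z 1 ^ 2 + z 2 ^ 2 = x ^ 2) :
    ENNReal.ofReal x * Rg d ψ z +
      ∫⁻ y in Set.Iio 0, ENNReal.ofReal (-y) * ψ (-y) ∂(gaussianReal x d) =
      ∫⁻ y in Set.Ioi 0, ENNReal.ofReal y * ψ y ∂(gaussianReal x d) :=
  norm3 hd z hx hz hψ

theorem Rg_rot {d : ℝ≥0} (hd : 0 < d) {ψ : ℝ → ℝ≥0∞} (hψ : Measurable ψ) (h : ∀ v, ψ v ≤ 1)
    (z : Fin 3 → ℝ) : Rg d ψ z = Rg d ψ ![nm z, 0, 0] := by
  by_cases hz : nm z = 0
  · have h0 : z 0 ^ 2 + z 1 ^ 2 + z 2 ^ 2 = 0 := by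
      have := (Real.sqrt_eq_zero (by positivity)).1 hz
      exact this
    have e0 : z 0 = 0 := by nlinarith [sq_nonneg (z 0), sq_nonneg (z 1), sq_nonneg (z 2)]
    have e1 : z 1 = 0 := by nlinarith [sq_nonneg (z 0), sq_nonneg (z 1), sq_nonneg (z 2)]
    have e2 : z 2 = 0 := by nlinarith [sq_nonneg (z 0), sq_nonneg (z 1), sq_nonneg (z 2)]
    have : z = ![nm z, 0, 0] := by
      funext i
      fin_cases i
      · simp [hz, e0]
      · simp [e1]
      · simp [e2]
    rw [← this]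
  · have hx : 0 < nm z := lt_of_le_of_ne (Real.sqrt_nonneg _) (Ne.symm hz)
    have e1 := norm3' hd hψ z hx (by unfold nm; rw [Real.sq_sqrt (by positivity)])
    have e2 := norm3' hd hψ ![nm z, 0, 0] hx (by simp)
    have h3 := neg_fin (nm z) d h
    have e3 : ENNReal.ofReal (nm z) * Rg d ψ z = ENNReal.ofReal (nm z) * Rg d ψ ![nm z, 0, 0] :=
      (ENNReal.add_left_inj h3).1 (e1.trans e2.symm)
    exact (ENNReal.mul_right_inj (by simpa using hx) ENNReal.ofReal_ne_top).1 e3

variable {Ω : Type*} [MeasurableSpace Ω] {P : Measure Ω} {B : ℝ≥0 → Ω → ℝ}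
variable {Ω' : Type*} [MeasurableSpace Ω'] {Q : Measure Ω'} {β : Fin 3 → ℝ≥0 → Ω' → ℝ}

theorem stay_iff {w : ℝ≥0 → ℝ} (hw : Continuous w) (T : ℝ≥0) (y : ℝ) :
    (∀ s ≤ T, 0 < y + w s) ↔ mx (fun s => -w s) 0 T < y := by
  constructor
  · intro h
    obtain ⟨s0, hs0, hmax⟩ := (isCompact_Icc (a := (0 : ℝ≥0)) (b := T)).exists_isMaxOn
      ⟨0, by simp⟩ (hw.neg.continuousOn)
    have h1 : mx (fun s => -w s) 0 T ≤ -w s0 := mx_le zero_le (fun s _ hs => hmax ⟨zero_le, hs⟩)
    have := h s0 hs0.2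
    linarith
  · intro h s hs
    have := le_mx (w := fun s => -w s) hw.neg (a := 0) (b := T) zero_le hs
    linarith

theorem meas_stay (hB : GBM B P) (x : ℝ) (T : ℝ≥0) :
    MeasurableSet {ω | ∀ s ≤ T, 0 < x + B s ω} := by
  have h : {ω | ∀ s ≤ T, 0 < x + B s ω} = {ω | mx (fun s => -B s ω) 0 T < x} := by
    ext ω
    exact stay_iff (hB.cont ω) T x
  rw [h]
  exact measurableSet_lt ((measurable_mx 0 T).comp
    (measurable_pi_lambda _ fun t => (hB.meas t).neg)) measurable_const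

theorem single (hB : GBM B P) {x : ℝ} (hx : 0 < x) {T : ℝ≥0} (hT : 0 < T) {ψ : ℝ → ℝ≥0∞}
    (hψ : Measurable ψ) (h : ∀ v, ψ v ≤ 1) :
    ∫⁻ ω in {ω | ∀ s ≤ T, 0 < x + B s ω}, ENNReal.ofReal (x + B T ω) * ψ (x + B T ω) ∂P =
      ENNReal.ofReal x * Rg T ψ ![x, 0, 0] := by
  have := hB.prob
  have hm : Measurable (fun ω => x + B T ω) := (hB.meas T).const_add x
  have hlaw : P.map (fun ω => x + B T ω) = gaussianReal x T := by
    have h1 : P.map (B T) = gaussianReal 0 T := (hB.pre.hasLaw_eval T).map_eq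
    have h2 : P.map (fun ω => x + B T ω) = (P.map (B T)).map (fun v => x + v) :=
      (Measure.map_map (measurable_const_add x) (hB.meas T)).symm
    rw [h2, h1, gaussianReal_map_const_add, zero_add]
  have hφ : Measurable (fun v : ℝ => ENNReal.ofReal v * ψ v) :=
    ENNReal.measurable_ofReal.mul hψ
  have hφ' : Measurable (fun v : ℝ => ENNReal.ofReal (-v) * ψ (-v)) := hφ.comp measurable_neg
  have e1 := refl hB hx hT hφ
  have e2 : ∫⁻ ω in {ω | x + B T ω < 0}, ENNReal.ofReal (-(x + B T ω)) * ψ (-(x + B T ω)) ∂P =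
      ∫⁻ y in Set.Iio 0, ENNReal.ofReal (-y) * ψ (-y) ∂(gaussianReal x T) := by
    rw [← hlaw, setLIntegral_map measurableSet_Iio hφ' hm]
    rfl
  have e3 : ∫⁻ ω in {ω | 0 < x + B T ω}, ENNReal.ofReal (x + B T ω) * ψ (x + B T ω) ∂P =
      ∫⁻ y in Set.Ioi 0, ENNReal.ofReal y * ψ y ∂(gaussianReal x T) := by
    rw [← hlaw, setLIntegral_map measurableSet_Ioi hφ hm]
    rfl
  have e4 := norm3' hT hψ ![x, 0, 0] hx (by simp)
  rw [e2, e3, ← e4] at e1
  exact (ENNReal.add_left_inj (neg_fin x T h)).1 e1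

theorem markovB (hB : GBM B P) {x : ℝ} {b T : ℝ≥0} (hb : b < T)
    {Φ : (Set.Iic b → ℝ) → ℝ≥0∞} (hΦ : Measurable Φ) {ψ : ℝ → ℝ≥0∞} (hψ : Measurable ψ)
    (h : ∀ v, ψ v ≤ 1) :
    ∫⁻ ω in {ω | ∀ s ≤ T, 0 < x + B s ω}, Φ (fun t => B t ω) *
        (ENNReal.ofReal (x + B T ω) * ψ (x + B T ω)) ∂P =
      ∫⁻ ω in {ω | ∀ s ≤ b, 0 < x + B s ω}, Φ (fun t => B t ω) *
        (ENNReal.ofReal (x + B b ω) * Rg (T - b) ψ ![x + B b ω, 0, 0]) ∂P := by
  classical
  have := hB.prob
  set d := T - b with hd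
  have hd0 : 0 < d := tsub_pos_of_lt hb
  have hbd : b + d = T := add_tsub_cancel_of_le hb.le
  set sh : Ω → ℝ≥0 → ℝ := fun ω t => B (b + t) ω - B b ω with hsh
  set pa : Ω → Set.Iic b → ℝ := fun ω t => B t ω with hpa
  have hshm : Measurable sh := measurable_pi_lambda _ fun t => (hB.meas _).sub (hB.meas _)
  have hpam : Measurable pa := measurable_pi_lambda _ fun t => hB.meas _
  have hmap := (indepFun_iff_map_prod_eq_prod_map_map hpam.aemeasurable hshm.aemeasurable).mp
    (hB.pre.indepFun_shift b).symm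
  let bb : Set.Iic b := ⟨b, Set.mem_Iic.2 le_rfl⟩
  let Sp : Set (Set.Iic b → ℝ) :=
    {f | mx (fun t => -f ⟨min t b, Set.mem_Iic.2 (min_le_right _ _)⟩) 0 b < x}
  have hcl : Measurable (fun (f : Set.Iic b → ℝ) (t : ℝ≥0) =>
      -f ⟨min t b, Set.mem_Iic.2 (min_le_right _ _)⟩) :=
    measurable_pi_lambda _ fun t => (measurable_pi_apply _).neg
  have hSp : MeasurableSet Sp := measurableSet_lt ((measurable_mx 0 b).comp hcl) measurable_const
  let Sf : Set ((Set.Iic b → ℝ) × (ℝ≥0 → ℝ)) := {p | mx (fun t => -p.2 t) 0 d < x + p.1 bb}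
  have hbm : Measurable (fun p : (Set.Iic b → ℝ) × (ℝ≥0 → ℝ) => x + p.1 bb) :=
    measurable_const.add ((measurable_pi_apply bb).comp measurable_fst)
  have hcl2 : Measurable (fun (p : (Set.Iic b → ℝ) × (ℝ≥0 → ℝ)) (t : ℝ≥0) => -p.2 t) :=
    measurable_pi_lambda _ fun t => ((measurable_pi_apply t).comp measurable_snd).neg
  have hSf : MeasurableSet Sf := measurableSet_lt ((measurable_mx 0 d).comp hcl2) hbm
  have hv : Measurable (fun p : (Set.Iic b → ℝ) × (ℝ≥0 → ℝ) => x + p.1 bb + p.2 d) :=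
    hbm.add ((measurable_pi_apply d).comp measurable_snd)
  let Φ' : (Set.Iic b → ℝ) → ℝ≥0∞ := Sp.indicator Φ
  have hΦ' : Measurable Φ' := hΦ.indicator hSp
  let Ψ : (Set.Iic b → ℝ) × (ℝ≥0 → ℝ) → ℝ≥0∞ := Sf.indicator
    (fun p => ENNReal.ofReal (x + p.1 bb + p.2 d) * ψ (x + p.1 bb + p.2 d))
  have hΨ : Measurable Ψ :=
    ((ENNReal.measurable_ofReal.comp hv).mul (hψ.comp hv)).indicator hSf
  have hSp_iff : ∀ ω, pa ω ∈ Sp ↔ ∀ s ≤ b, 0 < x + B s ω := by
    intro ω
    rw [stay_iff (hB.cont ω) b x]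
    have : mx (fun t => -pa ω ⟨min t b, Set.mem_Iic.2 (min_le_right _ _)⟩) 0 b =
        mx (fun s => -B s ω) 0 b := by
      unfold mx
      congr 1
      funext n
      have h1 : max 0 (min (dq n) b) ≤ b := max_le zero_le (min_le_right _ _)
      simp only [hpa, min_eq_left h1]
    change mx (fun t => -pa ω ⟨min t b, Set.mem_Iic.2 (min_le_right _ _)⟩) 0 b < x ↔ _
    rw [this]
  have hSf_iff : ∀ ω ω', (pa ω, sh ω') ∈ Sf ↔ ∀ s ≤ d, 0 < (x + B b ω) + (B (b + s) ω' - B b ω') := by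
    intro ω ω'
    exact (stay_iff ((hB.shift b).cont ω') d (x + B b ω)).symm
  have e1 : ∫⁻ ω in {ω | ∀ s ≤ T, 0 < x + B s ω}, Φ (fun t => B t ω) *
        (ENNReal.ofReal (x + B T ω) * ψ (x + B T ω)) ∂P =
      ∫⁻ ω, Φ' (pa ω) * Ψ (pa ω, sh ω) ∂P := by
    rw [← lintegral_indicator (meas_stay hB x T)]
    refine lintegral_congr fun ω => ?_
    by_cases hω : ∀ s ≤ T, 0 < x + B s ω
    · have h1 : pa ω ∈ Sp := (hSp_iff ω).2 fun s hs => hω s (hs.trans hb.le)
      have h2 : (pa ω, sh ω) ∈ Sf := (hSf_iff ω ω).2 fun s hs => by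
        have h3 := hω (b + s) (by rw [← hbd]; gcongr)
        linarith
      rw [indicator_of_mem (by exact hω), show Φ' (pa ω) = Φ (pa ω) from indicator_of_mem h1 _,
        show Ψ (pa ω, sh ω) = _ from indicator_of_mem h2 _]
      have h4 : x + pa ω bb + sh ω d = x + B T ω := by
        simp only [hpa, hsh, bb, hbd]
        ring
      simp only [h4]
      rfl
    · rw [indicator_of_notMem (by exact hω)]
      by_cases h1 : pa ω ∈ Sp
      · have h2 : (pa ω, sh ω) ∉ Sf := by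
          intro h2
          apply hω
          intro s hs
          rcases le_total s b with h3 | h3
          · exact (hSp_iff ω).1 h1 s h3
          · have h4 := (hSf_iff ω ω).1 h2 (s - b) (tsub_le_tsub_right hs b)
            rw [add_tsub_cancel_of_le h3] at h4
            linarith
        rw [show Ψ (pa ω, sh ω) = 0 from indicator_of_notMem h2 _, mul_zero]
      · rw [show Φ' (pa ω) = 0 from indicator_of_notMem h1 _, zero_mul]
  have e2 : ∫⁻ ω, Φ' (pa ω) * Ψ (pa ω, sh ω) ∂P =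
      ∫⁻ ω, Φ' (pa ω) * ∫⁻ ω', Ψ (pa ω, sh ω') ∂P ∂P := by
    have hin : ∀ f, ∫⁻ w, Ψ (f, w) ∂(P.map sh) = ∫⁻ ω', Ψ (f, sh ω') ∂P := fun f =>
      lintegral_map (hΨ.comp measurable_prodMk_left) hshm
    have h1 : ∫⁻ ω, Φ' (pa ω) * Ψ (pa ω, sh ω) ∂P =
        ∫⁻ p, Φ' p.1 * Ψ p ∂(P.map (fun ω => (pa ω, sh ω))) :=
      (lintegral_map (f := fun p => Φ' p.1 * Ψ p) ((hΦ'.comp measurable_fst).mul hΨ)
        (hpam.prodMk hshm)).symm
    have h2 : Measurable (fun p : (Set.Iic b → ℝ) × (ℝ≥0 → ℝ) => Φ' p.1 * Ψ p) :=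
      (hΦ'.comp measurable_fst).mul hΨ
    have : IsProbabilityMeasure (P.map sh) := Measure.isProbabilityMeasure_map hshm.aemeasurable
    have : IsProbabilityMeasure (P.map pa) := Measure.isProbabilityMeasure_map hpam.aemeasurable
    rw [h1, hmap, lintegral_prod _ h2.aemeasurable]
    have h3 : ∀ f, ∫⁻ w, Φ' f * Ψ (f, w) ∂(P.map sh) = Φ' f * ∫⁻ ω', Ψ (f, sh ω') ∂P := by
      intro f
      have h5 := lintegral_const_mul (μ := P.map sh) (f := fun w => Ψ (f, w)) (Φ' f)
        (hΨ.comp measurable_prodMk_left)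
      rw [h5, hin]
    simp only [h3]
    have h4 : Measurable (fun f => Φ' f * ∫⁻ ω', Ψ (f, sh ω') ∂P) := by
      refine hΦ'.mul ?_
      have : (fun f => ∫⁻ ω', Ψ (f, sh ω') ∂P) = fun f => ∫⁻ w, Ψ (f, w) ∂(P.map sh) := by
        funext f
        exact (hin f).symm
      rw [this]
      exact hΨ.lintegral_prod_right'
    exact lintegral_map h4 hpam
  rw [e1, e2, ← lintegral_indicator (meas_stay hB x b)]
  refine lintegral_congr fun ω => ?_
  by_cases hω : ∀ s ≤ b, 0 < x + B s ω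
  · rw [indicator_of_mem (by exact hω),
      show Φ' (pa ω) = Φ (pa ω) from indicator_of_mem ((hSp_iff ω).2 hω) _]
    have hpos : 0 < x + B b ω := hω b le_rfl
    have h5 := single (hB.shift b) hpos hd0 hψ h
    rw [← h5, ← lintegral_indicator (meas_stay (hB.shift b) _ _)]
    have h6 : ∀ ω', Ψ (pa ω, sh ω') = {ω' | ∀ s ≤ d, 0 < (x + B b ω) + (B (b + s) ω' - B b ω')}.indicator
        (fun ω' => ENNReal.ofReal ((x + B b ω) + (B (b + d) ω' - B b ω')) *
          ψ ((x + B b ω) + (B (b + d) ω' - B b ω'))) ω' := by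
      intro ω'
      by_cases h7 : (pa ω, sh ω') ∈ Sf
      · rw [show Ψ (pa ω, sh ω') = _ from indicator_of_mem h7 _,
          indicator_of_mem (by exact (hSf_iff ω ω').1 h7)]
      · rw [show Ψ (pa ω, sh ω') = _ from indicator_of_notMem h7 _,
          indicator_of_notMem (by intro h8; exact h7 ((hSf_iff ω ω').2 h8))]
    simp only [h6]
    rfl
  · rw [indicator_of_notMem (by exact hω),
      show Φ' (pa ω) = 0 from indicator_of_notMem (fun h1 => hω ((hSp_iff ω).1 h1)) _, zero_mul]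

theorem markov3 (hβ : B3 β Q) (z : Fin 3 → ℝ) {b T : ℝ≥0} (hb : b < T)
    {Φ : (Fin 3 → Set.Iic b → ℝ) → ℝ≥0∞} (hΦ : Measurable Φ) {ψ : ℝ → ℝ≥0∞}
    (hψ : Measurable ψ) :
    ∫⁻ ω, Φ (fun i t => β i t ω) * ψ (nm (z + fun i => β i T ω)) ∂Q =
      ∫⁻ ω, Φ (fun i t => β i t ω) * Rg (T - b) ψ (z + fun i => β i b ω) ∂Q := by
  classical
  have := (hβ.gbm 0).prob
  set d := T - b with hd
  have hbd : b + d = T := add_tsub_cancel_of_le hb.le
  let bb : Set.Iic b := ⟨b, Set.mem_Iic.2 le_rfl⟩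
  let u : (ℝ≥0 → ℝ) → ℝ × (Set.Iic b → ℝ) := fun w => (w T - w b, fun t => w t)
  have hu : Measurable u := by
    refine Measurable.prodMk ((measurable_pi_apply T).sub (measurable_pi_apply b)) ?_
    exact measurable_pi_lambda _ fun t => measurable_pi_apply _
  have hpath : ∀ i, Measurable (fun ω t => β i t ω) := fun i =>
    measurable_pi_lambda _ fun t => (hβ.gbm i).meas t
  let ν : Fin 3 → Measure (Set.Iic b → ℝ) := fun i => Q.map (fun ω (t : Set.Iic b) => β i t ω)
  have hpa1 : ∀ i, Measurable (fun ω (t : Set.Iic b) => β i t ω) := fun i =>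
    measurable_pi_lambda _ fun t => (hβ.gbm i).meas _
  have hν : ∀ i, IsProbabilityMeasure (ν i) := fun i =>
    Measure.isProbabilityMeasure_map (hpa1 i).aemeasurable
  have hi : ∀ i, Q.map (fun ω => u (fun t => β i t ω)) = (gaussianReal 0 d).prod (ν i) := by
    intro i
    have h1 : IndepFun (fun ω => β i (b + d) ω - β i b ω) (fun ω (t : Set.Iic b) => β i t ω) Q :=
      ((hβ.gbm i).pre.indepFun_shift b).comp (measurable_pi_apply d) measurable_id
    have hm1 : Measurable (fun ω => β i (b + d) ω - β i b ω) :=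
      ((hβ.gbm i).meas _).sub ((hβ.gbm i).meas _)
    have h2 := (indepFun_iff_map_prod_eq_prod_map_map hm1.aemeasurable
      (hpa1 i).aemeasurable).mp h1
    have h3 : Q.map (fun ω => β i (b + d) ω - β i b ω) = gaussianReal 0 d :=
      (((hβ.gbm i).shift b).pre.hasLaw_eval d).map_eq
    rw [h3] at h2
    rw [← h2]
    simp only [u, hbd]
  have hind : iIndepFun (fun i ω => u (fun t => β i t ω)) Q :=
    hβ.ind.comp (fun _ => u) (fun _ => hu)
  have hjoint : Q.map (fun ω i => u (fun t => β i t ω)) =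
      Measure.pi (fun i => (gaussianReal 0 d).prod (ν i)) := by
    have h0 := (iIndepFun_iff_map_fun_eq_pi_map (f := fun i ω => u (fun t => β i t ω))
      (fun i => (hu.comp (hpath i)).aemeasurable)).1 hind
    rw [h0]
    congr 1
    funext i
    exact hi i
  set inc : Ω' → Fin 3 → ℝ := fun ω i => β i T ω - β i b ω with hinc
  set pa : Ω' → Fin 3 → Set.Iic b → ℝ := fun ω i t => β i t ω with hpa
  have hincm : Measurable inc :=
    measurable_pi_lambda _ fun i => ((hβ.gbm i).meas _).sub ((hβ.gbm i).meas _)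
  have hpam : Measurable pa := measurable_pi_lambda _ fun i => hpa1 i
  have hfin : Q.map (fun ω => (inc ω, pa ω)) = (g3 d).prod (Measure.pi ν) := by
    have h1 := measurePreserving_arrowProdEquivProdArrow ℝ (Set.Iic b → ℝ) (Fin 3)
      (fun _ => gaussianReal 0 d) ν
    have h2 := h1.map_eq
    have hm2 : Measurable (fun ω i => u (fun t => β i t ω)) :=
      measurable_pi_lambda _ fun i => hu.comp (hpath i)
    rw [← hjoint, Measure.map_map h1.measurable hm2] at h2
    exact h2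
  have hpa2 : Q.map pa = Measure.pi ν := by
    have h1 := congrArg (Measure.map Prod.snd) hfin
    rw [Measure.map_map measurable_snd (hincm.prodMk hpam), Measure.map_snd_prod, measure_univ,
      one_smul] at h1
    exact h1
  have hbm : Measurable (fun f : Fin 3 → Set.Iic b → ℝ => z + fun i => f i bb) := by
    refine measurable_const.add (measurable_pi_lambda _ fun i => ?_)
    exact (measurable_pi_apply bb).comp (measurable_pi_apply i)
  have hF : Measurable (fun p : (Fin 3 → ℝ) × (Fin 3 → Set.Iic b → ℝ) =>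
      Φ p.2 * ψ (nm ((z + fun i => p.2 i bb) + p.1))) :=
    (hΦ.comp measurable_snd).mul (hψ.comp (measurable_nm.comp
      ((hbm.comp measurable_snd).add measurable_fst)))
  have e1 : ∫⁻ ω, Φ (fun i t => β i t ω) * ψ (nm (z + fun i => β i T ω)) ∂Q =
      ∫⁻ p, Φ p.2 * ψ (nm ((z + fun i => p.2 i bb) + p.1)) ∂(Q.map (fun ω => (inc ω, pa ω))) := by
    rw [lintegral_map hF (hincm.prodMk hpam)]
    refine lintegral_congr fun ω => ?_
    have : (z + fun i => pa ω i bb) + inc ω = z + fun i => β i T ω := by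
      funext i
      simp only [Pi.add_apply, hpa, hinc, bb]
      ring
    simp only [this]
    rfl
  have hG : Measurable (fun f : Fin 3 → Set.Iic b → ℝ =>
      Φ f * Rg d ψ (z + fun i => f i bb)) := hΦ.mul ((measurable_Rg d hψ).comp hbm)
  have e2 : ∫⁻ ω, Φ (fun i t => β i t ω) * Rg d ψ (z + fun i => β i b ω) ∂Q =
      ∫⁻ f, Φ f * Rg d ψ (z + fun i => f i bb) ∂(Q.map pa) := by
    rw [lintegral_map hG hpam]
  rw [e1, e2, hfin, hpa2, lintegral_prod_symm' _ hF]
  refine lintegral_congr fun f => ?_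
  exact lintegral_const_mul (μ := g3 d) (f := fun g => ψ (nm ((z + fun i => f i bb) + g)))
    (Φ f) (hψ.comp (measurable_nm.comp (measurable_const.add measurable_id)))

omit [MeasurableSpace Ω'] in
theorem nrm_eq (x : ℝ) (t : ℝ≥0) (ω : Ω') :
    nm (![x, 0, 0] + fun i => β i t ω) = nrm x β t ω := by
  unfold nm nrm
  simp

theorem measurable_ind {A : Set ℝ} (hA : MeasurableSet A) :
    Measurable (A.indicator (1 : ℝ → ℝ≥0∞)) := measurable_one.indicator hA

theorem ind_le (A : Set ℝ) (v : ℝ) : A.indicator (1 : ℝ → ℝ≥0∞) v ≤ 1 := by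
  by_cases h : v ∈ A
  · rw [indicator_of_mem h]; exact le_rfl
  · rw [indicator_of_notMem h]; exact zero_le_one

theorem fdd (hB : GBM B P) (hβ : B3 β Q) {x : ℝ} (hx : 0 < x) (A : ℝ≥0 → Set ℝ)
    (hA : ∀ t, MeasurableSet (A t)) (s : Finset ℝ≥0) :
    ∀ (T : ℝ≥0), 0 < T → (∀ t ∈ s, t < T) → ∀ ψ : ℝ → ℝ≥0∞, Measurable ψ → (∀ v, ψ v ≤ 1) →
    ∫⁻ ω in {ω | ∀ r ≤ T, 0 < x + B r ω}, (∏ t ∈ s, (A t).indicator (1 : ℝ → ℝ≥0∞) (x + B t ω)) *
        (ENNReal.ofReal (x + B T ω) * ψ (x + B T ω)) ∂P =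
      ENNReal.ofReal x * ∫⁻ ω, (∏ t ∈ s, (A t).indicator (1 : ℝ → ℝ≥0∞) (nrm x β t ω)) *
        ψ (nrm x β T ω) ∂Q := by
  induction s using Finset.induction_on_max with
  | empty =>
    intro T hT _ ψ hψ h
    simp only [Finset.prod_empty, one_mul]
    rw [single hB hx hT hψ h]
    congr 1
    have h1 := markov3 hβ ![x, 0, 0] hT (Φ := fun _ => 1) measurable_const hψ
    simp only [one_mul, nrm_eq] at h1
    rw [h1, tsub_zero]
    have := (hβ.gbm 0).prob
    have h2 : ∀ ω, (![x, 0, 0] + fun i => β i 0 ω) = ![x, 0, 0] := by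
      intro ω
      funext i
      simp [(hβ.gbm i).zero ω]
    simp only [h2, lintegral_const, measure_univ, mul_one]
  | insert b s hlt ih =>
    intro T hT hsT ψ hψ h
    have hbT : b < T := hsT b (Finset.mem_insert_self b s)
    have hbs : b ∉ s := fun hb => lt_irrefl b (hlt b hb)
    rcases eq_or_lt_of_le (zero_le : 0 ≤ b) with hb0 | hb0
    · -- `b = 0`
      subst hb0
      have hs : s = ∅ := Finset.eq_empty_of_forall_notMem fun t ht => not_lt_zero (hlt t ht)
      subst hs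
      have h1 : ∀ ω, B 0 ω = 0 := hB.zero
      have h2 : ∀ ω, nrm x β 0 ω = x := by
        intro ω
        unfold nrm
        simp [(hβ.gbm 0).zero ω, (hβ.gbm 1).zero ω, (hβ.gbm 2).zero ω, Real.sqrt_sq hx.le]
      have h3 := ih T hT (by simp) ψ hψ h
      simp only [Finset.prod_empty, one_mul] at h3
      simp only [Finset.prod_insert hbs, Finset.prod_empty, mul_one, h1, h2, add_zero]
      have hm1 : Measurable fun ω => ENNReal.ofReal (x + B T ω) * ψ (x + B T ω) := by
        have := hB.meas T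
        exact (ENNReal.measurable_ofReal.comp (this.const_add x)).mul
          (hψ.comp (this.const_add x))
      have hm2 : Measurable fun ω => ψ (nrm x β T ω) := by
        refine hψ.comp ?_
        unfold nrm
        have h0 := (hβ.gbm 0).meas T
        have h1 := (hβ.gbm 1).meas T
        have h2 := (hβ.gbm 2).meas T
        fun_prop
      rw [lintegral_const_mul _ hm1, lintegral_const_mul _ hm2, h3]
      ring
    · -- `b > 0`
      let Φ : (Set.Iic b → ℝ) → ℝ≥0∞ := fun f => ∏ t ∈ insert b s,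
        (A t).indicator (1 : ℝ → ℝ≥0∞) (x + f ⟨min t b, Set.mem_Iic.2 (min_le_right _ _)⟩)
      have hΦ : Measurable Φ := Finset.measurable_fun_prod _ fun t _ =>
        (measurable_ind (hA t)).comp (measurable_const.add (measurable_pi_apply _))
      have hmin : ∀ t ∈ insert b s, min t b = t := by
        intro t ht
        rcases Finset.mem_insert.1 ht with h1 | h1
        · rw [h1, min_self]
        · exact min_eq_left (hlt t h1).le
      have hΦB : ∀ ω, Φ (fun t => B t ω) =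
          ∏ t ∈ insert b s, (A t).indicator (1 : ℝ → ℝ≥0∞) (x + B t ω) := by
        intro ω
        refine Finset.prod_congr rfl fun t ht => ?_
        simp only [hmin t ht]
      let Φ3 : (Fin 3 → Set.Iic b → ℝ) → ℝ≥0∞ := fun f => ∏ t ∈ insert b s,
        (A t).indicator (1 : ℝ → ℝ≥0∞)
          (nm (![x, 0, 0] + fun i => f i ⟨min t b, Set.mem_Iic.2 (min_le_right _ _)⟩))
      have hΦ3 : Measurable Φ3 := Finset.measurable_fun_prod _ fun t _ =>
        (measurable_ind (hA t)).comp (measurable_nm.comp (measurable_const.add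
          (measurable_pi_lambda _ fun i =>
            (measurable_pi_apply _).comp (measurable_pi_apply i))))
      have hΦ3β : ∀ ω, Φ3 (fun i t => β i t ω) =
          ∏ t ∈ insert b s, (A t).indicator (1 : ℝ → ℝ≥0∞) (nrm x β t ω) := by
        intro ω
        refine Finset.prod_congr rfl fun t ht => ?_
        simp only [hmin t ht, nrm_eq]
      have hd0 : 0 < T - b := tsub_pos_of_lt hbT
      -- left side
      have e1 := markovB hB (x := x) hbT hΦ hψ h
      simp only [hΦB] at e1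
      -- right side
      have e2 := markov3 hβ ![x, 0, 0] hbT hΦ3 hψ
      simp only [hΦ3β, nrm_eq] at e2
      rw [e1, e2]
      let ψ' : ℝ → ℝ≥0∞ := fun v => (A b).indicator (1 : ℝ → ℝ≥0∞) v * Rg (T - b) ψ ![v, 0, 0]
      have hv3 : Measurable (fun v : ℝ => ![v, 0, 0]) := by
        refine measurable_pi_lambda _ fun i => ?_
        fin_cases i
        · exact measurable_id
        · exact measurable_const
        · exact measurable_const
      have hψ' : Measurable ψ' := (measurable_ind (hA b)).mul ((measurable_Rg _ hψ).comp hv3)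
      have hψ'1 : ∀ v, ψ' v ≤ 1 := fun v => by
        calc ψ' v ≤ 1 * 1 := mul_le_mul' (ind_le _ _) (Rg_le _ h _)
          _ = 1 := one_mul 1
      have e3 := ih b hb0 hlt ψ' hψ' hψ'1
      have l1 : ∀ ω, (∏ t ∈ insert b s, (A t).indicator (1 : ℝ → ℝ≥0∞) (x + B t ω)) *
          (ENNReal.ofReal (x + B b ω) * Rg (T - b) ψ ![x + B b ω, 0, 0]) =
          (∏ t ∈ s, (A t).indicator (1 : ℝ → ℝ≥0∞) (x + B t ω)) *
          (ENNReal.ofReal (x + B b ω) * ψ' (x + B b ω)) := by
        intro ω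
        rw [Finset.prod_insert hbs]
        simp only [ψ']
        ring
      have l2 : ∀ ω, (∏ t ∈ insert b s, (A t).indicator (1 : ℝ → ℝ≥0∞) (nrm x β t ω)) *
          Rg (T - b) ψ (![x, 0, 0] + fun i => β i b ω) =
          (∏ t ∈ s, (A t).indicator (1 : ℝ → ℝ≥0∞) (nrm x β t ω)) * ψ' (nrm x β b ω) := by
        intro ω
        rw [Finset.prod_insert hbs, Rg_rot hd0 hψ h, nrm_eq]
        simp only [ψ']
        ring
      simp only [l1, l2]
      exact e3

end HtrAux

open HtrAux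

variable {Ω : Type*} [MeasurableSpace Ω] {P : Measure Ω} {B : ℝ≥0 → Ω → ℝ}
variable {Ω' : Type*} [MeasurableSpace Ω'] {Q : Measure Ω'} {β : Fin 3 → ℝ≥0 → Ω' → ℝ}

/-- HTR -/
theorem htr (hB : GBM B P) (hβ : B3 β Q) {x : ℝ} (hx : 0 < x)
    {F : (Set.Iic (1 : ℝ≥0) → ℝ) → ℝ≥0∞} (hF : Measurable F) :
    ∫⁻ ω in {ω | ∀ s ≤ (1 : ℝ≥0), 0 < x + B s ω}, F (fun s => x + B s ω) ∂P =
      ENNReal.ofReal x * ∫⁻ ω, F (nrm1 x β ω) / ENNReal.ofReal (nrm x β 1 ω) ∂Q := by
  classical
  have := hB.prob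
  have := (hβ.gbm 0).prob
  set S : Set Ω := {ω | ∀ s ≤ (1 : ℝ≥0), 0 < x + B s ω} with hS
  have hSm : MeasurableSet S := meas_stay hB x 1
  set X : Ω → Set.Iic (1 : ℝ≥0) → ℝ := fun ω s => x + B s ω with hX
  have hXm : Measurable X := measurable_pi_lambda _ fun s => (hB.meas _).const_add x
  have hnm : ∀ t, Measurable (nrm x β t) := by
    intro t
    unfold nrm
    have h0 := (hβ.gbm 0).meas t
    have h1 := (hβ.gbm 1).meas t
    have h2 := (hβ.gbm 2).meas t
    fun_prop
  have hYm : Measurable (nrm1 x β) := measurable_pi_lambda _ fun s => hnm _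
  let w : Ω → ℝ≥0∞ := fun ω => ENNReal.ofReal (x + B 1 ω)
  have hw : Measurable w := ENNReal.measurable_ofReal.comp ((hB.meas 1).const_add x)
  let i1 : Set.Iic (1 : ℝ≥0) := ⟨1, Set.mem_Iic.2 le_rfl⟩
  have hmeas : (ENNReal.ofReal x • Q).map (nrm1 x β) =
      ((P.restrict S).withDensity w).map X := by
    have hsq : ∀ C ∈ squareCylinders (fun _ : Set.Iic (1 : ℝ≥0) => {A : Set ℝ | MeasurableSet A}),
        (ENNReal.ofReal x • Q).map (nrm1 x β) C = ((P.restrict S).withDensity w).map X C := by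
      rintro C ⟨I, t, ht, rfl⟩
      have ht' : ∀ i, MeasurableSet (t i) := fun i => ht i (mem_univ i)
      have hCm : MeasurableSet ((I : Set (Set.Iic (1 : ℝ≥0))).pi t) :=
        MeasurableSet.pi I.countable_toSet fun i _ => ht' i
      let A : ℝ≥0 → Set ℝ := fun r =>
        if hr : ∃ h : r ≤ 1, (⟨r, h⟩ : Set.Iic (1 : ℝ≥0)) ∈ I then t ⟨r, hr.1⟩ else univ
      have hA : ∀ r, MeasurableSet (A r) := by
        intro r
        simp only [A]
        split_ifs with hr
        · exact ht' _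
        · exact MeasurableSet.univ
      have key : ∀ g : ℝ≥0 → ℝ, (∏ r ∈ (I.image Subtype.val).erase 1,
          (A r).indicator (1 : ℝ → ℝ≥0∞) (g r)) * (A 1).indicator (1 : ℝ → ℝ≥0∞) (g 1) =
          ((I : Set (Set.Iic (1 : ℝ≥0))).pi t).indicator 1 (fun i => g i) := by
        intro g
        have hAi : ∀ i ∈ I, A i = t i := by
          intro i hi
          have : ∃ h : (i : ℝ≥0) ≤ 1, (⟨i, h⟩ : Set.Iic (1 : ℝ≥0)) ∈ I := ⟨i.2, hi⟩
          simp only [A, dif_pos this]
        by_cases hg : (fun i : Set.Iic (1 : ℝ≥0) => g i) ∈ (I : Set (Set.Iic (1 : ℝ≥0))).pi t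
        · rw [indicator_of_mem hg]
          have hall : ∀ r, g r ∈ A r := by
            intro r
            by_cases hr : ∃ h : r ≤ 1, (⟨r, h⟩ : Set.Iic (1 : ℝ≥0)) ∈ I
            · simp only [A, dif_pos hr]
              exact hg ⟨r, hr.1⟩ hr.2
            · simp only [A, dif_neg hr]
              exact mem_univ _
          rw [Finset.prod_eq_one fun r _ => indicator_of_mem (hall r) _,
            indicator_of_mem (hall 1)]
          simp
        · rw [indicator_of_notMem hg]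
          rw [Set.mem_pi] at hg
          push Not at hg
          obtain ⟨i, hi, hgi⟩ := hg
          have hgi' : g i ∉ A i := by
            rw [hAi i hi]
            exact hgi
          by_cases hi1 : (i : ℝ≥0) = 1
          · rw [hi1] at hgi'
            rw [indicator_of_notMem hgi', mul_zero]
          · rw [Finset.prod_eq_zero (i := (i : ℝ≥0)), zero_mul]
            · exact Finset.mem_erase.2 ⟨hi1, Finset.mem_image_of_mem _ hi⟩
            · exact indicator_of_notMem hgi' _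
      have h1 := fdd hB hβ hx A hA ((I.image Subtype.val).erase 1) 1 one_pos (by
        intro r hr
        obtain ⟨hr1, hr2⟩ := Finset.mem_erase.1 hr
        obtain ⟨i, -, rfl⟩ := Finset.mem_image.1 hr2
        exact lt_of_le_of_ne i.2 hr1) ((A 1).indicator 1) (measurable_ind (hA 1)) (ind_le _)
      have h2 : ∀ ω, (∏ r ∈ (I.image Subtype.val).erase 1,
          (A r).indicator (1 : ℝ → ℝ≥0∞) (x + B r ω)) *
          (ENNReal.ofReal (x + B 1 ω) * (A 1).indicator (1 : ℝ → ℝ≥0∞) (x + B 1 ω)) =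
          (X ⁻¹' ((I : Set (Set.Iic (1 : ℝ≥0))).pi t)).indicator w ω := by
        intro ω
        have h3 := key (fun r => x + B r ω)
        have h4 : (∏ r ∈ (I.image Subtype.val).erase 1,
          (A r).indicator (1 : ℝ → ℝ≥0∞) (x + B r ω)) *
          (ENNReal.ofReal (x + B 1 ω) * (A 1).indicator (1 : ℝ → ℝ≥0∞) (x + B 1 ω)) =
          w ω * ((∏ r ∈ (I.image Subtype.val).erase 1,
          (A r).indicator (1 : ℝ → ℝ≥0∞) (x + B r ω)) *
            (A 1).indicator (1 : ℝ → ℝ≥0∞) (x + B 1 ω)) := by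
          simp only [w]
          ring
        rw [h4, h3]
        by_cases h5 : X ω ∈ (I : Set (Set.Iic (1 : ℝ≥0))).pi t
        · rw [indicator_of_mem (by exact h5), indicator_of_mem (by exact h5)]
          simp
        · rw [indicator_of_notMem (by exact h5), indicator_of_notMem (by exact h5), mul_zero]
      have h3 : ∀ ω, (∏ r ∈ (I.image Subtype.val).erase 1,
          (A r).indicator (1 : ℝ → ℝ≥0∞) (nrm x β r ω)) *
          (A 1).indicator (1 : ℝ → ℝ≥0∞) (nrm x β 1 ω) =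
          (nrm1 x β ⁻¹' ((I : Set (Set.Iic (1 : ℝ≥0))).pi t)).indicator 1 ω := by
        intro ω
        rw [key (fun r => nrm x β r ω)]
        rfl
      simp only [h2, h3] at h1
      rw [Measure.map_apply hYm hCm, Measure.map_apply hXm hCm, withDensity_apply _ (hXm hCm),
        Measure.smul_apply, smul_eq_mul, ← lintegral_indicator (hXm hCm), h1,
        lintegral_indicator_one (hYm hCm)]
    have huniv : (ENNReal.ofReal x • Q).map (nrm1 x β) univ =
        ((P.restrict S).withDensity w).map X univ := by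
      refine hsq univ ⟨∅, fun _ => univ, ?_, by simp⟩
      intro i _
      simp
    have hfin : IsFiniteMeasure ((ENNReal.ofReal x • Q).map (nrm1 x β)) := by
      refine ⟨?_⟩
      rw [Measure.map_apply hYm MeasurableSet.univ, preimage_univ, Measure.smul_apply,
        measure_univ, smul_eq_mul, mul_one]
      exact ENNReal.ofReal_lt_top
    exact ext_of_generate_finite _ generateFrom_squareCylinders.symm
      (isPiSystem_squareCylinders (fun _ => MeasurableSpace.isPiSystem_measurableSet) (by simp)) hsq huniv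
  -- conclusion
  have hG : Measurable (fun f : Set.Iic (1 : ℝ≥0) → ℝ => F f / ENNReal.ofReal (f i1)) :=
    hF.div (ENNReal.measurable_ofReal.comp (measurable_pi_apply i1))
  have h1 : ∫⁻ f, F f / ENNReal.ofReal (f i1) ∂((ENNReal.ofReal x • Q).map (nrm1 x β)) =
      ENNReal.ofReal x * ∫⁻ ω, F (nrm1 x β ω) / ENNReal.ofReal (nrm x β 1 ω) ∂Q := by
    rw [lintegral_map hG hYm, lintegral_smul_measure, smul_eq_mul]
    rfl
  have h2 : ∫⁻ f, F f / ENNReal.ofReal (f i1) ∂(((P.restrict S).withDensity w).map X) =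
      ∫⁻ ω in S, F (X ω) ∂P := by
    have hGX : Measurable (fun ω => F (X ω) / ENNReal.ofReal (X ω i1)) := hG.comp hXm
    rw [lintegral_map hG hXm, lintegral_withDensity_eq_lintegral_mul _ hw hGX]
    refine setLIntegral_congr_fun hSm fun ω hω => ?_
    have h3 : 0 < x + B 1 ω := hω 1 le_rfl
    have h4 : w ω ≠ 0 := by simpa [w] using h3
    have h5 : w ω ≠ ∞ := ENNReal.ofReal_ne_top
    change w ω * (F (X ω) / w ω) = F (X ω)
    exact ENNReal.mul_div_cancel h4 h5
  rw [← h1, hmeas, h2]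

end Pool.Agent.R986.CM
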