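import Mathlib

set_option autoImplicit false

open MeasureTheory ProbabilityTheory Filter Topology Set
open scoped ENNReal NNReal

namespace Pool.Agent.R986.CM

/-- INV -/
theorem invcdf {E : Type*} [MeasurableSpace E] {h : E × ℝ → ℝ≥0∞} (hh : Measurable h) :
    ∃ Y : E × ℝ → ℝ, Measurable Y ∧ ∀ x : E, (0 < ∫⁻ y, h (x, y)) → (∫⁻ y, h (x, y) < ⊤) →
      ∀ F : ℝ → ℝ≥0∞, Measurable F →
        ∫⁻ v in Set.Icc (0 : ℝ) 1, F (Y (x, v)) =
          (∫⁻ y, F y * h (x, y)) / ∫⁻ y, h (x, y) := by
  classical
  have hH : Measurable (fun x : E => ∫⁻ y, h (x, y)) := hh.lintegral_prod_right'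
  set H : E → ℝ≥0∞ := fun x => ∫⁻ y, h (x, y) with hHdef
  have hS : MeasurableSet {x : E | 0 < H x ∧ H x < ⊤} :=
    (measurableSet_lt measurable_const hH).inter (measurableSet_lt hH measurable_const)
  have hd : Measurable (Function.uncurry fun (x : E) (y : ℝ) => h (x, y) / H x) := by
    have : (Function.uncurry fun (x : E) (y : ℝ) => h (x, y) / H x) =
        fun p => h p / H p.1 := by
      ext p; rfl
    rw [this]
    exact hh.div (hH.comp measurable_fst)
  let κ0 : Kernel E ℝ := Kernel.withDensity (Kernel.const E (volume : Measure ℝ))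
    (fun x y => h (x, y) / H x)
  have hκ0 : ∀ x, κ0 x = (volume : Measure ℝ).withDensity (fun y => h (x, y) / H x) := by
    intro x
    show Kernel.withDensity _ _ x = _
    rw [Kernel.withDensity_apply _ hd, Kernel.const_apply]
  let κ : Kernel E ℝ := Kernel.piecewise hS κ0 (Kernel.const E (Measure.dirac 0))
  have hhx : ∀ x, Measurable fun y => h (x, y) := fun x => hh.comp measurable_prodMk_left
  have hmk : IsMarkovKernel κ := by
    refine ⟨fun x => ?_⟩
    show IsProbabilityMeasure (Kernel.piecewise hS κ0 (Kernel.const E (Measure.dirac 0)) x)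
    rw [Kernel.piecewise_apply]
    by_cases hx : x ∈ {x : E | 0 < H x ∧ H x < ⊤}
    · rw [if_pos hx, hκ0]
      refine ⟨?_⟩
      rw [withDensity_apply _ MeasurableSet.univ, Measure.restrict_univ]
      simp_rw [div_eq_mul_inv]
      rw [lintegral_mul_const _ (hhx x)]
      exact ENNReal.mul_inv_cancel hx.1.ne' hx.2.ne
    · rw [if_neg hx, Kernel.const_apply]
      infer_instance
  obtain ⟨f, hf, hfκ⟩ := Kernel.exists_measurable_map_eq_unitInterval κ
  refine ⟨fun p => f p.1 (Set.projIcc 0 1 zero_le_one p.2), ?_, ?_⟩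
  · have hpr : Measurable (Set.projIcc (0 : ℝ) 1 zero_le_one) := continuous_projIcc.measurable
    exact hf.comp (measurable_fst.prodMk (hpr.comp measurable_snd))
  · intro x hx0 hxt F hF
    have hfx : Measurable (f x) := hf.comp measurable_prodMk_left
    have hx : x ∈ {x : E | 0 < H x ∧ H x < ⊤} := ⟨hx0, hxt⟩
    have h1 : ∫⁻ v in Set.Icc (0 : ℝ) 1, F (f x (Set.projIcc 0 1 zero_le_one v)) =
        ∫⁻ u : unitInterval, F (f x u) := by
      have hG : Measurable fun v : ℝ => F (f x (Set.projIcc 0 1 zero_le_one v)) :=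
        hF.comp (hfx.comp continuous_projIcc.measurable)
      have h2 : ((volume : Measure unitInterval).map Subtype.val) =
          (volume : Measure ℝ).restrict (Set.Icc 0 1) :=
        map_comap_subtype_coe measurableSet_Icc _
      rw [← h2, lintegral_map hG measurable_subtype_coe]
      refine lintegral_congr fun u => ?_
      rw [Set.projIcc_val]
    show ∫⁻ v in Set.Icc (0 : ℝ) 1, F (f x (Set.projIcc 0 1 zero_le_one v)) = _
    rw [h1]
    have h3 : ∫⁻ u : unitInterval, F (f x u) = ∫⁻ y, F y ∂(κ x) := by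
      rw [← hfκ x, lintegral_map hF hfx]
    rw [h3]
    have h4 : κ x = (volume : Measure ℝ).withDensity (fun y => h (x, y) / H x) := by
      show Kernel.piecewise hS κ0 (Kernel.const E (Measure.dirac 0)) x = _
      rw [Kernel.piecewise_apply, if_pos hx, hκ0]
    have hm : Measurable fun y => h (x, y) / H x := (hhx x).div measurable_const
    rw [h4, lintegral_withDensity_eq_lintegral_mul _ hm hF]
    have h5 : ∀ y, ((fun y => h (x, y) / H x) * F) y = (F y * h (x, y)) * (H x)⁻¹ := by
      intro y
      simp only [Pi.mul_apply, div_eq_mul_inv]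
      ring
    simp_rw [h5]
    have hm2 : Measurable fun y => F y * h (x, y) := hF.mul (hhx x)
    rw [lintegral_mul_const _ hm2, ← div_eq_mul_inv]

end Pool.Agent.R986.CM
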