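import Mathlib
import Pool.Agent.R986.CM.Defs

/-!
# Project CM (MP_0f8574_pr), piece LB
-/

open MeasureTheory ProbabilityTheory Filter Topology Set
open scoped ENNReal NNReal

namespace Pool.Agent.R986.CM

open Pool.Agent.R974.Span

namespace LBx

lemma lst_mem {w : ℝ≥0 → ℝ} (hw : Continuous w) {y : ℝ} (hy : ∃ t ≤ (1 : ℝ≥0), w t ≤ y) :
    lst w y ≤ 1 ∧ w (lst w y) ≤ y := by
  have hcl : IsClosed {t : ℝ≥0 | t ≤ 1 ∧ w t ≤ y} :=
    (isClosed_le continuous_id continuous_const).inter (isClosed_le hw continuous_const)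
  obtain ⟨t, ht⟩ := hy
  exact hcl.csSup_mem ⟨t, ht⟩ ⟨1, fun s hs => hs.1⟩

lemma lst_lt {w : ℝ≥0 → ℝ} (hw : Continuous w) {y : ℝ} (hy : y ∈ Lv w) : lst w y < 1 := by
  obtain ⟨h1, h2, _⟩ := hy
  have h3 := lst_mem hw h2
  refine lt_of_le_of_ne h3.1 fun h => ?_
  rw [h] at h3
  linarith [h3.2]

lemma lst_mono {w : ℝ≥0 → ℝ} {y y' : ℝ} (hy' : ∃ t ≤ (1 : ℝ≥0), w t ≤ y')
    (h : y' ≤ y) : lst w y' ≤ lst w y := by
  obtain ⟨t, ht⟩ := hy'
  exact csSup_le_csSup ⟨1, fun s hs => hs.1⟩ ⟨t, ht⟩ fun s hs => ⟨hs.1, hs.2.trans h⟩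

lemma key {w : ℝ≥0 → ℝ} (hw : Continuous w) {y y' : ℝ} (hy : y ∈ Lv w) (hy' : y' ∈ Lv w) :
    y ≤ w (lst w y' + 1) := by
  rcases le_total y' y with h | h
  · refine (hy.2.2 (lst w y' + 1) ?_ ?_).le
    · exact (lst_lt hw hy).trans_le (by simp)
    · exact add_le_add_left (lst_mono hy'.2.1 h) 1
  · refine h.trans (hy'.2.2 (lst w y' + 1) ?_ le_rfl).le
    exact lt_add_of_pos_right _ one_pos

lemma qq_anti {r r' : ℝ} (h0 : 0 < r) (h : r ≤ r') : qq r' ≤ qq r := by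
  unfold qq
  refine min_le_min ?_ ?_
  · exact inv_anti₀ (Real.sqrt_pos.2 h0) (Real.sqrt_le_sqrt h)
  · exact inv_anti₀ (by positivity) (pow_le_pow_left₀ h0.le h 2)

lemma meas_qq : Measurable qq := by
  unfold qq
  fun_prop

lemma int1 : ∫⁻ r in Ioc (0 : ℝ) 1, ENNReal.ofReal ((√r)⁻¹) = 2 := by
  have hint : IntervalIntegrable (fun r : ℝ => r ^ (-(1 / 2) : ℝ)) volume 0 1 :=
    intervalIntegral.intervalIntegrable_rpow' (by norm_num)
  have hI : IntegrableOn (fun r : ℝ => r ^ (-(1 / 2) : ℝ)) (Ioc 0 1) :=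
    (intervalIntegrable_iff_integrableOn_Ioc_of_le zero_le_one).1 hint
  have h1 : ∫⁻ r in Ioc (0 : ℝ) 1, ENNReal.ofReal ((√r)⁻¹) =
      ∫⁻ r in Ioc (0 : ℝ) 1, ENNReal.ofReal (r ^ (-(1 / 2) : ℝ)) := by
    refine setLIntegral_congr_fun measurableSet_Ioc fun r hr => ?_
    rw [Real.rpow_neg hr.1.le, ← Real.sqrt_eq_rpow]
  rw [h1, ← ofReal_integral_eq_lintegral_ofReal hI]
  · rw [← intervalIntegral.integral_of_le zero_le_one, integral_rpow (Or.inl (by norm_num))]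
    norm_num
  · refine (ae_restrict_iff' measurableSet_Ioc).2 (Eventually.of_forall fun r hr => ?_)
    exact Real.rpow_nonneg hr.1.le _

lemma int2 : ∫⁻ r in Ioi (1 : ℝ), ENNReal.ofReal ((r ^ 2)⁻¹) = 1 := by
  have hI : IntegrableOn (fun r : ℝ => r ^ (-2 : ℝ)) (Ioi 1) :=
    integrableOn_Ioi_rpow_of_lt (by norm_num) one_pos
  have h1 : ∫⁻ r in Ioi (1 : ℝ), ENNReal.ofReal ((r ^ 2)⁻¹) =
      ∫⁻ r in Ioi (1 : ℝ), ENNReal.ofReal (r ^ (-2 : ℝ)) := by
    refine setLIntegral_congr_fun measurableSet_Ioi fun r hr => ?_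
    have hr0 : (0 : ℝ) ≤ r := zero_le_one.trans (le_of_lt hr)
    rw [Real.rpow_neg hr0, Real.rpow_two]
  rw [h1, ← ofReal_integral_eq_lintegral_ofReal hI]
  · rw [integral_Ioi_rpow_of_lt (by norm_num) one_pos]
    norm_num
  · refine (ae_restrict_iff' measurableSet_Ioi).2 (Eventually.of_forall fun r hr => ?_)
    exact Real.rpow_nonneg (zero_le_one.trans (le_of_lt hr)) _

lemma int_qq : ∫⁻ r in Ioi (0 : ℝ), ENNReal.ofReal (qq r) ≤ 3 := by
  have h : Ioi (0 : ℝ) = Ioc 0 1 ∪ Ioi 1 := (Ioc_union_Ioi_eq_Ioi zero_le_one).symm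
  rw [h]
  refine (lintegral_union_le _ _ _).trans ?_
  have h1 : ∫⁻ r in Ioc (0 : ℝ) 1, ENNReal.ofReal (qq r) ≤ 2 := by
    rw [← int1]
    exact lintegral_mono fun r => ENNReal.ofReal_le_ofReal (min_le_left _ _)
  have h2 : ∫⁻ r in Ioi (1 : ℝ), ENNReal.ofReal (qq r) ≤ 1 := by
    rw [← int2]
    exact lintegral_mono fun r => ENNReal.ofReal_le_ofReal (min_le_right _ _)
  calc _ ≤ (2 : ℝ≥0∞) + 1 := add_le_add h1 h2
    _ = 3 := by norm_num

end LBx

open LBx in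
/-- LB -/
theorem lb {w : ℝ≥0 → ℝ} (hw : Continuous w) :
    ∫⁻ y in Lv w, ENNReal.ofReal (qq (win w y 1)) ≤ 3 := by
  rcases (Lv w).eq_empty_or_nonempty with he | hne
  · rw [he]
    simp
  have hbdd : BddAbove (Lv w) := ⟨w 1, fun y hy => hy.1.le⟩
  set b : ℝ := sSup (Lv w) with hb
  have hle : ∀ y ∈ Lv w, b - y ≤ win w y 1 := by
    intro y hy
    have : b ≤ w (lst w y + 1) := csSup_le hne fun z hz => key hw hz hy
    unfold win
    linarith
  have hnull : ∫⁻ y in Lv w, ENNReal.ofReal (qq (win w y 1)) =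
      ∫⁻ y in Lv w \ {b}, ENNReal.ofReal (qq (win w y 1)) := by
    refine (setLIntegral_congr ?_).symm
    exact sdiff_null_ae_eq_self (by simp)
  rw [hnull]
  have hg : Measurable fun y : ℝ => ENNReal.ofReal (qq (b - y)) :=
    (meas_qq.comp (measurable_const.sub measurable_id)).ennreal_ofReal
  calc ∫⁻ y in Lv w \ {b}, ENNReal.ofReal (qq (win w y 1))
      ≤ ∫⁻ y in Lv w \ {b}, ENNReal.ofReal (qq (b - y)) := by
        refine setLIntegral_mono hg fun y hy => ENNReal.ofReal_le_ofReal ?_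
        have hyb : y < b := lt_of_le_of_ne (le_csSup hbdd hy.1) hy.2
        exact qq_anti (by linarith) (hle y hy.1)
    _ ≤ ∫⁻ y in Iio b, ENNReal.ofReal (qq (b - y)) := by
        refine lintegral_mono_set fun y hy => ?_
        exact lt_of_le_of_ne (le_csSup hbdd hy.1) hy.2
    _ = ∫⁻ y, (Ioi (0 : ℝ)).indicator (fun r => ENNReal.ofReal (qq r)) (b - y) := by
        rw [← lintegral_indicator measurableSet_Iio]
        refine lintegral_congr fun y => ?_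
        by_cases hy : y < b
        · rw [indicator_of_mem (show y ∈ Iio b from hy),
            indicator_of_mem (show b - y ∈ Ioi (0 : ℝ) from sub_pos.2 hy)]
        · rw [indicator_of_notMem (show y ∉ Iio b from hy),
            indicator_of_notMem (show b - y ∉ Ioi (0 : ℝ) from fun h => hy (sub_pos.1 h))]
    _ = ∫⁻ r, (Ioi (0 : ℝ)).indicator (fun r => ENNReal.ofReal (qq r)) r :=
        lintegral_sub_left_eq_self _ b
    _ = ∫⁻ r in Ioi (0 : ℝ), ENNReal.ofReal (qq r) := lintegral_indicator measurableSet_Ioi _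
    _ ≤ 3 := int_qq

end Pool.Agent.R986.CM
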