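import Pool.Agent.R986.CM.Defs

/-!
# MOM: moments of the norm of a standard Gaussian vector in `ℝ³` (MP_0f8574_pr)
-/

open MeasureTheory ProbabilityTheory Filter Topology Set
open scoped ENNReal NNReal

namespace Pool.Agent.R986.CM

open Pool.Agent.R974.Span

variable {Ω : Type*} [MeasurableSpace Ω] {P : Measure Ω} {B : ℝ≥0 → Ω → ℝ}
variable {Ω' : Type*} [MeasurableSpace Ω'] {Q : Measure Ω'} {β : Fin 3 → ℝ≥0 → Ω' → ℝ}

namespace Mom

/-- Laplace transform of the square of a standard Gaussian variable -/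
lemma one (s : ℝ) (hs : -1 < s) :
    ∫⁻ x, ENNReal.ofReal (Real.exp (-(s * x ^ 2 / 2))) ∂(gaussianReal 0 1)
      = ENNReal.ofReal ((√(1 + s))⁻¹) := by
  have hs1 : 0 < 1 + s := by linarith
  rw [gaussianReal_of_var_ne_zero 0 one_ne_zero,
    lintegral_withDensity_eq_lintegral_mul _ (measurable_gaussianPDF 0 1) (by fun_prop)]
  have h1 : ∀ x : ℝ, (gaussianPDF 0 1 * fun x : ℝ => ENNReal.ofReal (Real.exp (-(s * x ^ 2 / 2)))) x
      = ENNReal.ofReal ((√(2 * Real.pi))⁻¹ * Real.exp (-((1 + s) / 2) * x ^ 2)) := by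
    intro x
    rw [Pi.mul_apply, gaussianPDF, ← ENNReal.ofReal_mul (gaussianPDFReal_nonneg _ _ _),
      gaussianPDFReal]
    congr 1
    simp only [NNReal.coe_one, mul_one, sub_zero]
    rw [mul_assoc, ← Real.exp_add]
    congr 2
    ring
  rw [lintegral_congr h1, ← ofReal_integral_eq_lintegral_ofReal
    ((integrable_exp_neg_mul_sq (by linarith)).const_mul _)
    (Filter.Eventually.of_forall fun x => by positivity), integral_const_mul, integral_gaussian]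
  congr 1
  rw [← Real.sqrt_inv, ← Real.sqrt_inv, ← Real.sqrt_mul (by positivity)]
  congr 1
  have := Real.pi_pos
  field_simp

omit [MeasurableSpace Ω'] in
lemma sq_nrm (ω : Ω') : (nrm 0 β 1 ω) ^ 2 = (β 0 1 ω) ^ 2 + (β 1 1 ω) ^ 2 + (β 2 1 ω) ^ 2 := by
  unfold nrm
  rw [Real.sq_sqrt (by positivity), zero_add]

omit [MeasurableSpace Ω'] in
lemma nrm_nonneg (ω : Ω') : 0 ≤ nrm 0 β 1 ω := Real.sqrt_nonneg _

lemma nrm_meas (hβ : B3 β Q) : Measurable (nrm 0 β 1) := by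
  have h0 := (hβ.gbm 0).meas 1
  have h1 := (hβ.gbm 1).meas 1
  have h2 := (hβ.gbm 2).meas 1
  unfold nrm
  fun_prop

/-- Laplace transform of the square of the norm -/
lemma three (hβ : B3 β Q) (s : ℝ) (hs : -1 < s) :
    ∫⁻ ω, ENNReal.ofReal (Real.exp (-(s * (nrm 0 β 1 ω) ^ 2 / 2))) ∂Q
      = ENNReal.ofReal ((1 + s) ^ (-(3 / 2) : ℝ)) := by
  have hs1 : 0 < 1 + s := by linarith
  have hφ : Measurable (fun x : ℝ => ENNReal.ofReal (Real.exp (-(s * x ^ 2 / 2)))) := by fun_prop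
  have hind : iIndepFun (fun (i : Fin 3) ω => ENNReal.ofReal (Real.exp (-(s * (β i 1 ω) ^ 2 / 2)))) Q :=
    hβ.ind.comp (fun (_ : Fin 3) (w : ℝ≥0 → ℝ) => ENNReal.ofReal (Real.exp (-(s * (w 1) ^ 2 / 2))))
      (fun _ => hφ.comp (measurable_pi_apply _))
  have h1 := lintegral_prod_eq_prod_lintegral_of_indepFun Finset.univ _ hind
    (fun i => hφ.comp ((hβ.gbm i).meas 1))
  have h2 : ∀ i : Fin 3, ∫⁻ ω, ENNReal.ofReal (Real.exp (-(s * (β i 1 ω) ^ 2 / 2))) ∂Q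
      = ENNReal.ofReal ((√(1 + s))⁻¹) := by
    intro i
    rw [← one s hs]
    have h3 : Q.map (β i 1) = gaussianReal 0 1 := ((hβ.gbm i).pre.hasLaw_eval 1).map_eq
    rw [← h3, lintegral_map hφ ((hβ.gbm i).meas 1)]
  rw [Finset.prod_congr rfl fun i _ => h2 i] at h1
  simp only [Finset.prod_const, Finset.card_univ, Fintype.card_fin] at h1
  have h4 : ∀ ω, ∏ i : Fin 3, ENNReal.ofReal (Real.exp (-(s * (β i 1 ω) ^ 2 / 2)))
      = ENNReal.ofReal (Real.exp (-(s * (nrm 0 β 1 ω) ^ 2 / 2))) := by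
    intro ω
    rw [Fin.prod_univ_three, ← ENNReal.ofReal_mul (by positivity),
      ← ENNReal.ofReal_mul (by positivity), ← Real.exp_add, ← Real.exp_add, sq_nrm]
    congr 2
    ring
  rw [← lintegral_congr h4, h1, ← ENNReal.ofReal_pow (by positivity)]
  congr 1
  rw [Real.sqrt_eq_rpow, ← Real.rpow_neg hs1.le, ← Real.rpow_natCast, ← Real.rpow_mul hs1.le]
  norm_num

/-- the Gamma integral -/
lemma gam (a R : ℝ) (ha : 0 < a) (hR : 0 < R) :
    ∫⁻ s in Ioi (0 : ℝ), ENNReal.ofReal (s ^ (a - 1)) * ENNReal.ofReal (Real.exp (-(s * R ^ 2 / 2)))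
      = ENNReal.ofReal (R ^ (-(2 * a))) * ENNReal.ofReal (2 ^ a * Real.Gamma a) := by
  have hr : 0 < R ^ 2 / 2 := by positivity
  have h1 := Real.integral_rpow_mul_exp_neg_mul_Ioi ha hr
  have hG : 0 < Real.Gamma a := Real.Gamma_pos_of_pos ha
  have hv : 0 < (1 / (R ^ 2 / 2)) ^ a * Real.Gamma a := by positivity
  have hint : IntegrableOn (fun t : ℝ => t ^ (a - 1) * Real.exp (-(R ^ 2 / 2 * t))) (Ioi 0) := by
    by_contra h
    rw [integral_undef h] at h1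
    exact hv.ne h1
  have h2 : ∫⁻ s in Ioi (0 : ℝ), ENNReal.ofReal (s ^ (a - 1)) * ENNReal.ofReal (Real.exp (-(s * R ^ 2 / 2)))
      = ∫⁻ s in Ioi (0 : ℝ), ENNReal.ofReal (s ^ (a - 1) * Real.exp (-(R ^ 2 / 2 * s))) := by
    refine setLIntegral_congr_fun measurableSet_Ioi fun s hs => ?_
    have hs' : (0 : ℝ) < s := hs
    rw [← ENNReal.ofReal_mul (by positivity)]
    congr 3
    ring
  rw [h2, ← ofReal_integral_eq_lintegral_ofReal hint, h1, ← ENNReal.ofReal_mul (by positivity)]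
  · congr 1
    rw [← mul_assoc]
    congr 1
    rw [show (1 / (R ^ 2 / 2)) = 2 * (R ^ 2)⁻¹ by field_simp, Real.mul_rpow (by norm_num) (by positivity),
      Real.rpow_neg hR.le, mul_comm, Real.inv_rpow (by positivity)]
    congr 2
    rw [← Real.rpow_natCast R 2, ← Real.rpow_mul hR.le]
    norm_num
  · rw [Filter.EventuallyLE, ae_restrict_iff' measurableSet_Ioi]
    exact Filter.Eventually.of_forall fun s hs => by
      have hs' : (0 : ℝ) < s := hs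
      change (0 : ℝ) ≤ _
      positivity

lemma pos_ae (hβ : B3 β Q) : ∀ᵐ ω ∂Q, 0 < nrm 0 β 1 ω := by
  have h1 := eval_noatom (hβ.gbm 0) (c := 1) one_pos 0
  have h2 : ∀ᵐ ω ∂Q, β 0 1 ω ≠ 0 := by
    rw [ae_iff]
    simpa using h1
  filter_upwards [h2] with ω hω
  apply Real.sqrt_pos.2
  have : 0 < (β 0 1 ω) ^ 2 := by positivity
  rw [zero_add]
  positivity

/-- negative moments -/
lemma neg (hβ : B3 β Q) (a : ℝ) (ha : 0 < a) :
    (∫⁻ ω, ENNReal.ofReal ((nrm 0 β 1 ω) ^ (-(2 * a) : ℝ)) ∂Q) * ENNReal.ofReal (2 ^ a * Real.Gamma a)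
      = ∫⁻ s in Ioi (0 : ℝ), ENNReal.ofReal (s ^ (a - 1)) * ENNReal.ofReal ((1 + s) ^ (-(3 / 2) : ℝ)) := by
  have := (hβ.gbm 0).prob
  have hm := nrm_meas hβ
  have h1 : (∫⁻ ω, ENNReal.ofReal ((nrm 0 β 1 ω) ^ (-(2 * a) : ℝ)) ∂Q) *
      ENNReal.ofReal (2 ^ a * Real.Gamma a) = ∫⁻ ω, (∫⁻ s in Ioi (0 : ℝ), ENNReal.ofReal (s ^ (a - 1)) *
        ENNReal.ofReal (Real.exp (-(s * (nrm 0 β 1 ω) ^ 2 / 2)))) ∂Q := by
    rw [← lintegral_mul_const _ (by fun_prop)]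
    refine lintegral_congr_ae ?_
    filter_upwards [pos_ae hβ] with ω hω
    rw [gam a _ ha hω]
  rw [h1, lintegral_lintegral_swap (by
    apply Measurable.aemeasurable
    fun_prop)]
  refine setLIntegral_congr_fun measurableSet_Ioi fun s hs => ?_
  have hs' : (0 : ℝ) < s := hs
  rw [lintegral_const_mul _ (by fun_prop), three hβ s (by linarith)]

lemma int32 : ∫⁻ s in Ioi (0 : ℝ), ENNReal.ofReal ((1 + s) ^ (-(3 / 2) : ℝ)) = ENNReal.ofReal 2 := by
  have hint : IntegrableOn (fun s : ℝ => (s + 1) ^ (-(3 / 2) : ℝ)) (Ioi 0) :=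
    integrableOn_add_rpow_Ioi_of_lt (by norm_num) (by norm_num)
  have h1 : ∫ s in Ioi (0 : ℝ), (s + 1) ^ (-(3 / 2) : ℝ) = 0 - (-2 * (0 + 1) ^ (-(1 / 2) : ℝ)) := by
    refine integral_Ioi_of_hasDerivAt_of_tendsto' (f := fun s : ℝ => -2 * (s + 1) ^ (-(1 / 2) : ℝ))
      (m := 0) ?_ hint ?_
    · intro x hx
      have hx' : (0 : ℝ) ≤ x := hx
      have h2 := (((hasDerivAt_id x).add_const (1 : ℝ)).rpow_const (p := (-(1 / 2) : ℝ))
        (Or.inl (by simp only [id_eq]; positivity))).const_mul (-2 : ℝ)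
      have h3 : (-2 : ℝ) * (1 * -(1 / 2) * (id x + 1) ^ (-(1 / 2) - 1 : ℝ)) = (x + 1) ^ (-(3 / 2) : ℝ) := by
        rw [show (-(1 / 2) - 1 : ℝ) = -(3 / 2) by norm_num, id_eq]
        ring
      rw [h3] at h2
      exact h2
    · have h3 : Tendsto (fun s : ℝ => (s + 1) ^ (-(1 / 2) : ℝ)) atTop (𝓝 0) :=
        (tendsto_rpow_neg_atTop (by norm_num : (0 : ℝ) < 1 / 2)).comp
          (tendsto_atTop_add_const_right _ 1 tendsto_id)
      simpa using h3.const_mul (-2)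
  have h2 : ∫⁻ s in Ioi (0 : ℝ), ENNReal.ofReal ((1 + s) ^ (-(3 / 2) : ℝ)) =
      ∫⁻ s in Ioi (0 : ℝ), ENNReal.ofReal ((s + 1) ^ (-(3 / 2) : ℝ)) := by
    simp only [add_comm]
  rw [h2, ← ofReal_integral_eq_lintegral_ofReal hint, h1]
  · norm_num
  · rw [Filter.EventuallyLE, ae_restrict_iff' measurableSet_Ioi]
    exact Filter.Eventually.of_forall fun s hs => by
      have hs' : (0 : ℝ) < s := hs
      change (0 : ℝ) ≤ _
      positivity

end Mom

open Mom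

/-- MOM -/
theorem mom (hβ : B3 β Q) :
    ∫⁻ ω, ENNReal.ofReal ((nrm 0 β 1 ω) ^ (-2 : ℝ)) ∂Q = 1 ∧
    ∫⁻ ω, ENNReal.ofReal ((nrm 0 β 1 ω) ^ (-(5 / 2) : ℝ)) ∂Q < ⊤ ∧
    ∫⁻ ω, ENNReal.ofReal ((nrm 0 β 1 ω) ^ (3 : ℝ)) ∂Q < ⊤ ∧
    ∀ᵐ ω ∂Q, 0 < nrm 0 β 1 ω := by
  have := (hβ.gbm 0).prob
  refine ⟨?_, ?_, ?_, pos_ae hβ⟩
  · have h1 := neg hβ 1 one_pos
    have h2 : ∫⁻ s in Ioi (0 : ℝ), ENNReal.ofReal (s ^ ((1 : ℝ) - 1)) *
        ENNReal.ofReal ((1 + s) ^ (-(3 / 2) : ℝ)) = ENNReal.ofReal 2 := by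
      rw [← int32]
      simp
    rw [h2] at h1
    simp only [mul_one, Real.Gamma_one, Real.rpow_one] at h1
    have h3 : ENNReal.ofReal 2 ≠ 0 := by simp
    have h4 : ENNReal.ofReal 2 ≠ ⊤ := ENNReal.ofReal_ne_top
    exact (ENNReal.mul_left_inj h3 h4).1 (by rw [h1, one_mul])
  · have h1 := neg hβ (5 / 4) (by norm_num)
    have h2 : ∫⁻ s in Ioi (0 : ℝ), ENNReal.ofReal (s ^ ((5 / 4 : ℝ) - 1)) *
        ENNReal.ofReal ((1 + s) ^ (-(3 / 2) : ℝ)) < ⊤ := by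
      have hint : IntegrableOn (fun s : ℝ => (s + 1) ^ (-(5 / 4) : ℝ)) (Ioi 0) :=
        integrableOn_add_rpow_Ioi_of_lt (by norm_num) (by norm_num)
      refine lt_of_le_of_lt ?_ hint.lintegral_lt_top
      refine setLIntegral_mono' measurableSet_Ioi fun s hs => ?_
      have hs' : (0 : ℝ) < s := hs
      rw [← ENNReal.ofReal_mul (by positivity)]
      apply ENNReal.ofReal_le_ofReal
      calc s ^ ((5 / 4 : ℝ) - 1) * (1 + s) ^ (-(3 / 2) : ℝ)
          ≤ (s + 1) ^ ((5 / 4 : ℝ) - 1) * (s + 1) ^ (-(3 / 2) : ℝ) := by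
            rw [add_comm 1 s]
            apply mul_le_mul_of_nonneg_right _ (by positivity)
            exact Real.rpow_le_rpow hs'.le (by linarith) (by norm_num)
        _ = (s + 1) ^ (-(5 / 4) : ℝ) := by
            rw [← Real.rpow_add (by linarith)]
            norm_num
    rw [← h1] at h2
    have hG : 0 < Real.Gamma (5 / 4) := Real.Gamma_pos_of_pos (by norm_num)
    have h3 : ENNReal.ofReal (2 ^ (5 / 4 : ℝ) * Real.Gamma (5 / 4)) ≠ 0 := by
      rw [Ne, ENNReal.ofReal_eq_zero, not_le]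
      positivity
    have h4 := ENNReal.lt_top_of_mul_ne_top_left h2.ne h3
    have h5 : (-(2 * (5 / 4)) : ℝ) = -(5 / 2) := by norm_num
    rwa [h5] at h4
  · have h1 : ∀ ω, ENNReal.ofReal ((nrm 0 β 1 ω) ^ (3 : ℝ)) ≤
        16 * ENNReal.ofReal (Real.exp (-((-(1 / 2)) * (nrm 0 β 1 ω) ^ 2 / 2))) := by
      intro ω
      have hR := nrm_nonneg (β := β) ω
      generalize nrm 0 β 1 ω = R at *
      have h2 : (16 : ℝ≥0∞) = ENNReal.ofReal 16 := by simp
      rw [h2, ← ENNReal.ofReal_mul (by norm_num)]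
      apply ENNReal.ofReal_le_ofReal
      have h3 := Real.quadratic_le_exp_of_nonneg (x := R ^ 2 / 4) (by positivity)
      have h4 : (-((-(1 / 2)) * R ^ 2 / 2) : ℝ) = R ^ 2 / 4 := by ring
      rw [h4]
      have h5 : R ^ (3 : ℝ) = R ^ 3 := by exact_mod_cast Real.rpow_natCast R 3
      rw [h5]
      nlinarith [sq_nonneg (R - 1), sq_nonneg (R ^ 2 - R), sq_nonneg R, mul_nonneg hR (sq_nonneg (R - 1))]
    refine lt_of_le_of_lt (lintegral_mono h1) ?_
    have hm := nrm_meas hβ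
    rw [lintegral_const_mul _ (by fun_prop), three hβ _ (by norm_num)]
    exact ENNReal.mul_lt_top (by simp) ENNReal.ofReal_lt_top

end Pool.Agent.R986.CM
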