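import Pool.Agent.R986.CM.Defs

/-!
# Windows of Brownian motion: the deterministic path lemma
-/

open MeasureTheory ProbabilityTheory Filter Topology Set
open scoped ENNReal NNReal

namespace Pool.Agent.R986.CM

open Pool.Agent.R974.Span

namespace PathLimAux

lemma gr_lt {m i j : ℕ} : gr m i < gr m j ↔ i < j := by
  unfold gr
  rw [div_lt_div_iff_of_pos_right (by positivity)]
  exact Nat.cast_lt

lemma gr_le_one {m i : ℕ} : gr m i ≤ 1 ↔ i ≤ 2 ^ m := by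
  unfold gr
  rw [div_le_one (by positivity)]
  exact_mod_cast Iff.rfl

variable {w : ℝ≥0 → ℝ} {y : ℝ}

lemma bdd : BddAbove {t : ℝ≥0 | t ≤ 1 ∧ w t ≤ y} := ⟨1, fun _ ht => ht.1⟩

lemma le_lst {t : ℝ≥0} (h1 : t ≤ 1) (h2 : w t ≤ y) : t ≤ lst w y := le_csSup bdd ⟨h1, h2⟩

lemma lst_mem (hw : Continuous w) (h : ∃ t ≤ (1 : ℝ≥0), w t ≤ y) :
    lst w y ≤ 1 ∧ w (lst w y) ≤ y := by
  have hc : IsClosed {t : ℝ≥0 | t ≤ 1 ∧ w t ≤ y} :=
    (isClosed_le continuous_id continuous_const).inter (isClosed_le hw continuous_const)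
  obtain ⟨t, h1, h2⟩ := h
  exact hc.csSup_mem ⟨t, h1, h2⟩ bdd

lemma gt_of_lst_lt {s : ℝ≥0} (h1 : lst w y < s) (h2 : s ≤ 1) : y < w s := by
  by_contra h
  exact absurd (le_lst h2 (not_lt.1 h)) (not_le.2 h1)

lemma lst_lt_one (hw : Continuous w) (h : ∃ t ≤ (1 : ℝ≥0), w t ≤ y) (h1 : y < w 1) :
    lst w y < 1 := by
  have hm := lst_mem hw h
  refine lt_of_le_of_ne hm.1 fun he => ?_
  rw [he] at hm
  exact absurd hm.2 (not_le.2 h1)

lemma w_lst (hw : Continuous w) (h : ∃ t ≤ (1 : ℝ≥0), w t ≤ y) (h1 : y < w 1) :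
    w (lst w y) = y := by
  have hm := lst_mem hw h
  refine le_antisymm hm.2 ?_
  have hl := lst_lt_one hw h h1
  have ht : Tendsto w (𝓝[>] (lst w y)) (𝓝 (w (lst w y))) :=
    hw.continuousAt.tendsto.mono_left nhdsWithin_le_nhds
  refine ge_of_tendsto ht ?_
  filter_upwards [Ioc_mem_nhdsGT hl] with s hs
  exact (gt_of_lst_lt hs.1 hs.2).le

lemma first (hw : Continuous w) {e : ℝ} {m i : ℕ} (hi : i ≤ 2 ^ m) (hD : Dn w y e m i)
    (hS : St w y (gr m i)) :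
    y ∈ Lv w ∧ lst w y < gr m i ∧ ∀ k, k < i → lst w y < gr m k → w (gr m k) < y + e := by
  obtain ⟨h1, j, hj, hj2, hj3⟩ := hD
  have hi1 : gr m i ≤ 1 := gr_le_one.2 hi
  have hji : gr m j < gr m i := gr_lt.2 hj
  have hj1 : gr m j ≤ 1 := hji.le.trans hi1
  have hex : ∃ t ≤ (1 : ℝ≥0), w t ≤ y := ⟨gr m j, hj1, hj2⟩
  have hkey : ∀ s, gr m i ≤ s → s ≤ gr m i + 1 → y < w s := by
    intro s h2 h3
    have h4 := hS (s - gr m i) (tsub_le_iff_left.2 h3)
    rwa [add_tsub_cancel_of_le h2] at h4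
  have hy1 : y < w 1 := hkey 1 hi1 le_add_self
  have hm := lst_mem hw hex
  have hlt : lst w y < gr m i := by
    by_contra h
    have h' := not_lt.1 h
    have h3 := hkey _ h' (hm.1.trans le_add_self)
    exact absurd hm.2 (not_le.2 h3)
  refine ⟨⟨hy1, hex, fun s h2 h3 => ?_⟩, hlt, fun k hk hk2 => ?_⟩
  · rcases le_or_gt s 1 with h4 | h4
    · exact gt_of_lst_lt h2 h4
    · exact hkey s (hi1.trans h4.le) (h3.trans (add_le_add_left hlt.le 1))
  · refine hj3 k ?_ hk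
    exact gr_lt.1 (lt_of_le_of_lt (le_lst hj1 hj2) hk2)

lemma unique (hw : Continuous w) {e : ℝ} {m i i' : ℕ} (hi : i ≤ 2 ^ m) (hi' : i' ≤ 2 ^ m)
    (hD : Dn w y e m i) (hS : St w y (gr m i)) (hD' : Dn w y e m i') (hS' : St w y (gr m i')) :
    i = i' := by
  have h1 := first hw hi hD hS
  have h2 := first hw hi' hD' hS'
  rcases lt_trichotomy i i' with h | h | h
  · have := h2.2.2 i h h1.2.1
    exact absurd hD.1 (not_le.2 this)
  · exact h
  · have := h1.2.2 i' h h2.2.1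
    exact absurd hD'.1 (not_le.2 this)

/-- grid points in an open set -/
lemma exists_grid {U : Set ℝ≥0} (hU : IsOpen U) (hne : U.Nonempty) :
    ∃ m0 : ℕ, ∀ m ≥ m0, ∃ j : ℕ, gr m j ∈ U := by
  obtain ⟨x, hx⟩ := hne
  obtain ⟨ρ, hρ, hb⟩ := Metric.isOpen_iff.1 hU x hx
  obtain ⟨m0, hm0⟩ := exists_pow_lt_of_lt_one hρ (show (1 / 2 : ℝ) < 1 by norm_num)
  refine ⟨m0, fun m hm => ⟨⌊(x : ℝ) * 2 ^ m⌋₊, hb ?_⟩⟩
  have h2 : (0 : ℝ) < 2 ^ m := by positivity
  have h3 : ((1 / 2 : ℝ)) ^ m ≤ (1 / 2) ^ m0 := pow_le_pow_of_le_one (by norm_num) (by norm_num) hm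
  have h4 : (⌊(x : ℝ) * 2 ^ m⌋₊ : ℝ) ≤ (x : ℝ) * 2 ^ m :=
    Nat.floor_le (mul_nonneg x.2 h2.le)
  have h5 : (x : ℝ) * 2 ^ m < (⌊(x : ℝ) * 2 ^ m⌋₊ : ℝ) + 1 := Nat.lt_floor_add_one _
  rw [Metric.mem_ball, NNReal.dist_eq]
  have e1 : ((gr m ⌊(x : ℝ) * 2 ^ m⌋₊ : ℝ≥0) : ℝ) = (⌊(x : ℝ) * 2 ^ m⌋₊ : ℝ) / 2 ^ m := by
    unfold gr
    push_cast
    rfl
  rw [e1]
  have h6 : (⌊(x : ℝ) * 2 ^ m⌋₊ : ℝ) / 2 ^ m ≤ x := (div_le_iff₀ h2).2 h4
  have h7 : (x : ℝ) < (⌊(x : ℝ) * 2 ^ m⌋₊ : ℝ) / 2 ^ m + (1 / 2) ^ m := by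
    have e2 : (⌊(x : ℝ) * 2 ^ m⌋₊ : ℝ) / 2 ^ m + (1 / 2) ^ m =
        ((⌊(x : ℝ) * 2 ^ m⌋₊ : ℝ) + 1) / 2 ^ m := by
      rw [one_div, inv_pow]
      ring
    rw [e2, lt_div_iff₀ h2]
    exact h5
  rw [abs_lt]
  constructor <;> linarith

end PathLimAux

open PathLimAux

open Classical in
/-- G2 -/
theorem path_lim {w : ℝ≥0 → ℝ} (hw : Continuous w) (h0 : w 0 = 0) {y : ℝ} (hy : y ≠ 0)
    (hgen : ∀ t : ℝ≥0, 0 < t → w t = y → (∀ s, t < s → s ≤ 1 → y < w s) → t < 1 →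
      ∀ ε > 0, ∃ s : ℝ≥0, s < t ∧ (t : ℝ) - s < ε ∧ w s < y)
    {n : ℕ} (u : Fin n → ℝ≥0) (hu : ∀ i, u i ≤ 1) {φ : (Fin n → ℝ) → ℝ} (hφ : Continuous φ) :
    (∀ e > 0, ∀ m i i' : ℕ, i ≤ 2 ^ m → i' ≤ 2 ^ m → Dn w y e m i → St w y (gr m i) →
      Dn w y e m i' → St w y (gr m i') → i = i') ∧
    ∀ ε > 0, ∃ e0 > 0, ∀ e, 0 < e → e < e0 → ∃ m0 : ℕ, ∀ m ≥ m0,
      |∑ i ∈ Finset.range (2 ^ m + 1), (if Dn w y e m i ∧ St w y (gr m i) then
          φ (fun l => w (gr m i + u l) - y) else 0) -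
        (if y ∈ Lv w then φ (fun l => win w y (u l)) else 0)| ≤ ε := by
  refine ⟨fun e _ m i i' hi hi' hD hS hD' hS' => unique hw hi hi' hD hS hD' hS', ?_⟩
  intro ε hε
  by_cases hyL : y ∈ Lv w
  · obtain ⟨hy1, hex, hLv⟩ := id hyL
    obtain ⟨l, hl⟩ : ∃ l, l = lst w y := ⟨_, rfl⟩
    have hl1 : l < 1 := by
      rw [hl]
      exact lst_lt_one hw hex hy1
    have hwl : w l = y := by
      rw [hl]
      exact w_lst hw hex hy1
    have hl0 : 0 < l := by
      refine pos_iff_ne_zero.2 fun h => hy ?_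
      rw [← hwl, h, h0]
    have hafter : ∀ s, l < s → s ≤ 1 → y < w s := by
      rw [hl]
      exact fun s h1 h2 => gt_of_lst_lt h1 h2
    rw [← hl] at hLv
    -- the test function
    obtain ⟨F, hF⟩ : ∃ F : ℝ≥0 → ℝ, F = fun t => φ (fun i => w (t + u i) - y) := ⟨_, rfl⟩
    have hFc : Continuous F := by
      rw [hF]
      refine hφ.comp (continuous_pi fun i => ?_)
      exact (hw.comp (continuous_id.add continuous_const)).sub continuous_const
    obtain ⟨d1, hd1, hF1⟩ := Metric.continuousAt_iff.1 (hFc.continuousAt (x := l)) ε hε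
    have hyl1 : y < w (l + 1) := hLv (l + 1) (lt_add_of_pos_right l one_pos) le_rfl
    obtain ⟨d2, hd2, hw2⟩ := Metric.continuousAt_iff.1 (hw.continuousAt (x := l + 1))
      (w (l + 1) - y) (sub_pos.2 hyl1)
    have hstay : ∀ t : ℝ≥0, l < t → (t : ℝ) - l < d2 → St w y t := by
      intro t h1 h2 s hs
      rcases le_or_gt (t + s) (l + 1) with h3 | h3
      · exact hLv _ (lt_of_lt_of_le h1 le_self_add) h3
      · have h4 : dist (t + s) (l + 1) < d2 := by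
          rw [NNReal.dist_eq, abs_of_nonneg]
          · push_cast
            have hs' : (s : ℝ) ≤ 1 := by exact_mod_cast hs
            linarith
          · have h3' : ((l + 1 : ℝ≥0) : ℝ) < ((t + s : ℝ≥0) : ℝ) := by exact_mod_cast h3
            linarith
        have h5 := hw2 h4
        rw [Real.dist_eq] at h5
        have h6 := (abs_lt.1 h5).1
        linarith
    -- a point to the right of `l`
    obtain ⟨a, hla, ha1, had1, had2⟩ : ∃ a : ℝ≥0, l < a ∧ a < 1 ∧ (a : ℝ) - l < d1 ∧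
        (a : ℝ) - l < d2 := by
      have hc : Continuous (fun a : ℝ≥0 => (a : ℝ) - l) := by fun_prop
      have o1 : IsOpen {a : ℝ≥0 | (a : ℝ) - l < d1} := isOpen_lt hc continuous_const
      have o2 : IsOpen {a : ℝ≥0 | (a : ℝ) - l < d2} := isOpen_lt hc continuous_const
      have e1 : ∀ᶠ a : ℝ≥0 in 𝓝 l, (a : ℝ) - l < d1 := o1.mem_nhds (by simpa using hd1)
      have e2 : ∀ᶠ a : ℝ≥0 in 𝓝 l, (a : ℝ) - l < d2 := o2.mem_nhds (by simpa using hd2)
      have e3 : ∀ᶠ a in 𝓝[>] l, a ∈ Ioo l 1 := Ioo_mem_nhdsGT hl1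
      obtain ⟨a, h1, h2, h3⟩ := ((e1.filter_mono nhdsWithin_le_nhds).and
        ((e2.filter_mono nhdsWithin_le_nhds).and e3)).exists
      exact ⟨a, h3.1, h3.2, h1, h2⟩
    have hwa : y < w a := hafter a hla ha1.le
    refine ⟨w a - y, sub_pos.2 hwa, fun e he hea => ?_⟩
    -- a neighbourhood of `l` where `w < y + e`
    obtain ⟨η, hη, hwη⟩ := Metric.continuousAt_iff.1 (hw.continuousAt (x := l)) e he
    obtain ⟨s0, hs0l, hs0η, hws0⟩ := hgen l hl0 hwl hafter hl1 η hη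
    have oA : IsOpen {s : ℝ≥0 | (l : ℝ) - s < η} := isOpen_lt (by fun_prop) continuous_const
    have oB : IsOpen {s : ℝ≥0 | w s < y} := isOpen_lt hw continuous_const
    have oC : IsOpen {s : ℝ≥0 | s < l} := isOpen_lt continuous_id continuous_const
    have hU1 : IsOpen {s : ℝ≥0 | w s < y ∧ s < l ∧ (l : ℝ) - s < η} := oB.inter (oC.inter oA)
    have oD : IsOpen {s : ℝ≥0 | (s : ℝ) - l < d1} := isOpen_lt (by fun_prop) continuous_const
    have oE : IsOpen {s : ℝ≥0 | (s : ℝ) - l < d2} := isOpen_lt (by fun_prop) continuous_const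
    have oF : IsOpen {s : ℝ≥0 | s < 1} := isOpen_lt continuous_id continuous_const
    have oG : IsOpen {s : ℝ≥0 | l < s} := isOpen_lt continuous_const continuous_id
    have oH : IsOpen {s : ℝ≥0 | y + e < w s} := isOpen_lt continuous_const hw
    have hU2 : IsOpen {s : ℝ≥0 | y + e < w s ∧ l < s ∧ s < 1 ∧ (s : ℝ) - l < d1 ∧
        (s : ℝ) - l < d2} := oH.inter (oG.inter (oF.inter (oD.inter oE)))
    obtain ⟨m1, hm1⟩ := exists_grid hU1 ⟨s0, hws0, hs0l, hs0η⟩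
    obtain ⟨m2, hm2⟩ := exists_grid hU2 ⟨a, by linarith, hla, ha1, had1, had2⟩
    refine ⟨max m1 m2, fun m hm => ?_⟩
    obtain ⟨j, hj1, hj2, hj3⟩ := hm1 m ((le_max_left _ _).trans hm)
    obtain ⟨i2, hi1, hi2, hi3, hi4, hi5⟩ := hm2 m ((le_max_right _ _).trans hm)
    have hji : j < i2 := gr_lt.1 (hj2.trans hi2)
    have hexi : ∃ i, j < i ∧ y + e ≤ w (gr m i) := ⟨i2, hji, hi1.le⟩
    obtain ⟨i, hi⟩ : ∃ i, i = Nat.find hexi := ⟨_, rfl⟩
    have his : j < i ∧ y + e ≤ w (gr m i) := by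
      rw [hi]
      exact Nat.find_spec hexi
    have hii2 : i ≤ i2 := by
      rw [hi]
      exact Nat.find_min' hexi ⟨hji, hi1.le⟩
    have hmin : ∀ k, j < k → k < i → w (gr m k) < y + e := by
      intro k hk hki
      rw [hi] at hki
      have := Nat.find_min hexi hki
      by_contra hc
      exact this ⟨hk, not_lt.1 hc⟩
    have hgi : gr m i ≤ gr m i2 := by
      rcases hii2.lt_or_eq with h | h
      · exact (gr_lt.2 h).le
      · rw [h]
    have hli : l < gr m i := by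
      by_contra hc
      have hc' := not_lt.1 hc
      have h1 : gr m j < gr m i := gr_lt.2 his.1
      have h2 : dist (gr m i) l < η := by
        rw [NNReal.dist_eq, abs_sub_comm, abs_of_nonneg]
        · have h1' : ((gr m j : ℝ≥0) : ℝ) < ((gr m i : ℝ≥0) : ℝ) := by exact_mod_cast h1
          linarith
        · have hc'' : ((gr m i : ℝ≥0) : ℝ) ≤ (l : ℝ) := by exact_mod_cast hc'
          linarith
      have h3 := hwη h2
      rw [hwl, Real.dist_eq] at h3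
      have h4 := (abs_lt.1 h3).2
      linarith [his.2]
    have hgi' : ((gr m i : ℝ≥0) : ℝ) ≤ ((gr m i2 : ℝ≥0) : ℝ) := by exact_mod_cast hgi
    have hi2m : i ≤ 2 ^ m := gr_le_one.1 (hgi.trans hi3.le)
    have hD : Dn w y e m i := ⟨his.2, j, his.1, hj1.le, hmin⟩
    have hS : St w y (gr m i) := hstay _ hli (by linarith)
    rw [Finset.sum_eq_single i]
    · rw [if_pos ⟨hD, hS⟩, if_pos hyL]
      have h1 : dist (gr m i) l < d1 := by
        rw [NNReal.dist_eq, abs_of_nonneg]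
        · linarith
        · have : (l : ℝ) < ((gr m i : ℝ≥0) : ℝ) := by exact_mod_cast hli
          linarith
      have h2 := hF1 h1
      rw [Real.dist_eq, hF] at h2
      have e1 : (fun i => win w y (u i)) = fun i => w (l + u i) - y := by
        funext i
        rw [hl]
        rfl
      rw [e1]
      exact h2.le
    · intro b hb hbi
      rw [if_neg]
      rintro ⟨hDb, hSb⟩
      have hb' : b ≤ 2 ^ m := by
        have := Finset.mem_range.1 hb
        omega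
      exact hbi (unique hw hb' hi2m hDb hSb hD hS)
    · intro h
      exact absurd (Finset.mem_range.2 (by omega)) h
  · refine ⟨1, one_pos, fun e _ _ => ⟨0, fun m _ => ?_⟩⟩
    rw [if_neg hyL, Finset.sum_eq_zero]
    · simpa using hε.le
    · intro i hi
      rw [if_neg]
      rintro ⟨hD, hS⟩
      have hi' : i ≤ 2 ^ m := by
        have := Finset.mem_range.1 hi
        omega
      exact hyL (first hw hi' hD hS).1

end Pool.Agent.R986.CM
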