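import Pool.Agent.R986.CM.Defs

/-!
# RLIM: continuity in the starting point of the weighted expectations
-/

open MeasureTheory ProbabilityTheory Filter Topology Set
open scoped ENNReal NNReal

namespace Pool.Agent.R986.CM

open Pool.Agent.R974.Span

namespace RLIM

/-- the singular function -/
noncomputable def f (y : ℝ) : ℝ := (√|y|)⁻¹

lemma f_nonneg (y : ℝ) : 0 ≤ f y := inv_nonneg.mpr (Real.sqrt_nonneg _)

lemma meas_f : Measurable f := by
  unfold f
  fun_prop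

/-- the singular part -/
noncomputable def g (y : ℝ) : ℝ := (Ioc (0 : ℝ) 1).indicator (fun x => x ^ (-(1 / 2) : ℝ)) y

lemma int_g : Integrable g (volume : Measure ℝ) := by
  have h : IntervalIntegrable (fun x : ℝ => x ^ (-(1 / 2) : ℝ)) volume 0 1 :=
    intervalIntegral.intervalIntegrable_rpow' (by norm_num)
  rw [intervalIntegrable_iff_integrableOn_Ioc_of_le zero_le_one] at h
  exact (integrable_indicator_iff measurableSet_Ioc).mpr h

lemma g_nonneg (y : ℝ) : 0 ≤ g y := by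
  unfold g
  exact indicator_nonneg (fun x hx => Real.rpow_nonneg hx.1.le _) y

lemma f_le (y : ℝ) : f y ≤ g y + g (-y) + 1 := by
  have h1 := g_nonneg y
  have h2 := g_nonneg (-y)
  have key : ∀ x : ℝ, 0 < x → x ≤ 1 → (√x)⁻¹ = g x := by
    intro x hx hx1
    rw [g, indicator_of_mem (show x ∈ Ioc (0 : ℝ) 1 from ⟨hx, hx1⟩), Real.rpow_neg hx.le,
      ← Real.sqrt_eq_rpow]
  rcases eq_or_ne y 0 with h | h
  · subst h
    simp only [f, abs_zero, Real.sqrt_zero, inv_zero]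
    linarith
  · rcases le_or_gt |y| 1 with h3 | h3
    · rcases lt_or_gt_of_ne h with h4 | h4
      · rw [abs_of_neg h4] at h3
        rw [f, abs_of_neg h4, key (-y) (by linarith) h3]
        linarith
      · rw [abs_of_pos h4] at h3
        rw [f, abs_of_pos h4, key y h4 h3]
        linarith
    · have h5 : (1 : ℝ) ≤ √|y| := by
        rw [Real.one_le_sqrt]
        exact h3.le
      have h6 : f y ≤ 1 := inv_le_one_of_one_le₀ h5
      linarith

lemma gauss_le : gaussianReal 0 1 ≤ (volume : Measure ℝ) := by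
  rw [gaussianReal_of_var_ne_zero _ one_ne_zero]
  have h1 : (volume : Measure ℝ).withDensity (gaussianPDF 0 1) ≤
      (volume : Measure ℝ).withDensity 1 := by
    refine withDensity_mono (Eventually.of_forall fun x => ?_)
    rw [gaussianPDF, Pi.one_apply, ENNReal.ofReal_le_one, gaussianPDFReal]
    have h2 : Real.exp (-(x - 0) ^ 2 / (2 * ((1 : ℝ≥0) : ℝ))) ≤ 1 := by
      rw [Real.exp_le_one_iff]
      have : 0 ≤ (x - 0) ^ 2 := sq_nonneg _
      have h3 : -(x - 0) ^ 2 / (2 * ((1 : ℝ≥0) : ℝ)) = -((x - 0) ^ 2 / 2) := by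
        simp; ring
      rw [h3]
      have : 0 ≤ (x - 0) ^ 2 / 2 := by positivity
      linarith
    have h4 : (√(2 * Real.pi * ((1 : ℝ≥0) : ℝ)))⁻¹ ≤ 1 := by
      refine inv_le_one_of_one_le₀ ?_
      rw [Real.one_le_sqrt]
      have := Real.pi_gt_three
      simp
      linarith
    exact mul_le_one₀ h4 (Real.exp_pos _).le h2
  rwa [withDensity_one] at h1

lemma int_f : Integrable f (gaussianReal 0 1) := by
  have h1 : Integrable (fun y => g y + g (-y)) (gaussianReal 0 1) :=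
    (int_g.add int_g.comp_neg).mono_measure gauss_le
  have h2 : Integrable (fun y => g y + g (-y) + 1) (gaussianReal 0 1) :=
    h1.add (integrable_const 1)
  refine h2.mono' meas_f.aestronglyMeasurable (Eventually.of_forall fun y => ?_)
  rw [Real.norm_of_nonneg (f_nonneg y)]
  exact f_le y

section
variable {Ω' : Type*} [MeasurableSpace Ω'] {Q : Measure Ω'} {β : Fin 3 → ℝ≥0 → Ω' → ℝ}

lemma int_fb (hβ : B3 β Q) (i : Fin 3) : Integrable (fun ω => f (β i 1 ω)) Q := by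
  have h1 : Q.map (β i 1) = gaussianReal 0 1 := ((hβ.gbm i).pre.hasLaw_eval 1).map_eq
  have h2 : Integrable f (Q.map (β i 1)) := by rw [h1]; exact int_f
  exact h2.comp_measurable ((hβ.gbm i).meas 1)

lemma int_bound (hβ : B3 β Q) : Integrable (fun ω => f (β 1 1 ω) * f (β 2 1 ω)) Q := by
  have hi : IndepFun (fun ω => f (β 1 1 ω)) (fun ω => f (β 2 1 ω)) Q := by
    have h12 : IndepFun (fun ω t => β 1 t ω) (fun ω t => β 2 t ω) Q :=
      hβ.ind.indepFun (show (1 : Fin 3) ≠ 2 by decide)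
    exact h12.comp (φ := fun w : ℝ≥0 → ℝ => f (w 1)) (ψ := fun w : ℝ≥0 → ℝ => f (w 1))
      (meas_f.comp (measurable_pi_apply 1)) (meas_f.comp (measurable_pi_apply 1))
  exact hi.integrable_mul (int_fb hβ 1) (int_fb hβ 2)

lemma ae_ne (hβ : B3 β Q) (i : Fin 3) : ∀ᵐ ω ∂Q, β i 1 ω ≠ 0 := by
  rw [ae_iff]
  simp only [ne_eq, not_not]
  exact eval_noatom (hβ.gbm i) one_pos 0

omit [MeasurableSpace Ω'] in
lemma nrm_ge (x : ℝ) (ω : Ω') : √|β 1 1 ω| * √|β 2 1 ω| ≤ nrm x β 1 ω := by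
  rw [← Real.sqrt_mul (abs_nonneg _), nrm]
  refine Real.sqrt_le_sqrt ?_
  have h1 : |β 1 1 ω| ^ 2 = (β 1 1 ω) ^ 2 := sq_abs _
  have h2 : |β 2 1 ω| ^ 2 = (β 2 1 ω) ^ 2 := sq_abs _
  nlinarith [sq_nonneg (|β 1 1 ω| - |β 2 1 ω|), sq_nonneg (x + β 0 1 ω), sq_nonneg (β 1 1 ω),
    sq_nonneg (β 2 1 ω)]

lemma inv_le (x : ℝ) (ω : Ω') (h1 : β 1 1 ω ≠ 0) (h2 : β 2 1 ω ≠ 0) :
    0 < nrm x β 1 ω ∧ (nrm x β 1 ω)⁻¹ ≤ f (β 1 1 ω) * f (β 2 1 ω) := by
  have h3 : 0 < √|β 1 1 ω| := Real.sqrt_pos.mpr (abs_pos.mpr h1)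
  have h4 : 0 < √|β 2 1 ω| := Real.sqrt_pos.mpr (abs_pos.mpr h2)
  have h5 := nrm_ge x ω (β := β)
  have h6 : 0 < √|β 1 1 ω| * √|β 2 1 ω| := mul_pos h3 h4
  refine ⟨lt_of_lt_of_le h6 h5, ?_⟩
  rw [f, f, ← mul_inv]
  exact inv_anti₀ h6 h5

lemma meas_nrm (hβ : B3 β Q) (x : ℝ) (t : ℝ≥0) : Measurable (nrm x β t) := by
  have h0 := (hβ.gbm 0).meas t
  have h1 := (hβ.gbm 1).meas t
  have h2 := (hβ.gbm 2).meas t
  unfold nrm
  exact ((((measurable_const.add h0).pow_const 2).add (h1.pow_const 2)).add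
    (h2.pow_const 2)).sqrt

omit [MeasurableSpace Ω'] in
lemma cont_nrm (t : ℝ≥0) (ω : Ω') : Continuous fun x : ℝ => nrm x β t ω := by
  unfold nrm
  fun_prop

end

end RLIM

open RLIM in
/-- RLIM -/
theorem rlim {Ω' : Type*} [MeasurableSpace Ω'] {Q : Measure Ω'} {β : Fin 3 → ℝ≥0 → Ω' → ℝ}
    (hβ : B3 β Q) {n : ℕ} (u : Fin n → ℝ≥0) {φ : (Fin n → ℝ) → ℝ}
    (hφ : Continuous φ) {C : ℝ} (hC : ∀ v, |φ v| ≤ C) :
    Continuous (fun x : ℝ => ∫ ω, φ (fun i => nrm x β (u i) ω) / nrm x β 1 ω ∂Q) ∧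
    ∀ x : ℝ, Integrable (fun ω => (nrm x β 1 ω)⁻¹) Q ∧ 0 < ∫ ω, (nrm x β 1 ω)⁻¹ ∂Q := by
  have hC0 : 0 ≤ C := (abs_nonneg _).trans (hC 0)
  refine ⟨?_, fun x => ?_⟩
  · refine continuous_of_dominated (bound := fun ω => C * (f (β 1 1 ω) * f (β 2 1 ω)))
      ?_ ?_ ?_ ?_
    · intro x
      refine Measurable.aestronglyMeasurable ?_
      refine Measurable.div ?_ (meas_nrm hβ x 1)
      exact hφ.measurable.comp (measurable_pi_lambda _ fun i => meas_nrm hβ x (u i))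
    · intro x
      filter_upwards [ae_ne hβ 1, ae_ne hβ 2] with ω h1 h2
      obtain ⟨h3, h4⟩ := inv_le x ω h1 h2
      rw [Real.norm_eq_abs, abs_div, abs_of_pos h3, div_eq_mul_inv]
      exact mul_le_mul (hC _) h4 (inv_nonneg.mpr h3.le) hC0
    · exact (int_bound hβ).const_mul C
    · filter_upwards [ae_ne hβ 1, ae_ne hβ 2] with ω h1 h2
      refine Continuous.div ?_ (cont_nrm 1 ω) (fun x => (inv_le x ω h1 h2).1.ne')
      exact hφ.comp (continuous_pi fun i => cont_nrm (u i) ω)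
  · have hint : Integrable (fun ω => (nrm x β 1 ω)⁻¹) Q := by
      refine (int_bound hβ).mono' (meas_nrm hβ x 1).inv.aestronglyMeasurable ?_
      filter_upwards [ae_ne hβ 1, ae_ne hβ 2] with ω h1 h2
      obtain ⟨h3, h4⟩ := inv_le x ω h1 h2
      rw [Real.norm_of_nonneg (inv_nonneg.mpr h3.le)]
      exact h4
    refine ⟨hint, ?_⟩
    have h0 : 0 ≤ᵐ[Q] fun ω => (nrm x β 1 ω)⁻¹ :=
      Eventually.of_forall fun ω => inv_nonneg.mpr (Real.sqrt_nonneg _)
    have hge : 0 ≤ ∫ ω, (nrm x β 1 ω)⁻¹ ∂Q := integral_nonneg_of_ae h0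
    rcases hge.lt_or_eq with h | h
    · exact h
    · exfalso
      have h5 := (integral_eq_zero_iff_of_nonneg_ae h0 hint).mp h.symm
      have : IsProbabilityMeasure Q := (hβ.gbm 0).prob
      have h6 : ∀ᵐ ω ∂Q, False := by
        filter_upwards [h5, ae_ne hβ 1, ae_ne hβ 2] with ω h7 h1 h2
        have h8 := inv_pos.mpr (inv_le x ω h1 h2).1
        rw [h7] at h8
        exact lt_irrefl _ h8
      rw [eventually_false_iff_eq_bot, ae_eq_bot] at h6
      exact IsProbabilityMeasure.ne_zero Q h6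

end Pool.Agent.R986.CM
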