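import Pool.Agent.R986.CM.Defs

/-!
# Anticipating selection with finite mean

Good indices: the odd index `2 j + 1` is good with density (a multiple of) the `j`-th slice of `g`
(slices of height `1 / 2` above the level `c`), the even indices with density `min g c / c`. The
selected index is the largest good odd index, or, if there is none, the smallest good even index.
-/

set_option autoImplicit false

namespace Pool.Agent.R986.CM

open MeasureTheory ProbabilityTheory Filter Topology Set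
open scoped ENNReal NNReal

namespace S91

section SelAux

variable {E : Type*} [MeasurableSpace E]

/-- The good set of a function. -/
def gd (h : E → ℝ≥0∞) : Set (E × ℝ) := {p | p.2 < (h p.1).toReal}

theorem gd_meas {h : E → ℝ≥0∞} (hh : Measurable h) : MeasurableSet (gd h) :=
  measurableSet_lt measurable_snd (hh.comp measurable_fst).ennreal_toReal

instance : IsProbabilityMeasure (volume.restrict (Set.Icc (0 : ℝ) 1)) := by
  constructor
  simp

theorem mu_gd (W : Measure E) [IsProbabilityMeasure W] {h : E → ℝ≥0∞} (hh : Measurable h)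
    (h1 : ∀ w, h w ≤ 1) {A : Set E} (hA : MeasurableSet A) :
    (W.prod (volume.restrict (Set.Icc (0 : ℝ) 1))) (gd h ∩ Prod.fst ⁻¹' A) =
      ∫⁻ w in A, h w ∂W := by
  rw [Measure.prod_apply ((gd_meas hh).inter (measurable_fst hA)), ← lintegral_indicator hA]
  refine lintegral_congr fun w => ?_
  by_cases hw : w ∈ A
  · rw [indicator_of_mem hw]
    have h2 : Prod.mk w ⁻¹' (gd h ∩ Prod.fst ⁻¹' A) = Iio (h w).toReal := by
      ext v; simp [gd, hw]
    have hle : (h w).toReal ≤ 1 := by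
      have := ENNReal.toReal_mono ENNReal.one_ne_top (h1 w)
      simpa using this
    have h3 : Iio (h w).toReal ∩ Icc (0 : ℝ) 1 = Ico 0 (h w).toReal := by
      ext v
      simp only [mem_inter_iff, mem_Iio, mem_Icc, mem_Ico]
      constructor
      · rintro ⟨a, b, c⟩; exact ⟨b, a⟩
      · rintro ⟨a, b⟩; exact ⟨b, a, by linarith⟩
    rw [h2, Measure.restrict_apply measurableSet_Iio, h3, Real.volume_Ico, sub_zero,
      ENNReal.ofReal_toReal (ne_top_of_le_ne_top ENNReal.one_ne_top (h1 w))]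
  · rw [indicator_of_notMem hw]
    have h2 : Prod.mk w ⁻¹' (gd h ∩ Prod.fst ⁻¹' A) = ∅ := by
      ext v; simp [hw]
    rw [h2, measure_empty]

theorem tend_box {X : Type*} [MeasurableSpace X] (μ : Measure X) [IsProbabilityMeasure μ]
    {T : ℕ → Set X} (hT : ∀ n, MeasurableSet (T n)) :
    Tendsto (fun L => ∏ n ∈ Finset.range (2 * L), μ (T n)) atTop
      (𝓝 (Measure.infinitePi (fun _ : ℕ => μ) (Set.pi univ T))) := by
  have h1 : ∀ L, ∏ n ∈ Finset.range (2 * L), μ (T n) = Measure.infinitePi (fun _ : ℕ => μ)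
      (Set.pi (Finset.range (2 * L) : Finset ℕ) T) := fun L =>
    (Measure.infinitePi_pi (fun _ : ℕ => μ) (fun i _ => hT i)).symm
  have h2 : Set.pi univ T = ⋂ L : ℕ, Set.pi (Finset.range (2 * L) : Finset ℕ) T := by
    ext x
    simp only [Set.mem_pi, mem_univ, true_implies, mem_iInter, Finset.coe_range, mem_Iio]
    constructor
    · intro h L i _; exact h i
    · intro h i; exact h (i + 1) i (by omega)
  simp only [h1]
  rw [h2]
  refine tendsto_measure_iInter_atTop (fun L => ?_) ?_ ⟨0, measure_ne_top _ _⟩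
  · exact (MeasurableSet.pi (Finset.countable_toSet _) fun i _ => hT i).nullMeasurableSet
  · intro a b hab x hx i hi
    refine hx i ?_
    simp only [Finset.coe_range, mem_Iio] at hi ⊢
    omega

theorem prod_two (f : ℕ → ℝ≥0∞) (L : ℕ) : ∏ n ∈ Finset.range (2 * L), f n =
    ∏ l ∈ Finset.range L, (f (2 * l) * f (2 * l + 1)) := by
  induction L with
  | zero => simp
  | succ L ih =>
    rw [show 2 * (L + 1) = 2 * L + 1 + 1 by ring, Finset.prod_range_succ, Finset.prod_range_succ,
      Finset.prod_range_succ, ih, mul_assoc]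

end SelAux

section SelAbs

variable {X : Type*} [MeasurableSpace X]

/-- `n` has higher priority than `k`. -/
def hpr (k n : ℕ) : Prop := if k % 2 = 0 then (n % 2 = 1 ∨ n < k) else (n % 2 = 1 ∧ k < n)

open Classical in
/-- The sets of the box. -/
noncomputable def bxT (good : ℕ → Set X) (k : ℕ) (B : Set X) (n : ℕ) : Set X :=
  if n = k then good k ∩ B else if hpr k n then (good n)ᶜ else univ

theorem bxT_meas {good : ℕ → Set X} (hg : ∀ n, MeasurableSet (good n)) (k : ℕ) {B : Set X}
    (hB : MeasurableSet B) (n : ℕ) : MeasurableSet (bxT good k B n) := by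
  unfold bxT
  split_ifs
  exacts [(hg k).inter hB, (hg n).compl, MeasurableSet.univ]

theorem bx_self (good : ℕ → Set X) (k : ℕ) (B : Set X) : bxT good k B k = good k ∩ B := by
  simp [bxT]

theorem bx_hp (good : ℕ → Set X) {k n : ℕ} (B : Set X) (h : n ≠ k) (h' : hpr k n) :
    bxT good k B n = (good n)ᶜ := by
  simp [bxT, h, h']

theorem bx_lp (good : ℕ → Set X) {k n : ℕ} (B : Set X) (h : n ≠ k) (h' : ¬ hpr k n) :
    bxT good k B n = univ := by
  simp [bxT, h, h']

theorem bx_disj {good : ℕ → Set X} {k l : ℕ} (h : k ≠ l) {A B : Set X} {x : ℕ → X}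
    (hk : x ∈ Set.pi univ (bxT good k A)) (hl : x ∈ Set.pi univ (bxT good l B)) : False := by
  have h1 : x k ∈ good k := by
    have := hk k (mem_univ k); rw [bx_self] at this; exact this.1
  have h2 : x l ∈ good l := by
    have := hl l (mem_univ l); rw [bx_self] at this; exact this.1
  have h3 : hpr k l ∨ hpr l k := by
    unfold hpr
    split_ifs <;> omega
  rcases h3 with h3 | h3
  · have := hk l (mem_univ l); rw [bx_hp good A h.symm h3] at this; exact this h2
  · have := hl k (mem_univ k); rw [bx_hp good B h h3] at this; exact this h1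

theorem bx_odd (μ : Measure X) [IsProbabilityMeasure μ] {good : ℕ → Set X}
    (hg : ∀ n, MeasurableSet (good n)) {M : ℕ → ℝ≥0∞} (hM0 : ∀ n, M n ≠ 0) (hMt : ∀ n, M n ≠ ⊤)
    (hM : Tendsto M atTop (𝓝 1)) (ho : ∀ l, μ ((good (2 * l + 1))ᶜ) = M l / M (l + 1)) (j : ℕ)
    {B : Set X} (hB : MeasurableSet B) :
    Measure.infinitePi (fun _ : ℕ => μ) (Set.pi univ (bxT good (2 * j + 1) B)) =
      μ (good (2 * j + 1) ∩ B) * M (j + 1) := by
  refine tendsto_nhds_unique (tend_box μ (bxT_meas hg _ hB)) ?_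
  have e1 : ∀ l, bxT good (2 * j + 1) B (2 * l) = univ := fun l =>
    bx_lp good B (by omega) (by unfold hpr; split_ifs <;> omega)
  have e2 : ∀ l, l < j → bxT good (2 * j + 1) B (2 * l + 1) = univ := fun l hl =>
    bx_lp good B (by omega) (by unfold hpr; split_ifs <;> omega)
  have e4 : ∀ l, j < l → bxT good (2 * j + 1) B (2 * l + 1) = (good (2 * l + 1))ᶜ := fun l hl =>
    bx_hp good B (by omega) (by unfold hpr; split_ifs <;> omega)
  have key : ∀ L, j + 1 ≤ L → ∏ n ∈ Finset.range (2 * L), μ (bxT good (2 * j + 1) B n) =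
      μ (good (2 * j + 1) ∩ B) * (M (j + 1) / M L) := by
    intro L hL
    rw [prod_two]
    induction L, hL using Nat.le_induction with
    | base =>
      rw [Finset.prod_range_succ, Finset.prod_eq_one, e1, bx_self, measure_univ, one_mul, one_mul,
        ENNReal.div_self (hM0 _) (hMt _), mul_one]
      intro l hl
      rw [e1, e2 l (Finset.mem_range.1 hl), measure_univ, one_mul]
    | succ L hL ih =>
      rw [Finset.prod_range_succ, ih, e1, e4 L (by omega), ho, measure_univ, one_mul, mul_assoc]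
      congr 1
      rw [div_eq_mul_inv, div_eq_mul_inv, div_eq_mul_inv, mul_assoc, ← mul_assoc (M L)⁻¹,
        ENNReal.inv_mul_cancel (hM0 L) (hMt L), one_mul]
  have h3 : Tendsto (fun L => μ (good (2 * j + 1) ∩ B) * (M (j + 1) / M L)) atTop
      (𝓝 (μ (good (2 * j + 1) ∩ B) * (M (j + 1) / 1))) :=
    ENNReal.Tendsto.const_mul (ENNReal.Tendsto.const_div hM (Or.inl ENNReal.one_ne_top))
      (Or.inr (measure_ne_top _ _))
  rw [div_one] at h3
  exact h3.congr' ((eventually_ge_atTop (j + 1)).mono fun L hL => (key L hL).symm)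

theorem bx_even (μ : Measure X) [IsProbabilityMeasure μ] {good : ℕ → Set X}
    (hg : ∀ n, MeasurableSet (good n)) {M : ℕ → ℝ≥0∞} (hM0 : ∀ n, M n ≠ 0) (hMt : ∀ n, M n ≠ ⊤)
    (hM : Tendsto M atTop (𝓝 1)) (ho : ∀ l, μ ((good (2 * l + 1))ᶜ) = M l / M (l + 1))
    {r : ℝ≥0∞} (hr : ∀ l, μ ((good (2 * l))ᶜ) = r) (i : ℕ)
    {B : Set X} (hB : MeasurableSet B) :
    Measure.infinitePi (fun _ : ℕ => μ) (Set.pi univ (bxT good (2 * i) B)) =
      r ^ i * μ (good (2 * i) ∩ B) * M 0 := by
  refine tendsto_nhds_unique (tend_box μ (bxT_meas hg _ hB)) ?_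
  have e1 : ∀ l, bxT good (2 * i) B (2 * l + 1) = (good (2 * l + 1))ᶜ := fun l =>
    bx_hp good B (by omega) (by unfold hpr; split_ifs <;> omega)
  have e2 : ∀ l, l < i → bxT good (2 * i) B (2 * l) = (good (2 * l))ᶜ := fun l hl =>
    bx_hp good B (by omega) (by unfold hpr; split_ifs <;> omega)
  have e4 : ∀ l, i < l → bxT good (2 * i) B (2 * l) = univ := fun l hl =>
    bx_lp good B (by omega) (by unfold hpr; split_ifs <;> omega)
  have keyM : ∀ L, ∏ l ∈ Finset.range L, μ (bxT good (2 * i) B (2 * l + 1)) = M 0 / M L := by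
    intro L
    induction L with
    | zero => rw [Finset.prod_range_zero, ENNReal.div_self (hM0 _) (hMt _)]
    | succ L ih =>
      rw [Finset.prod_range_succ, ih, e1, ho, div_eq_mul_inv, div_eq_mul_inv, div_eq_mul_inv,
        mul_assoc, ← mul_assoc (M L)⁻¹, ENNReal.inv_mul_cancel (hM0 L) (hMt L), one_mul]
  have key : ∀ L, i + 1 ≤ L → ∏ n ∈ Finset.range (2 * L), μ (bxT good (2 * i) B n) =
      r ^ i * μ (good (2 * i) ∩ B) * (M 0 / M L) := by
    intro L hL
    rw [prod_two, Finset.prod_mul_distrib, keyM]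
    congr 1
    induction L, hL using Nat.le_induction with
    | base =>
      rw [Finset.prod_range_succ, bx_self]
      congr 1
      rw [Finset.prod_congr rfl (g := fun _ => r), Finset.prod_const, Finset.card_range]
      intro l hl
      rw [e2 l (Finset.mem_range.1 hl), hr]
    | succ L hL ih =>
      rw [Finset.prod_range_succ, ih, e4 L (by omega), measure_univ, mul_one]
  have h3 : Tendsto (fun L => r ^ i * μ (good (2 * i) ∩ B) * (M 0 / M L)) atTop
      (𝓝 (r ^ i * μ (good (2 * i) ∩ B) * (M 0 / 1))) := by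
    refine ENNReal.Tendsto.const_mul (ENNReal.Tendsto.const_div hM (Or.inl ENNReal.one_ne_top))
      (Or.inr (ENNReal.mul_ne_top (ENNReal.pow_ne_top ?_) (measure_ne_top _ _)))
    rw [← hr 0]
    exact measure_ne_top _ _
  rw [div_one] at h3
  exact h3.congr' ((eventually_ge_atTop (i + 1)).mono fun L hL => (key L hL).symm)

theorem exN {good : ℕ → Set X} (hg : ∀ n, MeasurableSet (good n)) :
    ∃ N : (ℕ → X) → ℕ, Measurable N ∧
      (∀ k x, x ∈ Set.pi univ (bxT good k univ) → N x = k) ∧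
      (∀ x, (∀ k, x ∉ Set.pi univ (bxT good k univ)) → N x = 0) := by
  classical
  set S : ℕ → Set (ℕ → X) := fun k => Set.pi univ (bxT good k univ) with hSdef
  have hS : ∀ k, MeasurableSet (S k) := fun k =>
    MeasurableSet.univ_pi fun n => bxT_meas hg k MeasurableSet.univ n
  have hp : ∀ x, ∃ k, (x ∈ S k ∨ ∀ l, x ∉ S l) := by
    intro x
    by_cases h : ∃ k, x ∈ S k
    · obtain ⟨k, hk⟩ := h
      exact ⟨k, Or.inl hk⟩
    · push Not at h
      exact ⟨0, Or.inr h⟩
  refine ⟨fun x => Nat.find (hp x), measurable_find hp (fun k => ?_), ?_, ?_⟩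
  · have : {x | x ∈ S k ∨ ∀ l, x ∉ S l} = S k ∪ (⋃ l, S l)ᶜ := by ext x; simp
    rw [this]
    exact (hS k).union (MeasurableSet.iUnion hS).compl
  · intro k x hx
    rcases Nat.find_spec (hp x) with h1 | h1
    · by_contra hne
      exact bx_disj hne h1 hx
    · exact absurd hx (h1 k)
  · intro x hx
    exact (Nat.find_eq_zero (hp x)).2 (Or.inr hx)

end SelAbs

section SelTr

variable {E : Type*} [MeasurableSpace E]

/-- Truncations. -/
noncomputable def tr (g : E → ℝ≥0∞) (c j : ℕ) (w : E) : ℝ≥0∞ := min (g w) (c + (j : ℝ≥0∞) / 2)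

/-- Slices. -/
noncomputable def slc (g : E → ℝ≥0∞) (c j : ℕ) (w : E) : ℝ≥0∞ := tr g c (j + 1) w - tr g c j w

theorem lev_ne_top (c j : ℕ) : ((c : ℝ≥0∞) + (j : ℝ≥0∞) / 2) ≠ ⊤ :=
  ENNReal.add_ne_top.2 ⟨ENNReal.natCast_ne_top c,
    ENNReal.div_ne_top (ENNReal.natCast_ne_top j) (by simp)⟩

theorem lev_succ (c j : ℕ) : ((c : ℝ≥0∞) + ((j + 1 : ℕ) : ℝ≥0∞) / 2) =
    ((c : ℝ≥0∞) + (j : ℝ≥0∞) / 2) + 1 / 2 := by
  push_cast
  rw [ENNReal.add_div, add_assoc]

theorem tr_ne_top (g : E → ℝ≥0∞) (c j : ℕ) (w : E) : tr g c j w ≠ ⊤ :=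
  ne_top_of_le_ne_top (lev_ne_top c j) (min_le_right _ _)

theorem tr_meas {g : E → ℝ≥0∞} (hg : Measurable g) (c j : ℕ) : Measurable (tr g c j) :=
  hg.min measurable_const

theorem slc_meas {g : E → ℝ≥0∞} (hg : Measurable g) (c j : ℕ) : Measurable (slc g c j) :=
  (tr_meas hg c (j + 1)).sub (tr_meas hg c j)

theorem tr_le_succ (g : E → ℝ≥0∞) (c j : ℕ) (w : E) : tr g c j w ≤ tr g c (j + 1) w := by
  unfold tr
  rw [lev_succ]
  exact min_le_min le_rfl le_self_add

theorem tr_succ_le (g : E → ℝ≥0∞) (c j : ℕ) (w : E) : tr g c (j + 1) w ≤ tr g c j w + 1 / 2 := by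
  unfold tr
  rw [lev_succ, ← min_add_add_right]
  exact min_le_min le_self_add le_rfl

theorem tr_add_slc (g : E → ℝ≥0∞) (c j : ℕ) (w : E) :
    tr g c j w + slc g c j w = tr g c (j + 1) w := by
  unfold slc
  exact add_tsub_cancel_of_le (tr_le_succ g c j w)

theorem slc_le_half (g : E → ℝ≥0∞) (c j : ℕ) (w : E) : slc g c j w ≤ 1 / 2 := by
  unfold slc
  rw [tsub_le_iff_left]
  exact tr_succ_le g c j w

theorem tr_sum (g : E → ℝ≥0∞) (c n : ℕ) (w : E) :
    tr g c 0 w + ∑ j ∈ Finset.range n, slc g c j w = tr g c n w := by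
  induction n with
  | zero => simp
  | succ n ih => rw [Finset.sum_range_succ, ← add_assoc, ih, tr_add_slc]

theorem tr_tendsto (g : E → ℝ≥0∞) (c : ℕ) (w : E) :
    Tendsto (fun n => tr g c n w) atTop (𝓝 (g w)) := by
  have h1 : Tendsto (fun n : ℕ => (c : ℝ≥0∞) + (n : ℝ≥0∞) / 2) atTop (𝓝 ⊤) := by
    have h2 : Tendsto (fun n : ℕ => (n : ℝ≥0∞) / 2) atTop (𝓝 ⊤) := by
      have := ENNReal.Tendsto.div_const (b := 2) ENNReal.tendsto_nat_nhds_top
        (Or.inl ENNReal.top_ne_zero)
      rwa [ENNReal.top_div_of_ne_top (by simp)] at this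
    have := h2.const_add (c : ℝ≥0∞)
    rwa [add_top] at this
  have h3 := (tendsto_const_nhds (x := g w) (f := (atTop : Filter ℕ))).min h1
  rwa [min_eq_left le_top] at h3

theorem tr_tsum (g : E → ℝ≥0∞) (c : ℕ) (w : E) :
    tr g c 0 w + ∑' j, slc g c j w = g w := by
  have h1 : Tendsto (fun n => tr g c 0 w + ∑ j ∈ Finset.range n, slc g c j w) atTop
      (𝓝 (tr g c 0 w + ∑' j, slc g c j w)) :=
    (ENNReal.tendsto_nat_tsum _).const_add _
  simp only [tr_sum] at h1
  exact tendsto_nhds_unique h1 (tr_tendsto g c w)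

theorem slc_bound (g : E → ℝ≥0∞) (c j : ℕ) (w : E) :
    ((2 * j + 1 : ℕ) : ℝ≥0∞) * slc g c j w ≤ (4 * g w + 1) * slc g c j w := by
  by_cases h : slc g c j w = 0
  · rw [h]; simp
  · refine mul_le_mul' ?_ le_rfl
    have h1 : ((c : ℝ≥0∞) + (j : ℝ≥0∞) / 2) < g w := by
      by_contra hle
      push Not at hle
      apply h
      have e1 : tr g c j w = g w := min_eq_left hle
      have e2 : tr g c (j + 1) w ≤ g w := min_le_left _ _
      unfold slc
      rw [e1]
      exact tsub_eq_zero_of_le e2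
    have h2 : (j : ℝ≥0∞) / 2 ≤ g w := (le_add_self).trans h1.le
    have h3 : (j : ℝ≥0∞) ≤ 2 * g w := by
      have := (ENNReal.div_le_iff (by simp) (by simp)).1 h2
      rwa [mul_comm] at this
    push_cast
    have h4 : 2 * (j : ℝ≥0∞) ≤ 2 * (2 * g w) := mul_le_mul' le_rfl h3
    have h5 : 2 * (2 * g w) = 4 * g w := by rw [← mul_assoc]; norm_num
    rw [h5] at h4
    exact add_le_add h4 le_rfl

theorem slc_sum_bound (g : E → ℝ≥0∞) (c : ℕ) (w : E) :
    ∑' j, ((2 * j + 1 : ℕ) : ℝ≥0∞) * slc g c j w ≤ 4 * g w ^ 2 + g w := by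
  calc ∑' j, ((2 * j + 1 : ℕ) : ℝ≥0∞) * slc g c j w
      ≤ ∑' j, (4 * g w + 1) * slc g c j w := ENNReal.tsum_le_tsum fun j => slc_bound g c j w
    _ = (4 * g w + 1) * ∑' j, slc g c j w := ENNReal.tsum_mul_left
    _ ≤ (4 * g w + 1) * g w := by
        refine mul_le_mul' le_rfl ?_
        calc ∑' j, slc g c j w ≤ tr g c 0 w + ∑' j, slc g c j w := le_add_self
          _ = g w := tr_tsum g c w
    _ = 4 * g w ^ 2 + g w := by ring

end SelTr

section SelMain0

theorem bx_mono {X : Type*} {good : ℕ → Set X} {k : ℕ} {B : Set X} {x : ℕ → X}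
    (hx : x ∈ Set.pi univ (bxT good k B)) : x ∈ Set.pi univ (bxT good k univ) := by
  intro n _
  have h1 := hx n (mem_univ n)
  by_cases h : n = k
  · subst h
    rw [bxT, if_pos rfl] at h1 ⊢
    exact ⟨h1.1, trivial⟩
  · rw [bxT, if_neg h] at h1 ⊢
    exact h1

theorem geo_mean {r : ℝ≥0∞} (hr : r < 1) : ∑' i : ℕ, ((2 * i : ℕ) : ℝ≥0∞) * r ^ i < ⊤ := by
  lift r to ℝ≥0 using (hr.trans ENNReal.one_lt_top).ne
  have h1 : (r : ℝ) < 1 := by exact_mod_cast hr
  have h2 : Summable (fun i : ℕ => ((2 * i : ℕ) : ℝ≥0) * r ^ i) := by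
    rw [← NNReal.summable_coe]
    have := (summable_pow_mul_geometric_of_norm_lt_one 1 (r := (r : ℝ))
      (by rw [Real.norm_of_nonneg r.coe_nonneg]; exact h1)).mul_left 2
    refine this.congr fun i => ?_
    push_cast
    ring
  have h3 := ENNReal.tsum_coe_ne_top_iff_summable.2 h2
  rw [lt_top_iff_ne_top]
  convert h3 using 3 with i
  push_cast
  rfl

theorem ex_c {E : Type*} [MeasurableSpace E] (W : Measure E) [IsProbabilityMeasure W]
    {g : E → ℝ≥0∞} (hg : Measurable g) (h1 : ∫⁻ x, g x ∂W = 1) :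
    ∃ c : ℕ, 1 ≤ c ∧ 1 / 2 ≤ ∫⁻ w, tr g c 0 w ∂W := by
  have hlim : Tendsto (fun c : ℕ => ∫⁻ w, tr g c 0 w ∂W) atTop (𝓝 (∫⁻ w, g w ∂W)) := by
    refine lintegral_tendsto_of_tendsto_of_monotone (fun c => (tr_meas hg c 0).aemeasurable)
      (ae_of_all _ fun w => ?_) (ae_of_all _ fun w => ?_)
    · intro a b hab
      refine min_le_min le_rfl (add_le_add ?_ le_rfl)
      exact_mod_cast hab
    · have h3 := (tendsto_const_nhds (x := g w) (f := (atTop : Filter ℕ))).min
        ENNReal.tendsto_nat_nhds_top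
      rw [min_eq_left le_top] at h3
      refine h3.congr fun c => ?_
      simp [tr]
  rw [h1] at hlim
  have h2 : (1 / 2 : ℝ≥0∞) < 1 := by
    rw [one_div]; exact ENNReal.one_half_lt_one
  obtain ⟨c, hc⟩ := ((hlim.eventually (lt_mem_nhds h2)).and (eventually_ge_atTop 1)).exists
  exact ⟨c, hc.2, hc.1.le⟩

end SelMain0

end S91

open S91 in
/-- SEL -/
theorem sel {E : Type*} [MeasurableSpace E] (W : Measure E) [IsProbabilityMeasure W]
    {g : E → ℝ≥0∞} (hg : Measurable g) (h1 : ∫⁻ x, g x ∂W = 1) (h2 : ∫⁻ x, g x ^ 2 ∂W < ⊤) :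
    ∃ N : (ℕ → E × ℝ) → ℕ, Measurable N ∧
      (∀ F : E → ℝ≥0∞, Measurable F →
        ∫⁻ x, F (x (N x)).1 ∂(Measure.infinitePi fun _ : ℕ =>
          W.prod (volume.restrict (Set.Icc (0 : ℝ) 1))) = ∫⁻ x, F x * g x ∂W) ∧
      ∫⁻ x, (N x : ℝ≥0∞) ∂(Measure.infinitePi fun _ : ℕ =>
          W.prod (volume.restrict (Set.Icc (0 : ℝ) 1))) < ⊤ := by
  obtain ⟨c, hc1, hc2⟩ := ex_c W hg h1
  have hct : (c : ℝ≥0∞) ≠ ⊤ := ENNReal.natCast_ne_top c
  set μ : Measure (E × ℝ) := W.prod (volume.restrict (Set.Icc (0 : ℝ) 1)) with hμ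
  set P : Measure (ℕ → E × ℝ) := Measure.infinitePi fun _ : ℕ => μ with hP
  set M : ℕ → ℝ≥0∞ := fun j => ∫⁻ w, tr g c j w ∂W with hM
  have hMmono : ∀ j, M j ≤ M (j + 1) := fun j => lintegral_mono fun w => tr_le_succ g c j w
  have hMhalf : ∀ j, 1 / 2 ≤ M j := by
    intro j
    induction j with
    | zero => exact hc2
    | succ j ih => exact ih.trans (hMmono j)
  have hM0 : ∀ j, M j ≠ 0 := fun j h => by
    have := hMhalf j
    rw [h] at this
    simp at this
  have hMle : ∀ j, M j ≤ 1 := fun j => by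
    rw [← h1]
    exact lintegral_mono fun w => min_le_left _ _
  have hMt : ∀ j, M j ≠ ⊤ := fun j => ne_top_of_le_ne_top ENNReal.one_ne_top (hMle j)
  have hMlim : Tendsto M atTop (𝓝 1) := by
    rw [← h1]
    exact lintegral_tendsto_of_tendsto_of_monotone (fun n => (tr_meas hg c n).aemeasurable)
      (ae_of_all _ fun w => monotone_nat_of_le_succ fun n => tr_le_succ g c n w)
      (ae_of_all _ fun w => tr_tendsto g c w)
  have hMadd : ∀ j, M j + ∫⁻ w, slc g c j w ∂W = M (j + 1) := fun j => by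
    simp only [hM]
    rw [← lintegral_add_left (tr_meas hg c j)]
    exact lintegral_congr fun w => tr_add_slc g c j w
  set hE : E → ℝ≥0∞ := fun w => tr g c 0 w / c with hEdef
  set hO : ℕ → E → ℝ≥0∞ := fun j w => slc g c j w / M (j + 1) with hOdef
  have hEm : Measurable hE := (tr_meas hg c 0).div_const _
  have hOm : ∀ j, Measurable (hO j) := fun j => (slc_meas hg c j).div_const _
  have hE1 : ∀ w, hE w ≤ 1 := fun w => by
    refine ENNReal.div_le_of_le_mul ?_
    rw [one_mul]
    refine (min_le_right _ _).trans ?_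
    simp
  have hO1 : ∀ j w, hO j w ≤ 1 := fun j w => by
    refine ENNReal.div_le_of_le_mul ?_
    rw [one_mul]
    exact (slc_le_half g c j w).trans (hMhalf (j + 1))
  set good : ℕ → Set (E × ℝ) := fun n => if n % 2 = 0 then gd hE else gd (hO (n / 2)) with hgood
  have hge : ∀ l, good (2 * l) = gd hE := fun l => by
    have h3 : (2 * l) % 2 = 0 := by omega
    simp only [hgood, h3, if_true]
  have hgo : ∀ l, good (2 * l + 1) = gd (hO l) := fun l => by
    have h3 : ¬ ((2 * l + 1) % 2 = 0) := by omega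
    have h4 : (2 * l + 1) / 2 = l := by omega
    simp only [hgood, if_neg h3, h4]
  have hgm : ∀ n, MeasurableSet (good n) := fun n => by
    simp only [hgood]
    split_ifs
    exacts [gd_meas hEm, gd_meas (hOm _)]
  have mE : ∀ A, MeasurableSet A →
      μ (gd hE ∩ Prod.fst ⁻¹' A) = (∫⁻ w in A, tr g c 0 w ∂W) / c := fun A hA => by
    rw [hμ, mu_gd W hEm hE1 hA, div_eq_mul_inv, ← lintegral_mul_const _ (tr_meas hg c 0)]
    simp only [hEdef, div_eq_mul_inv]
  have mO : ∀ l A, MeasurableSet A →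
      μ (gd (hO l) ∩ Prod.fst ⁻¹' A) = (∫⁻ w in A, slc g c l w ∂W) / M (l + 1) := fun l A hA => by
    rw [hμ, mu_gd W (hOm l) (hO1 l) hA, div_eq_mul_inv, ← lintegral_mul_const _ (slc_meas hg c l)]
    simp only [hOdef, div_eq_mul_inv]
  have mE' : μ (gd hE) = M 0 / c := by
    have := mE univ MeasurableSet.univ
    rwa [preimage_univ, inter_univ, Measure.restrict_univ] at this
  have mO' : ∀ l, μ (gd (hO l)) = (∫⁻ w, slc g c l w ∂W) / M (l + 1) := fun l => by
    have := mO l univ MeasurableSet.univ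
    rwa [preimage_univ, inter_univ, Measure.restrict_univ] at this
  have ho : ∀ l, μ ((good (2 * l + 1))ᶜ) = M l / M (l + 1) := fun l => by
    rw [prob_compl_eq_one_sub (hgm _), hgo, mO']
    symm
    refine ENNReal.eq_sub_of_add_eq ?_ ?_
    · rw [← mO' l]; exact measure_ne_top _ _
    · rw [← ENNReal.add_div, hMadd, ENNReal.div_self (hM0 _) (hMt _)]
  set r : ℝ≥0∞ := μ ((gd hE)ᶜ) with hr
  have hrq : 1 - r = M 0 / c := by
    rw [hr, prob_compl_eq_one_sub (gd_meas hEm), mE', ENNReal.sub_sub_cancel ENNReal.one_ne_top]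
    rw [← mE']; exact prob_le_one
  have hre : ∀ l, μ ((good (2 * l))ᶜ) = r := fun l => by rw [hge]
  have hq0 : M 0 / c ≠ 0 := (ENNReal.div_pos (hM0 0) hct).ne'
  have hqt : M 0 / c ≠ ⊤ := by rw [← mE']; exact measure_ne_top _ _
  have PO : ∀ j A, MeasurableSet A → P (Set.pi univ (bxT good (2 * j + 1) (Prod.fst ⁻¹' A))) =
      ∫⁻ w in A, slc g c j w ∂W := fun j A hA => by
    rw [hP, bx_odd μ hgm hM0 hMt hMlim ho j (measurable_fst hA), hgo, mO j A hA,
      ENNReal.div_mul_cancel (hM0 _) (hMt _)]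
  have PE : ∀ i A, MeasurableSet A → P (Set.pi univ (bxT good (2 * i) (Prod.fst ⁻¹' A))) =
      r ^ i * ((∫⁻ w in A, tr g c 0 w ∂W) / c * M 0) := fun i A hA => by
    rw [hP, bx_even μ hgm hM0 hMt hMlim ho hre i (measurable_fst hA), hge, mE A hA, mul_assoc]
  have sumE : ∀ A, MeasurableSet A →
      ∑' i, P (Set.pi univ (bxT good (2 * i) (Prod.fst ⁻¹' A))) =
        ∫⁻ w in A, tr g c 0 w ∂W := fun A hA => by
    simp only [PE _ A hA]
    rw [ENNReal.tsum_mul_right, ENNReal.tsum_geometric, hrq]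
    have e : (∫⁻ w in A, tr g c 0 w ∂W) / c * M 0 = (M 0 / c) * ∫⁻ w in A, tr g c 0 w ∂W := by
      rw [div_eq_mul_inv, div_eq_mul_inv]; ring
    rw [e, ← mul_assoc, ENNReal.inv_mul_cancel hq0 hqt, one_mul]
  have sumAll : ∀ A, MeasurableSet A → ∑' k, P (Set.pi univ (bxT good k (Prod.fst ⁻¹' A))) =
      ∫⁻ w in A, g w ∂W := fun A hA => by
    rw [← tsum_even_add_odd ENNReal.summable ENNReal.summable, sumE A hA]
    simp only [PO _ A hA]
    rw [← lintegral_tsum (fun j => (slc_meas hg c j).aemeasurable),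
      ← lintegral_add_left (tr_meas hg c 0)]
    exact lintegral_congr fun w => tr_tsum g c w
  obtain ⟨N, hNm, hN1, hN2⟩ := exN hgm
  refine ⟨N, hNm, ?_, ?_⟩
  · have hev : Measurable fun x : ℕ → E × ℝ => (x (N x)).1 := by
      intro A hA
      have : (fun x : ℕ → E × ℝ => (x (N x)).1) ⁻¹' A =
          ⋃ k, (N ⁻¹' {k} ∩ {x | (x k).1 ∈ A}) := by
        ext x; simp
      rw [this]
      exact MeasurableSet.iUnion fun k => (hNm (measurableSet_singleton k)).inter
        ((measurable_fst.comp (measurable_pi_apply k)) hA)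
    have hpw : IsProbabilityMeasure (W.withDensity g) :=
      ⟨by rw [withDensity_apply _ MeasurableSet.univ, Measure.restrict_univ, h1]⟩
    have hpn : IsProbabilityMeasure (P.map fun x => (x (N x)).1) :=
      Measure.isProbabilityMeasure_map hev.aemeasurable
    have hle : W.withDensity g ≤ P.map fun x => (x (N x)).1 := by
      refine Measure.le_iff.2 fun A hA => ?_
      rw [withDensity_apply _ hA, ← sumAll A hA, Measure.map_apply hev hA, ← measure_iUnion]
      · refine measure_mono (iUnion_subset fun k x hx => ?_)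
        have hx1 : x ∈ Set.pi univ (bxT good k univ) := bx_mono hx
        have hx2 : (x k).1 ∈ A := by
          have := hx k (mem_univ k)
          rw [bx_self] at this
          exact this.2
        simp only [mem_preimage]
        rw [hN1 k x hx1]
        exact hx2
      · intro k l hkl
        exact Set.disjoint_left.2 fun x hx hx' => bx_disj hkl hx hx'
      · exact fun k => MeasurableSet.univ_pi fun n => bxT_meas hgm k (measurable_fst hA) n
    have heq := Measure.eq_of_le_of_isProbabilityMeasure hle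
    intro F hF
    rw [← lintegral_map hF hev, ← heq, lintegral_withDensity_eq_lintegral_mul _ hg hF]
    exact lintegral_congr fun w => mul_comm _ _
  · have hSm : ∀ k, MeasurableSet (Set.pi univ (bxT good k univ) : Set (ℕ → E × ℝ)) := fun k =>
      MeasurableSet.univ_pi fun n => bxT_meas hgm k MeasurableSet.univ n
    have hPO : ∀ j, P (Set.pi univ (bxT good (2 * j + 1) univ)) =
        ∫⁻ w, slc g c j w ∂W := fun j => by
      have := PO j univ MeasurableSet.univ
      rwa [preimage_univ, Measure.restrict_univ] at this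
    have hPE : ∀ i, P (Set.pi univ (bxT good (2 * i) univ)) =
        r ^ i * (M 0 / c * M 0) := fun i => by
      have := PE i univ MeasurableSet.univ
      rwa [preimage_univ, Measure.restrict_univ] at this
    have hpt : ∀ x, (N x : ℝ≥0∞) ≤ ∑' k : ℕ, (Set.pi univ (bxT good k univ)).indicator
        (fun _ => (k : ℝ≥0∞)) x := by
      intro x
      by_cases h : ∃ k, x ∈ Set.pi univ (bxT good k univ)
      · obtain ⟨k, hk⟩ := h
        rw [hN1 k x hk]
        refine le_trans ?_ (ENNReal.le_tsum k)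
        rw [indicator_of_mem hk]
      · push Not at h
        rw [hN2 x h]
        simp
    have hr1 : r < 1 := by
      rw [← tsub_pos_iff_lt, hrq]
      exact pos_iff_ne_zero.2 hq0
    calc ∫⁻ x, (N x : ℝ≥0∞) ∂P
        ≤ ∫⁻ x, ∑' k : ℕ, (Set.pi univ (bxT good k univ)).indicator
            (fun _ => (k : ℝ≥0∞)) x ∂P := lintegral_mono hpt
      _ = ∑' k : ℕ, (k : ℝ≥0∞) * P (Set.pi univ (bxT good k univ)) := by
          rw [lintegral_tsum fun k => (measurable_const.indicator (hSm k)).aemeasurable]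
          exact tsum_congr fun k => by rw [lintegral_indicator_const (hSm k)]
      _ = (∑' i : ℕ, ((2 * i : ℕ) : ℝ≥0∞) * P (Set.pi univ (bxT good (2 * i) univ))) +
            ∑' j : ℕ, ((2 * j + 1 : ℕ) : ℝ≥0∞) * P (Set.pi univ (bxT good (2 * j + 1) univ)) :=
          (tsum_even_add_odd ENNReal.summable ENNReal.summable).symm
      _ < ⊤ := by
          simp only [hPO, hPE]
          refine ENNReal.add_lt_top.2 ⟨?_, ?_⟩
          · simp only [← mul_assoc]
            rw [ENNReal.tsum_mul_right, ENNReal.tsum_mul_right]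
            exact ENNReal.mul_lt_top (ENNReal.mul_lt_top (geo_mean hr1) hqt.lt_top) (hMt 0).lt_top
          · calc ∑' j : ℕ, ((2 * j + 1 : ℕ) : ℝ≥0∞) * ∫⁻ w, slc g c j w ∂W
                = ∫⁻ w, ∑' j : ℕ, ((2 * j + 1 : ℕ) : ℝ≥0∞) * slc g c j w ∂W := by
                  rw [lintegral_tsum fun j =>
                    ((slc_meas hg c j).const_mul _).aemeasurable]
                  exact tsum_congr fun j => (lintegral_const_mul _ (slc_meas hg c j)).symm
              _ ≤ ∫⁻ w, (4 * g w ^ 2 + g w) ∂W := lintegral_mono fun w => slc_sum_bound g c w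
              _ = 4 * ∫⁻ w, g w ^ 2 ∂W + 1 := by
                  rw [lintegral_add_right _ hg, lintegral_const_mul _ (hg.pow_const 2), h1]
              _ < ⊤ := ENNReal.add_lt_top.2
                  ⟨ENNReal.mul_lt_top (by simp) h2, ENNReal.one_lt_top⟩

end Pool.Agent.R986.CM
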