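import Mathlib

/-!
# Project CM, piece ZIP (helper551)
-/

open MeasureTheory ProbabilityTheory Filter Topology Set
open scoped ENNReal NNReal

namespace Pool.Agent.R986.CM

namespace ZipAux

variable {E F : Type*} [MeasurableSpace E] [MeasurableSpace F]

/-- pairing of two sequences -/
def zip (q : (ℕ → E) × (ℕ → F)) : ℕ → E × F := fun k => (q.1 k, q.2 k)

/-- the two component sequences -/
def unzip (y : ℕ → E × F) : (ℕ → E) × (ℕ → F) := (fun k => (y k).1, fun k => (y k).2)

theorem zip_meas : Measurable (zip : (ℕ → E) × (ℕ → F) → ℕ → E × F) := by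
  refine measurable_pi_iff.2 fun k => ?_
  exact ((measurable_pi_apply k).comp measurable_fst).prodMk
    ((measurable_pi_apply k).comp measurable_snd)

theorem unzip_meas : Measurable (unzip : (ℕ → E × F) → (ℕ → E) × (ℕ → F)) := by
  refine Measurable.prodMk ?_ ?_
  · exact measurable_pi_iff.2 fun k => measurable_fst.comp (measurable_pi_apply k)
  · exact measurable_pi_iff.2 fun k => measurable_snd.comp (measurable_pi_apply k)

theorem univ_mem : (univ : Set (ℕ → E)) ∈
    squareCylinders (fun _ : ℕ => {s : Set E | MeasurableSet s}) := by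
  refine ⟨∅, fun _ => univ, fun _ _ => MeasurableSet.univ, ?_⟩
  ext x
  simp

/-- the spanning sets of the generating system -/
noncomputable def fin (μ : Measure (ℕ → E)) [IsProbabilityMeasure μ] :
    μ.FiniteSpanningSetsIn (squareCylinders (fun _ : ℕ => {s : Set E | MeasurableSet s})) where
  set _ := univ
  set_mem _ := univ_mem
  finite _ := by rw [measure_univ]; exact ENNReal.one_lt_top
  spanning := iUnion_const _

theorem box (W : Measure E) [IsProbabilityMeasure W] (s u : Finset ℕ) (hs : s ⊆ u)
    (a : ℕ → Set E) :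
    ∏ i ∈ u, W (if i ∈ s then a i else univ) = ∏ i ∈ s, W (a i) := by
  rw [← Finset.prod_subset hs]
  · exact Finset.prod_congr rfl fun i hi => by rw [if_pos hi]
  · intro i _ hi
    rw [if_neg hi, measure_univ]

theorem unzip_map (W : Measure E) [IsProbabilityMeasure W] (V : Measure F)
    [IsProbabilityMeasure V] :
    (Measure.infinitePi fun _ : ℕ => W).prod (Measure.infinitePi fun _ : ℕ => V) =
      (Measure.infinitePi fun _ : ℕ => W.prod V).map unzip := by
  refine Measure.prod_eq_generateFrom generateFrom_squareCylinders generateFrom_squareCylinders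
    (isPiSystem_squareCylinders (fun _ => MeasurableSpace.isPiSystem_measurableSet)
      (fun _ => MeasurableSet.univ))
    (isPiSystem_squareCylinders (fun _ => MeasurableSpace.isPiSystem_measurableSet)
      (fun _ => MeasurableSet.univ)) (fin _) (fin _) ?_
  rintro _ ⟨s, a, ha, rfl⟩ _ ⟨t, c, hc, rfl⟩
  have ha' : ∀ i, MeasurableSet (a i) := fun i => ha i (mem_univ i)
  have hc' : ∀ i, MeasurableSet (c i) := fun i => hc i (mem_univ i)
  have hA : MeasurableSet ((s : Set ℕ).pi a) :=
    MeasurableSet.pi s.countable_toSet fun i _ => ha' i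
  have hC : MeasurableSet ((t : Set ℕ).pi c) :=
    MeasurableSet.pi t.countable_toSet fun i _ => hc' i
  have hpre : unzip ⁻¹' (((s : Set ℕ).pi a) ×ˢ ((t : Set ℕ).pi c)) =
      ((s ∪ t : Finset ℕ) : Set ℕ).pi (fun i => (if i ∈ s then a i else univ) ×ˢ
        (if i ∈ t then c i else univ)) := by
    ext y
    simp only [mem_preimage, mem_prod, Set.mem_pi, unzip, Finset.mem_coe, Finset.mem_union]
    constructor
    · rintro ⟨h1, h2⟩ i _
      refine ⟨?_, ?_⟩
      · split_ifs with h
        · exact h1 i h
        · exact mem_univ _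
      · split_ifs with h
        · exact h2 i h
        · exact mem_univ _
    · intro h
      refine ⟨fun i hi => ?_, fun i hi => ?_⟩
      · have := (h i (Or.inl hi)).1
        rwa [if_pos hi] at this
      · have := (h i (Or.inr hi)).2
        rwa [if_pos hi] at this
  rw [Measure.map_apply unzip_meas (hA.prod hC), hpre, Measure.infinitePi_pi,
    Measure.infinitePi_pi _ (fun i _ => ha' i), Measure.infinitePi_pi _ (fun i _ => hc' i)]
  · rw [← box W s (s ∪ t) Finset.subset_union_left a,
      ← box V t (s ∪ t) Finset.subset_union_right c, ← Finset.prod_mul_distrib]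
    exact Finset.prod_congr rfl fun i _ => Measure.prod_prod _ _
  · intro i _
    refine MeasurableSet.prod ?_ ?_
    · split_ifs
      · exact ha' i
      · exact MeasurableSet.univ
    · split_ifs
      · exact hc' i
      · exact MeasurableSet.univ

theorem zip_map (W : Measure E) [IsProbabilityMeasure W] (V : Measure F)
    [IsProbabilityMeasure V] :
    ((Measure.infinitePi fun _ : ℕ => W).prod (Measure.infinitePi fun _ : ℕ => V)).map zip =
      Measure.infinitePi fun _ : ℕ => W.prod V := by
  rw [unzip_map, Measure.map_map zip_meas unzip_meas]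
  have : (zip ∘ unzip : (ℕ → E × F) → ℕ → E × F) = id := rfl
  rw [this, Measure.map_id]

end ZipAux

open ZipAux

variable {Ω : Type*} [MeasurableSpace Ω] {P : Measure Ω}

/-- ZIP -/
theorem zipl {E : Type*} [MeasurableSpace E] [IsProbabilityMeasure P] {X : ℕ → Ω → E}
    (hX : ∀ k, Measurable (X k)) (hind : iIndepFun X P) {W : Measure E} [IsProbabilityMeasure W]
    (hW : ∀ k, P.map (X k) = W) :
    (P.prod (Measure.infinitePi fun _ : ℕ => volume.restrict (Set.Icc (0 : ℝ) 1))).map
        (fun p k => (X k p.1, p.2 k)) =
      Measure.infinitePi fun _ : ℕ => W.prod (volume.restrict (Set.Icc (0 : ℝ) 1)) := by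
  have hV : IsProbabilityMeasure (volume.restrict (Set.Icc (0 : ℝ) 1)) := ⟨by
    rw [Measure.restrict_apply_univ, Real.volume_Icc]
    simp⟩
  have h1 : P.map (fun ω k => X k ω) = Measure.infinitePi fun _ : ℕ => W := by
    have h := (iIndepFun_iff_map_fun_eq_infinitePi_map hX).1 hind
    rw [h]
    congr 1
    funext k
    exact hW k
  have hXm : Measurable fun ω k => X k ω := measurable_pi_iff.2 hX
  rw [← zip_map, ← h1]
  conv_rhs => rw [← Measure.map_id (μ := Measure.infinitePi fun _ : ℕ =>
    volume.restrict (Set.Icc (0 : ℝ) 1))]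
  rw [Measure.map_prod_map _ _ hXm measurable_id, Measure.map_map zip_meas
    (hXm.prodMap measurable_id)]
  rfl

end Pool.Agent.R986.CM
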